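import Pool.Agent.W227.FL.Ultra

/-! The grid of ranks `⌊a m / b⌋`. -/

set_option autoImplicit false

namespace Pool.Agent.W227.FL

open Filter Topology

/-- rank of the `i`-th grid element in a chain with `m` elements: the first element, the last
element, and the elements of rank `⌊a m / b⌋`. -/
def grank (i m : ℕ) : ℕ :=
  match i with
  | 0 => 0
  | 1 => m - 1
  | k + 2 => min ((Nat.unpair k).1 * m / (Nat.unpair k).2) (m - 1)

theorem grank_lt {i m : ℕ} (hm : 0 < m) : grank i m < m := by
  unfold grank
  split <;> omega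

/-- the `i`-th grid element of `Fin (m n)` -/
def gr {m : ℕ → ℕ} (hm : ∀ n, 0 < m n) (i n : ℕ) : Fin (m n) := ⟨grank i (m n), grank_lt (hm n)⟩

/-- the `i`-th grid element of the ultraproduct -/
def gstar {U : Ultrafilter ℕ} {m : ℕ → ℕ} (hm : ∀ n, 0 < m n) (i : ℕ) : Star U m :=
  mk (gr hm i)

end Pool.Agent.W227.FL
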