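import Pool.Agent.W227.FL.Ultra

/-! Part B2: least elements and countable saturation of the ultraproduct. -/

set_option autoImplicit false

namespace Pool.Agent.W227.FL

open Filter Topology

variable {U : Ultrafilter ℕ} {m : ℕ → ℕ}

theorem snoc_mk {k : ℕ} (x : Fin k → ∀ n, Fin (m n)) (y : ∀ n, Fin (m n)) :
    (fun i : Fin (k + 1) => (mk ((Fin.snoc x y : Fin (k + 1) → ∀ n, Fin (m n)) i) : Star U m)) =
            (Fin.snoc (fun i => (mk (x i) : Star U m)) (mk y) : Fin (k + 1) → Star U m) := by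
  funext i
  refine Fin.lastCases ?_ (fun j => ?_) i <;> simp

theorem snoc_eval {k : ℕ} (x : Fin k → ∀ n, Fin (m n)) (y : ∀ n, Fin (m n)) (n : ℕ) :
    (fun i : Fin (k + 1) => (Fin.snoc x y : Fin (k + 1) → ∀ n, Fin (m n)) i n) =
            (Fin.snoc (fun i => x i n) (y n) : Fin (k + 1) → Fin (m n)) := by
  funext i
  refine Fin.lastCases ?_ (fun j => ?_) i <;> simp

/-- Los for a tuple with a distinguished last element -/
theorem rt_mk_snoc (hm : ∀ n, 0 < m n) (c : ∀ n, Fin (m n) → Bool) (q : ℕ) {k : ℕ}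
    (x : Fin k → ∀ n, Fin (m n)) (y : ∀ n, Fin (m n)) :
    ∀ᶠ n in (U : Filter ℕ), rt (cstar c) q
      (Fin.snoc (fun i => (mk (x i) : Star U m)) (mk y) : Fin (k + 1) → Star U m) =
      rt (c n) q (Fin.snoc (fun i => x i n) (y n) : Fin (k + 1) → Fin (m n)) := by
  have := rt_mk (U := U) hm c q (Fin.snoc x y : Fin (k + 1) → ∀ n, Fin (m n))
  filter_upwards [this] with n hn
  rw [snoc_mk, snoc_eval] at hn
  exact hn

theorem star_min (hm : ∀ n, 0 < m n) (c : ∀ n, Fin (m n) → Bool) :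
    MinProp (cstar c : Star U m → Bool) := by
  classical
  intro q k f ρ ⟨z, hz⟩
  choose x hx using fun i => mk_surj (f i)
  obtain ⟨y, rfl⟩ := mk_surj z
  obtain rfl : f = fun i => mk (x i) := funext fun i => (hx i).symm
  let P : ∀ n, Fin (m n) → Prop := fun n b =>
    rt (c n) q (Fin.snoc (fun i => x i n) b : Fin (k + 1) → Fin (m n)) = ρ
  have hex : ∀ n, (∃ b, P n b) → ∃ b, P n b ∧ ∀ b', P n b' → b ≤ b' := by
    intro n h
    obtain ⟨b, hb, hmin⟩ := Set.exists_min_image {b | P n b} id (Set.toFinite _) h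
    exact ⟨b, hb, fun b' hb' => hmin b' hb'⟩
  let w : ∀ n, Fin (m n) := fun n => if h : ∃ b, P n b then (hex n h).choose else ⟨0, hm n⟩
  have hw : ∀ n, (∃ b, P n b) → P n (w n) ∧ ∀ b', P n b' → w n ≤ b' := by
    intro n h
    have : w n = (hex n h).choose := by simp only [w]; rw [dif_pos h]
    rw [this]
    exact (hex n h).choose_spec
  have hev : ∀ᶠ n in (U : Filter ℕ), ∃ b, P n b := by
    filter_upwards [rt_mk_snoc (U := U) hm c q x y] with n hn
    exact ⟨y n, hn.symm.trans hz⟩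
  refine ⟨mk w, ?_, ?_⟩
  · obtain ⟨n, h1, h2⟩ := ((rt_mk_snoc (U := U) hm c q x w).and hev).exists
    rw [h1]
    exact (hw n h2).1
  · intro z' hz'
    obtain ⟨y', rfl⟩ := mk_surj z'
    rw [mk_le]
    filter_upwards [hev, rt_mk_snoc (U := U) hm c q x y'] with n h1 h2
    exact (hw n h1).2 _ (h2.symm.trans hz')

theorem ilv_mk (h a : ℕ → ∀ n, Fin (m n)) (i : ℕ) :
    ilv (fun i => (mk (h i) : Star U m)) (fun i => mk (a i)) i = mk (ilv h a i) := by
  unfold ilv
  split <;> rfl

theorem ilv_eval (h a : ℕ → ∀ n, Fin (m n)) (i n : ℕ) :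
    ilv h a i n = ilv (fun i => h i n) (fun i => a i n) i := by
  unfold ilv
  split <;> rfl

theorem Tp_mk (hm : ∀ n, 0 < m n) (c : ∀ n, Fin (m n) → Bool) (h a : ℕ → ∀ n, Fin (m n)) (k : ℕ) :
    ∀ᶠ n in (U : Filter ℕ),
      Tp (cstar c) (ilv (fun i => (mk (h i) : Star U m)) (fun i => mk (a i))) k =
      Tp (c n) (ilv (fun i => h i n) (fun i => a i n)) k := by
  have := rt_mk (U := U) hm c k (fun i : Fin k => ilv h a i)
  filter_upwards [this] with n hn
  unfold Tp
  simp only [ilv_mk]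
  rw [hn]
  simp only [ilv_eval]

theorem star_sat (hU : (U : Filter ℕ) ≤ atTop) (hm : ∀ n, 0 < m n) (c : ∀ n, Fin (m n) → Bool) :
    SatProp (cstar c : Star U m → Bool) := by
  classical
  intro h K P hfin
  choose x hx using fun i => mk_surj (h i)
  obtain rfl : h = fun i => mk (x i) := funext fun i => (hx i).symm
  choose a ha using hfin
  choose y hy using fun n i => mk_surj (a n i)
  -- `y n i : ∀ k, Fin (m k)`
  have hy' : ∀ n, a n = fun i => mk (y n i) := fun n => funext fun i => (hy n i).symm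
  -- good indices
  let G : ℕ → ℕ → Prop := fun N k => N ≤ k ∧
    ∀ j ≤ N, Tp (c k) (ilv (fun i => x i k) (fun i => y N i k)) (K j) ∈ P j
  have hG : ∀ N, ∀ᶠ k in (U : Filter ℕ), G N k := by
    intro N
    refine Filter.Eventually.and (hU (eventually_ge_atTop N)) ?_
    have : ∀ᶠ k in (U : Filter ℕ), ∀ j ∈ Finset.range (N + 1),
        Tp (c k) (ilv (fun i => x i k) (fun i => y N i k)) (K j) ∈ P j := by
      rw [Filter.eventually_all_finset]
      intro j hj
      have h1 := ha N j (by simpa [Nat.lt_succ_iff] using hj)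
      rw [hy' N] at h1
      filter_upwards [Tp_mk (U := U) hm c x (y N) (K j)] with k hk
      rw [← hk]; exact h1
    filter_upwards [this] with k hk j hj
    exact hk j (by simpa [Nat.lt_succ_iff] using hj)
  let N : ℕ → ℕ := fun k => Nat.findGreatest (fun N => G N k) k
  let z : ℕ → ∀ k, Fin (m k) := fun i k => y (N k) i k
  refine ⟨fun i => mk (z i), fun j => ?_⟩
  obtain ⟨k, h1, h2⟩ := ((Tp_mk (U := U) hm c x z (K j)).and (hG j)).exists
  rw [h1]
  have hN1 : j ≤ N k := Nat.le_findGreatest h2.1 h2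
  have hN2 : G (N k) k := Nat.findGreatest_spec (P := fun N => G N k) h2.1 h2
  exact hN2.2 j hN1

end Pool.Agent.W227.FL
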