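import Pool.Agent.W227.FL.Xi
import Pool.Agent.W227.FL.Grid
import Pool.Agent.W227.FL.Sat
import Pool.Agent.W641.FLFormula

/-! Part H: assembly. -/

set_option autoImplicit false

namespace Pool.Agent.W227.FL

open Filter Topology MeasureTheory

/-- the statement of `meas_main` -/
def MeasMain : Prop := ∀ {U : Ultrafilter ℕ} {m : ℕ → ℕ} (_ : (U : Filter ℕ) ≤ atTop)
    (hm : ∀ n, 0 < m n)
    (_ : Tendsto m U atTop) (c : ∀ n, Fin (m n) → Bool),
    ∃ ν : Measure (∀ k, RT k (k + 1)), IsProbabilityMeasure ν ∧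
      ∀ X : (∀ k, RT k (k + 1)) → Star U m,
        (∀ p ∈ GoodTp (cstar c : Star U m → Bool) (gstar hm),
          tpx (cstar c) (gstar hm) (X p) = p) →
        ∀ (q k : ℕ) (Φ : Set (RT q k)),
          MeasurableSet {p : Fin k → (∀ k, RT k (k + 1)) | rt (cstar c) q (X ∘ p) ∈ Φ} →
          Tendsto (fun n => (Nat.card {v : Fin k → Fin (m n) // rt (c n) q v ∈ Φ} : ℝ)
            / (m n : ℝ) ^ k) U
            (𝓝 ((Measure.pi fun _ : Fin k => ν)
              {p : Fin k → (∀ k, RT k (k + 1)) | rt (cstar c) q (X ∘ p) ∈ Φ}).toReal)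

/-- an order embedding with the Tarski-Vaught property preserves rank types -/
theorem rt_sub {M S : Type} [LinearOrder M] [LinearOrder S] {cM : M → Bool} {c : S → Bool}
    (val : M → S) (hlt : ∀ x y, x < y ↔ val x < val y) (hc : ∀ x, cM x = c (val x))
    (htv : ∀ (q k : ℕ) (v : Fin k → M) (b : S), ∃ z : M,
        rt c q (Fin.snoc (val ∘ v) (val z) : Fin (k + 1) → S) =
          rt c q (Fin.snoc (val ∘ v) b : Fin (k + 1) → S))
    (q k : ℕ) (v : Fin k → M) : rt cM q v = rt c q (val ∘ v) := by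
  have h0 : ∀ {k : ℕ} (v : Fin k → M), (((fun i j => decide (v i < v j), fun i => cM (v i)) :
      (Fin k → Fin k → Bool) × (Fin k → Bool))) =
      (fun i j => decide ((val ∘ v) i < (val ∘ v) j), fun i => c ((val ∘ v) i)) := by
    intro k v
    refine Prod.ext ?_ ?_
    · funext i j
      simp only [Function.comp, hlt]
    · funext i
      exact hc _
  induction q generalizing k with
  | zero => exact h0 v
  | succ q ih =>
    refine Prod.ext (h0 v) ?_
    show {ρ | ∃ b : M, rt cM q (Fin.snoc v b : Fin (k + 1) → M) = ρ} =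
      {ρ | ∃ b : S, rt c q (Fin.snoc (val ∘ v) b : Fin (k + 1) → S) = ρ}
    have hs : ∀ b : M, val ∘ (Fin.snoc v b : Fin (k + 1) → M) =
        (Fin.snoc (val ∘ v) (val b) : Fin (k + 1) → S) := by
      intro b
      funext i
      refine Fin.lastCases ?_ (fun j => ?_) i <;> simp
    ext ρ
    constructor
    · rintro ⟨b, rfl⟩
      exact ⟨val b, by rw [ih, hs]⟩
    · rintro ⟨b, rfl⟩
      obtain ⟨z, hz⟩ := htv q k v b
      exact ⟨z, by rw [ih, hs, hz]⟩

/-- order isomorphisms preserve rank types -/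
theorem rt_iso {A B : Type} [LinearOrder A] [LinearOrder B] {cA : A → Bool} {cB : B → Bool}
    (f : A ≃ B) (hlt : ∀ x y, x < y ↔ f x < f y) (hc : ∀ x, cA x = cB (f x))
    (q k : ℕ) (v : Fin k → A) : rt cA q v = rt cB q (f ∘ v) := by
  refine rt_sub f hlt hc (fun q k v b => ⟨f.symm b, by rw [f.apply_symm_apply]⟩) q k v

/-- H1a: lengths tending to infinity -/
theorem words_limit_inf (HM : MeasMain) (U : Ultrafilter ℕ) (hU : (U : Filter ℕ) ≤ atTop)
    (m : ℕ → ℕ) (hm : ∀ n, 0 < m n) (hmt : Tendsto m U atTop) (c : ∀ n, Fin (m n) → Bool) :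
    ∃ (M : Type) (_ : MeasurableSpace M) (_ : StandardBorelSpace M) (_ : LinearOrder M)
      (cM : M → Bool) (μ : Measure M) (_ : IsProbabilityMeasure μ),
      (∀ (q k : ℕ) (Φ : Set (RT q k)), MeasurableSet {v : Fin k → M | rt cM q v ∈ Φ}) ∧
      ∀ (q k : ℕ) (Φ : Set (RT q k)),
        Tendsto (fun n => (Nat.card {v : Fin k → Fin (m n) // rt (c n) q v ∈ Φ} : ℝ)
          / (m n : ℝ) ^ k) U
          (𝓝 ((Measure.pi fun _ : Fin k => μ) {v : Fin k → M | rt cM q v ∈ Φ}).toReal) := by
  obtain ⟨M, hM1, hM2, val, hinj, hmeas, htv, ξ, hξ, hξ'⟩ :=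
    exists_model (c := (cstar c : Star U m → Bool)) (g := gstar hm) (star_min hm c)
      (star_sat hU hm c) (by
        intro x
        obtain ⟨x, rfl⟩ := mk_surj x
        exact mk_le.2 (Eventually.of_forall fun n => Fin.le_def.2 (Nat.zero_le _))) (by
        intro x
        obtain ⟨x, rfl⟩ := mk_surj x
        refine mk_le.2 (Eventually.of_forall fun n => Fin.le_def.2 ?_)
        have := (x n).2
        show (x n : ℕ) ≤ m n - 1
        omega)
  obtain ⟨ν, hν, hlim⟩ := HM hU hm hmt c
  letI : LinearOrder M := LinearOrder.lift' val hinj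
  have hlt : ∀ x y : M, x < y ↔ val x < val y := fun x y => Iff.rfl
  have hrt : ∀ (q k : ℕ) (v : Fin k → M), rt (fun x => (cstar c : Star U m → Bool) (val x)) q v =
      rt (cstar c : Star U m → Bool) q (val ∘ v) := fun q k v =>
    rt_sub val hlt (fun _ => rfl) htv q k v
  have hms : ∀ (q k : ℕ) (Φ : Set (RT q k)),
      MeasurableSet {v : Fin k → M | rt (fun x => (cstar c : Star U m → Bool) (val x)) q v ∈ Φ} := by
    intro q k Φ
    have : {v : Fin k → M | rt (fun x => (cstar c : Star U m → Bool) (val x)) q v ∈ Φ} =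
        ⋃ ρ ∈ Φ, {v : Fin k → M | rt (cstar c : Star U m → Bool) q (val ∘ v) = ρ} := by
      ext v
      simp only [Set.mem_iUnion]
      constructor
      · intro h
        exact ⟨_, h, (hrt q k v).symm⟩
      · rintro ⟨ρ, hρ, h⟩
        have h' : rt (cstar c : Star U m → Bool) q (val ∘ v) = ρ := h
        show rt (fun x => (cstar c : Star U m → Bool) (val x)) q v ∈ Φ
        rw [hrt, h']; exact hρ
    rw [this]
    exact MeasurableSet.biUnion (Set.to_countable _) fun ρ _ => hmeas q k ρ
  refine ⟨M, hM1, hM2, inferInstance, fun x => (cstar c : Star U m → Bool) (val x), ν.map ξ,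
    Measure.isProbabilityMeasure_map hξ.aemeasurable, hms, ?_⟩
  intro q k Φ
  have hpm : IsProbabilityMeasure (ν.map ξ) := Measure.isProbabilityMeasure_map hξ.aemeasurable
  have hpi : (Measure.pi fun _ : Fin k => ν.map ξ) =
      (Measure.pi fun _ : Fin k => ν).map (fun p i => ξ (p i)) := by
    rw [Measure.pi_map_pi (fun _ => hξ.aemeasurable)]
  have hmf : Measurable fun (p : Fin k → (∀ k, RT k (k + 1))) (i : Fin k) => ξ (p i) :=
    measurable_pi_lambda _ fun i => hξ.comp (measurable_pi_apply i)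
  rw [hpi, Measure.map_apply hmf (hms q k Φ)]
  have hset : (fun (p : Fin k → (∀ k, RT k (k + 1))) (i : Fin k) => ξ (p i)) ⁻¹'
      {v : Fin k → M | rt (fun x => (cstar c : Star U m → Bool) (val x)) q v ∈ Φ} =
      {p : Fin k → (∀ k, RT k (k + 1)) | rt (cstar c : Star U m → Bool) q ((fun p => val (ξ p)) ∘ p) ∈ Φ} := by
    ext p
    show rt (fun x => (cstar c : Star U m → Bool) (val x)) q (fun i => ξ (p i)) ∈ Φ ↔ _
    rw [hrt]
    rfl
  rw [hset]
  refine hlim (fun p => val (ξ p)) hξ' q k Φ ?_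
  rw [← hset]
  exact hmf (hms q k Φ)

/-- H1b: constant word -/
theorem words_limit_const (m : ℕ) (hm : 0 < m) (c : Fin m → Bool) :
    ∃ (M : Type) (_ : MeasurableSpace M) (_ : StandardBorelSpace M) (_ : LinearOrder M)
      (cM : M → Bool) (μ : Measure M) (_ : IsProbabilityMeasure μ),
      (∀ (q k : ℕ) (Φ : Set (RT q k)), MeasurableSet {v : Fin k → M | rt cM q v ∈ Φ}) ∧
      ∀ (q k : ℕ) (Φ : Set (RT q k)),
        ((Nat.card {v : Fin k → Fin m // rt c q v ∈ Φ} : ℝ) / (m : ℝ) ^ k) =
          ((Measure.pi fun _ : Fin k => μ) {v : Fin k → M | rt cM q v ∈ Φ}).toReal := by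
  classical
  let μ : Measure (Fin m) := (m : ENNReal)⁻¹ • Measure.count
  have hm0 : (m : ENNReal) ≠ 0 := by exact_mod_cast hm.ne'
  have hmt : (m : ENNReal) ≠ ⊤ := ENNReal.natCast_ne_top m
  have hμ : IsProbabilityMeasure μ := by
    constructor
    show ((m : ENNReal)⁻¹ • Measure.count) Set.univ = 1
    rw [Measure.smul_apply, Measure.count_apply_finite _ (Set.toFinite _)]
    simp only [smul_eq_mul]
    have : ((Set.toFinite (Set.univ : Set (Fin m))).toFinset.card) = m := by simp
    rw [this]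
    exact ENNReal.inv_mul_cancel hm0 hmt
  refine ⟨Fin m, inferInstance, inferInstance, inferInstance, c, μ, hμ, ?_, ?_⟩
  · intro q k Φ
    exact (Set.toFinite _).measurableSet
  · intro q k Φ
    have hpi : (Measure.pi fun _ : Fin k => μ) = ((m : ENNReal)⁻¹) ^ k • Measure.count := by
      refine Measure.pi_eq fun s hs => ?_
      rw [Measure.smul_apply, Measure.count_apply_finite _ (Set.toFinite _)]
      have h1 : ∀ i, μ (s i) = (m : ENNReal)⁻¹ * ((s i).toFinite.toFinset.card : ENNReal) := by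
        intro i
        show ((m : ENNReal)⁻¹ • Measure.count) (s i) = _
        rw [Measure.smul_apply, Measure.count_apply_finite _ (Set.toFinite _)]
        rfl
      simp only [h1, Finset.prod_mul_distrib, Finset.prod_const, Finset.card_univ, Fintype.card_fin,
        smul_eq_mul]
      congr 1
      have h2 : (Set.toFinite (Set.univ.pi s)).toFinset =
          Fintype.piFinset fun i => (s i).toFinite.toFinset := by
        ext v
        rw [Set.Finite.mem_toFinset, Fintype.mem_piFinset, Set.mem_univ_pi]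
        exact forall_congr' fun i => (Set.Finite.mem_toFinset _).symm
      rw [h2, Fintype.card_piFinset]
      push_cast
      rfl
    rw [hpi, Measure.smul_apply, Measure.count_apply_finite _ (Set.toFinite _)]
    simp only [smul_eq_mul, ENNReal.toReal_mul, ENNReal.toReal_pow, ENNReal.toReal_inv,
      ENNReal.toReal_natCast]
    rw [div_eq_inv_mul, inv_pow]
    congr 1
    norm_cast
    exact Set.ncard_eq_toFinset_card {v : Fin k → Fin m | rt c q v ∈ Φ} _

/-- H1: limits of words along an ultrafilter (no assumption on the lengths) -/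
theorem words_limit (HM : MeasMain) (U : Ultrafilter ℕ) (hU : (U : Filter ℕ) ≤ atTop) (m : ℕ → ℕ)
    (hm : ∀ n, 0 < m n) (c : ∀ n, Fin (m n) → Bool) :
    ∃ (M : Type) (_ : MeasurableSpace M) (_ : StandardBorelSpace M) (_ : LinearOrder M)
      (cM : M → Bool) (μ : Measure M) (_ : IsProbabilityMeasure μ),
      (∀ (q k : ℕ) (Φ : Set (RT q k)), MeasurableSet {v : Fin k → M | rt cM q v ∈ Φ}) ∧
      ∀ (q k : ℕ) (Φ : Set (RT q k)),
        Tendsto (fun n => (Nat.card {v : Fin k → Fin (m n) // rt (c n) q v ∈ Φ} : ℝ)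
          / (m n : ℝ) ^ k) U
          (𝓝 ((Measure.pi fun _ : Fin k => μ) {v : Fin k → M | rt cM q v ∈ Φ}).toReal) := by
  classical
  by_cases hmt : Tendsto m U atTop
  · exact words_limit_inf HM U hU m hm hmt c
  · rw [tendsto_atTop] at hmt
    push Not at hmt
    obtain ⟨B, hB⟩ := hmt
    have hB' : ∀ᶠ n in (U : Filter ℕ), m n < B := hB
    let f : ℕ → Σ l : ℕ, (Fin l → Bool) := fun n => ⟨m n, c n⟩
    have hfin : {t : Σ l : ℕ, (Fin l → Bool) | t.1 < B}.Finite := by
      have : {t : Σ l : ℕ, (Fin l → Bool) | t.1 < B} =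
          Set.range (fun t : Σ l : Fin B, (Fin l → Bool) => (⟨t.1, t.2⟩ : Σ l : ℕ, (Fin l → Bool))) := by
        ext ⟨l, w⟩
        constructor
        · intro h; exact ⟨⟨⟨l, h⟩, w⟩, rfl⟩
        · rintro ⟨⟨⟨l', h'⟩, w'⟩, h⟩
          have : l' = l := congrArg Sigma.fst h
          show l < B
          omega
      rw [this]; exact Set.finite_range _
    have hex : ∀ᶠ n in (U : Filter ℕ), ∃ t ∈ {t : Σ l : ℕ, (Fin l → Bool) | t.1 < B}, f n = t := by
      filter_upwards [hB'] with n hn
      exact ⟨f n, hn, rfl⟩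
    rw [Ultrafilter.eventually_exists_mem_iff hfin] at hex
    obtain ⟨t, _, ht⟩ := hex
    obtain ⟨n0, hn0⟩ := ht.exists
    have ht0 : 0 < t.1 := by rw [← hn0]; exact hm n0
    obtain ⟨M, i1, i2, i3, cM, μ, hμ, h1, h2⟩ := words_limit_const t.1 ht0 t.2
    refine ⟨M, i1, i2, i3, cM, μ, hμ, h1, fun q k Φ => ?_⟩
    rw [← h2 q k Φ]
    refine tendsto_const_nhds.congr' ?_
    filter_upwards [ht] with n hn
    have : ∀ s : Σ l : ℕ, (Fin l → Bool), s = t →
        (Nat.card {v : Fin k → Fin t.1 // rt t.2 q v ∈ Φ} : ℝ) / (t.1 : ℝ) ^ k =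
        (Nat.card {v : Fin k → Fin s.1 // rt s.2 q v ∈ Φ} : ℝ) / (s.1 : ℝ) ^ k := by
      rintro s rfl; rfl
    exact this (f n) hn

/-- H2: the frozen statement -/
theorem final (HM : MeasMain) :
  ∀ (L : FirstOrder.Language.{0, 0}) (lt : L.Relations 2) (col : L.Relations 1),
    (∀ n, IsEmpty (L.Functions n)) →
    (∀ r : L.Relations 2, r = lt) →
    (∀ r : L.Relations 1, r = col) →
    (∀ n, n ≠ 1 → n ≠ 2 → IsEmpty (L.Relations n)) →
    ∀ (A : ℕ → Type) [∀ n, Finite (A n)] [∀ n, Nonempty (A n)] [∀ n, L.Structure (A n)],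
      (∀ n (x : A n), ¬ FirstOrder.Language.Structure.RelMap lt ![x, x]) →
      (∀ n (x y z : A n), FirstOrder.Language.Structure.RelMap lt ![x, y] →
          FirstOrder.Language.Structure.RelMap lt ![y, z] →
          FirstOrder.Language.Structure.RelMap lt ![x, z]) →
      (∀ n (x y : A n), x ≠ y → FirstOrder.Language.Structure.RelMap lt ![x, y] ∨
          FirstOrder.Language.Structure.RelMap lt ![y, x]) →
      (∀ (p : ℕ) (φ : L.Formula (Fin p)), ∃ ℓ : ℝ,
          Tendsto (fun n : ℕ => (Nat.card {v : Fin p → A n // φ.Realize v} : ℝ) /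
            (Nat.card (A n) : ℝ) ^ p) atTop (𝓝 ℓ)) →
      ∃ (M : Type) (_ : MeasurableSpace M) (_ : StandardBorelSpace M) (_ : L.Structure M)
        (μ : MeasureTheory.Measure M) (_ : MeasureTheory.IsProbabilityMeasure μ),
        (∀ (p : ℕ) (φ : L.Formula (Fin p)), MeasurableSet {v : Fin p → M | φ.Realize v}) ∧
        ∀ (p : ℕ) (φ : L.Formula (Fin p)),
          Tendsto (fun n : ℕ => (Nat.card {v : Fin p → A n // φ.Realize v} : ℝ) /
            (Nat.card (A n) : ℝ) ^ p) atTop
            (𝓝 ((MeasureTheory.Measure.pi (fun _ : Fin p => μ)) {v : Fin p → M | φ.Realize v}).toReal) := by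
  classical
  intro L lt col hF h2 h1 h0 A _ _ _ hirr htr htot hconv
  -- linear orders
  let ord : ∀ n, LinearOrder (A n) := fun n =>
    { le := fun x y => x = y ∨ FirstOrder.Language.Structure.RelMap lt ![x, y]
      lt := fun x y => FirstOrder.Language.Structure.RelMap lt ![x, y]
      le_refl := fun x => Or.inl rfl
      le_trans := by
        rintro x y z (rfl | hxy) (rfl | hyz)
        · exact Or.inl rfl
        · exact Or.inr hyz
        · exact Or.inr hxy
        · exact Or.inr (htr n x y z hxy hyz)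
      le_antisymm := by
        rintro x y (rfl | hxy) (h | hyx)
        · rfl
        · rfl
        · exact h.symm
        · exact absurd (htr n x y x hxy hyx) (hirr n x)
      le_total := by
        intro x y
        by_cases h : x = y
        · exact Or.inl (Or.inl h)
        · rcases htot n x y h with h' | h'
          · exact Or.inl (Or.inr h')
          · exact Or.inr (Or.inr h')
      lt_iff_le_not_ge := by
        intro x y
        constructor
        · intro h
          refine ⟨Or.inr h, ?_⟩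
          rintro (h' | h')
          · rw [h'] at h; exact hirr n _ h
          · exact hirr n x (htr n x y x h h')
        · rintro ⟨h | h, h'⟩
          · exact absurd (Or.inl h.symm) h'
          · exact h
      toDecidableLE := Classical.decRel _ }
  let cA : ∀ n, A n → Bool := fun n x => decide (FirstOrder.Language.Structure.RelMap col ![x])
  let m : ℕ → ℕ := fun n => Nat.card (A n)
  have hm : ∀ n, 0 < m n := fun n => Nat.card_pos
  have hiso : ∀ n, ∃ f : A n ≃ Fin (m n), ∀ x y, (ord n).lt x y ↔ f x < f y := by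
    intro n
    letI := ord n
    letI := Fintype.ofFinite (A n)
    have hc : Fintype.card (A n) = m n := by
      rw [← Nat.card_eq_fintype_card]
    let f := (monoEquivOfFin (A n) hc).symm
    exact ⟨f.toEquiv, fun x y => f.lt_iff_lt.symm⟩
  choose f hf using hiso
  let c : ∀ n, Fin (m n) → Bool := fun n i => cA n ((f n).symm i)
  let U : Ultrafilter ℕ := hyperfilter ℕ
  have hU : (U : Filter ℕ) ≤ atTop := by
    rw [← Nat.cofinite_eq_atTop]
    exact hyperfilter_le_cofinite
  obtain ⟨M, i1, i2, i3, cM, μ, hμ, hmeas, hlim⟩ := words_limit HM U hU m hm c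
  let str : L.Structure M :=
    { funMap := fun {n} g _ => (hF n).elim g
      RelMap := fun {n} _ v =>
        if h : n = 1 then cM (v ⟨0, by omega⟩) = true
        else if h' : n = 2 then v ⟨0, by omega⟩ < v ⟨1, by omega⟩ else False }
  have hltM : ∀ x y : M, FirstOrder.Language.Structure.RelMap lt ![x, y] ↔ x < y := by
    intro x y
    show (if h : (2 : ℕ) = 1 then cM (![x, y] ⟨0, _⟩) = true
        else if h' : (2 : ℕ) = 2 then ![x, y] ⟨0, _⟩ < ![x, y] ⟨1, _⟩ else False) ↔ _
    simp
  have hcM : ∀ x : M, FirstOrder.Language.Structure.RelMap col ![x] ↔ cM x = true := by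
    intro x
    show (if h : (1 : ℕ) = 1 then cM (![x] ⟨0, _⟩) = true
        else if h' : (1 : ℕ) = 2 then ![x] ⟨0, _⟩ < ![x] ⟨1, _⟩ else False) ↔ _
    simp
  refine ⟨M, i1, i2, str, μ, hμ, ?_, ?_⟩
  · intro p φ
    obtain ⟨q, Φ, hΦ⟩ := Pool.Agent.W641.FLF.formula_types L lt col hF h2 h1 h0 φ
    have : {v : Fin p → M | φ.Realize v} = {v : Fin p → M | rt cM q v ∈ Φ} := by
      ext v; exact hΦ M cM hltM hcM v
    rw [this]; exact hmeas q p Φ
  · intro p φ
    obtain ⟨q, Φ, hΦ⟩ := Pool.Agent.W641.FLF.formula_types L lt col hF h2 h1 h0 φ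
    have hset : {v : Fin p → M | φ.Realize v} = {v : Fin p → M | rt cM q v ∈ Φ} := by
      ext v; exact hΦ M cM hltM hcM v
    rw [hset]
    have hcard : ∀ n, Nat.card {v : Fin p → A n // φ.Realize v} =
        Nat.card {v : Fin p → Fin (m n) // rt (c n) q v ∈ Φ} := by
      intro n
      letI := ord n
      refine Nat.card_congr (Equiv.subtypeEquiv ((Equiv.refl (Fin p)).arrowCongr (f n)) ?_)
      intro v
      rw [hΦ (A n) (cA n) (fun x y => Iff.rfl) (fun x => by simp [cA]) v]
      have := rt_iso (cA := cA n) (cB := c n) (f n) (hf n) (fun x => by simp [c]) q p v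
      rw [this]
      rfl
    obtain ⟨ℓ, hℓ⟩ := hconv p φ
    have hl2 := hlim q p Φ
    have hl1 := hℓ.mono_left hU
    simp only [hcard] at hl1 hℓ ⊢
    have := tendsto_nhds_unique hl1 hl2
    rw [← this]
    exact hℓ

end Pool.Agent.W227.FL
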