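import Pool.Agent.W227.FL.Basic
import Mathlib

/-! Part E: preliminaries for the selection of the fillers. -/

set_option autoImplicit false

namespace Pool.Agent.W227.FL

section
variable {S : Type} [LinearOrder S] {c : S → Bool}

/-- pairs of corresponding entries of two sequences -/
def PR {A B : Type} (a : ℕ → A) (b : ℕ → B) (K : ℕ) : Set (A × B) := {p | ∃ i < K, p = (a i, b i)}

theorem PR_mono {A B : Type} {a : ℕ → A} {b : ℕ → B} {K K' : ℕ} (h : K ≤ K') : PR a b K ⊆ PR a b K' := by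
  rintro p ⟨i, hi, rfl⟩
  exact ⟨i, hi.trans_le h, rfl⟩

theorem PR_eq_range {A B : Type} (a : ℕ → A) (b : ℕ → B) (K : ℕ) :
    PR a b K = Set.range (fun i : Fin K => (a i, b i)) := by
  ext p
  constructor
  · rintro ⟨i, hi, rfl⟩
    exact ⟨⟨i, hi⟩, rfl⟩
  · rintro ⟨i, rfl⟩
    exact ⟨i, i.2, rfl⟩

theorem Tp_eq_iff {A B : Type} [LinearOrder A] [LinearOrder B] {cA : A → Bool} {cB : B → Bool}
    {a : ℕ → A} {b : ℕ → B} {K : ℕ} :
    Tp cA a K = Tp cB b K ↔ E cA cB K (PR a b K) := by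
  unfold Tp
  rw [rt_eq_iff, PR_eq_range]

theorem tpx_eq_iff {A B : Type} [LinearOrder A] [LinearOrder B] {cA : A → Bool} {cB : B → Bool}
    {a : ℕ → A} {b : ℕ → B} {x : A} {y : B} {K : ℕ} :
    tpx cA a x K = tpx cB b y K ↔ E cA cB K (insert (x, y) (PR a b K)) := by
  unfold tpx
  rw [rt_snoc_eq_iff, PR_eq_range]

theorem tpx_mono {A B : Type} [LinearOrder A] [LinearOrder B] {cA : A → Bool} {cB : B → Bool}
    {a : ℕ → A} {b : ℕ → B} {x : A} {y : B} {K K' : ℕ} (h : K ≤ K')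
    (ht : tpx cA a x K' = tpx cB b y K') : tpx cA a x K = tpx cB b y K := by
  rw [tpx_eq_iff] at *
  exact (ht.anti h).mono (Set.insert_subset_insert (PR_mono h))

theorem Tp_mono {A B : Type} [LinearOrder A] [LinearOrder B] {cA : A → Bool} {cB : B → Bool}
    {a : ℕ → A} {b : ℕ → B} {K K' : ℕ} (h : K ≤ K')
    (ht : Tp cA a K' = Tp cB b K') : Tp cA a K = Tp cB b K := by
  rw [Tp_eq_iff] at *
  exact (ht.anti h).mono (PR_mono h)

theorem ilv_even {A : Type} (g e : ℕ → A) (i : ℕ) : ilv g e (2 * i) = g i := by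
  unfold ilv
  simp

theorem ilv_odd {A : Type} (g e : ℕ → A) (i : ℕ) : ilv g e (2 * i + 1) = e i := by
  unfold ilv
  have h1 : (2 * i + 1) % 2 = 1 := by omega
  have h2 : (2 * i + 1) / 2 = i := by omega
  simp [h1, h2]

/-- the set of bad cuts is countable -/
theorem bad_countable (c : S → Bool) (g : ℕ → S) : (Bad c g).Countable := by
  have : Bad c g ⊆ ⋃ k : ℕ, ⋃ ρ : RT k (k + 1), ⋃ i : ℕ,
      {κ : ℕ → Bool | Acc c g κ k ρ ∧ κ i = true ∧ ∀ i', κ i' = true → ∀ z, g i < z → z < g i' →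
        tpx c g z k ≠ ρ} := by
    rintro κ ⟨k, ρ, h1, h2⟩
    unfold Rec at h2
    push Not at h2
    obtain ⟨i, hi, h3⟩ := h2
    simp only [Set.mem_iUnion]
    exact ⟨k, ρ, i, h1, hi, h3⟩
  refine Set.Countable.mono this ?_
  refine Set.countable_iUnion fun k => ?_
  refine Set.countable_iUnion fun ρ => ?_
  refine Set.countable_iUnion fun i => ?_
  refine Set.Subsingleton.countable ?_
  rintro κ ⟨h1, h2, h3⟩ κ' ⟨h1', h2', h3'⟩
  funext l
  cases hl : κ l <;> cases hl' : κ' l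
  · rfl
  · exfalso
    obtain ⟨z, hz1, hz2, hz3⟩ := h1 i l h2 hl
    exact h3' l hl' z hz1 hz2 hz3
  · exfalso
    obtain ⟨z, hz1, hz2, hz3⟩ := h1' i l h2' hl'
    exact h3 l hl z hz1 hz2 hz3
  · rfl

/-- saturation for local conditions -/
theorem SatProp.loc (hsat : SatProp c) (h : ℕ → S) (K : ℕ → ℕ) (Q : ℕ → (ℕ → S) → Prop)
    (hloc : ∀ j a a', Tp c (ilv h a) (K j) = Tp c (ilv h a') (K j) → Q j a → Q j a')
    (hfin : ∀ n, ∃ a, ∀ j ≤ n, Q j a) : ∃ a, ∀ j, Q j a := by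
  obtain ⟨a, ha⟩ := hsat h K (fun j => {ρ | ∃ a, Q j a ∧ Tp c (ilv h a) (K j) = ρ}) (by
    intro n
    obtain ⟨a, ha⟩ := hfin n
    exact ⟨a, fun j hj => ⟨a, ha j hj, rfl⟩⟩)
  refine ⟨a, fun j => ?_⟩
  obtain ⟨a', h1, h2⟩ := ha j
  exact hloc j a' a h2 h1

/-- saturation for one element -/
theorem SatProp.one (hsat : SatProp c) (h : ℕ → S) (K : ℕ → ℕ) (Q : ℕ → S → Prop)
    (hloc : ∀ j x x', tpx c h x (K j) = tpx c h x' (K j) → Q j x → Q j x')
    (hfin : ∀ n, ∃ x, ∀ j ≤ n, Q j x) : ∃ x, ∀ j, Q j x := by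
  obtain ⟨a, ha⟩ := hsat.loc h (fun j => 2 * K j + 2) (fun j a => Q j (a 0)) (by
    intro j a a' h1
    refine hloc j _ _ ?_
    rw [tpx_eq_iff]
    rw [Tp_eq_iff] at h1
    refine (h1.anti (by omega)).mono ?_
    rintro p (rfl | ⟨i, hi, rfl⟩)
    · exact ⟨1, by omega, by rw [show (1 : ℕ) = 2 * 0 + 1 from rfl, ilv_odd, ilv_odd]⟩
    · exact ⟨2 * i, by omega, by rw [ilv_even, ilv_even]⟩) (by
    intro n
    obtain ⟨x, hx⟩ := hfin n
    exact ⟨fun _ => x, hx⟩)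
  exact ⟨a 0, ha⟩

variable {g : ℕ → S}

/-- the enumeration of the rationals -/
noncomputable def qv (n : ℕ) : ℚ := (Denumerable.eqv ℚ).symm n

theorem qv_surj (x : ℚ) : ∃ n, qv n = x := ⟨Denumerable.eqv ℚ x, by unfold qv; simp⟩

theorem qv_inj {n k : ℕ} (h : qv n = qv k) : n = k := (Denumerable.eqv ℚ).symm.injective h

/-- the requirements for the fillers, up to level `k` -/
structure RE (c : S → Bool) (g : ℕ → S) (κ : ℕ → Bool) (k : ℕ) (e : ℕ → S) : Prop where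
  r1 : ∀ s < k, ∀ i < k, g i ≠ e s ∧ (g i < e s ↔ κ i = true)
  r2 : ∀ s < k, ∀ s' < k, qv s < qv s' → e s < e s'
  r3 : ∀ s < k, ∀ s' < k, qv s < qv s' → ∀ l < k, ∀ ρ : RT l (l + 1), Acc c g κ l ρ →
    ∃ z, e s < z ∧ z < e s' ∧ tpx c g z l = ρ

theorem RE.mono {κ : ℕ → Bool} {k k' : ℕ} {e : ℕ → S} (h : k ≤ k') (hr : RE c g κ k' e) :
    RE c g κ k e where
  r1 s hs i hi := hr.r1 s (hs.trans_le h) i (hi.trans_le h)
  r2 s hs s' hs' := hr.r2 s (hs.trans_le h) s' (hs'.trans_le h)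
  r3 s hs s' hs' hq l hl := hr.r3 s (hs.trans_le h) s' (hs'.trans_le h) hq l (hl.trans_le h)

/-- `RE` is a local condition on `ilv g e` -/
theorem RE.loc {κ : ℕ → Bool} {k : ℕ} {e e' : ℕ → S}
    (h : Tp c (ilv g e) (2 * k + 2) = Tp c (ilv g e') (2 * k + 2)) (hr : RE c g κ k e) :
    RE c g κ k e' := by
  rw [Tp_eq_iff] at h
  have hg : ∀ i < k, (g i, g i) ∈ PR (ilv g e) (ilv g e') (2 * k + 2) := by
    intro i hi
    exact ⟨2 * i, by omega, by rw [ilv_even, ilv_even]⟩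
  have he : ∀ i < k, (e i, e' i) ∈ PR (ilv g e) (ilv g e') (2 * k + 2) := by
    intro i hi
    exact ⟨2 * i + 1, by omega, by rw [ilv_odd, ilv_odd]⟩
  refine ⟨fun s hs i hi => ⟨?_, ?_⟩, fun s hs s' hs' hq => ?_, fun s hs s' hs' hq l hl ρ hρ => ?_⟩
  · intro h1
    exact (hr.r1 s hs i hi).1 ((h.eq_iff (hg i hi) (he s hs)).2 h1)
  · rw [← (hr.r1 s hs i hi).2]
    exact (h.lt_iff (hg i hi) (he s hs)).symm
  · exact (h.lt_iff (he s hs) (he s' hs')).1 (hr.r2 s hs s' hs' hq)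
  · obtain ⟨z, hz1, hz2, hz3⟩ := hr.r3 s hs s' hs' hq l hl ρ hρ
    obtain ⟨z', hz'⟩ := E.forth (show E c c (2 * k + 1 + 1) _ from h) z
    refine ⟨z', ?_, ?_, ?_⟩
    · exact (hz'.lt_iff (Or.inr (he s hs)) (Or.inl rfl)).1 hz1
    · exact (hz'.lt_iff (Or.inl rfl) (Or.inr (he s' hs'))).1 hz2
    · rw [← hz3, eq_comm, tpx_eq_iff]
      refine (hz'.anti (by omega)).mono ?_
      rintro p (rfl | ⟨i, hi, rfl⟩)
      · exact Or.inl rfl
      · exact Or.inr (hg i (by omega))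

/-- one step to the left of a good cut -/
theorem good_step {κ : ℕ → Bool} (hκ : κ ∈ GoodCut c g) (k i : ℕ) (hi : κ i = true) :
    ∃ i', κ i' = true ∧ g i < g i' ∧ ∀ l < k, ∀ ρ : RT l (l + 1), Acc c g κ l ρ →
      ∃ z, g i < z ∧ z < g i' ∧ tpx c g z l = ρ := by
  classical
  obtain ⟨x0, ⟨hx0, hbad⟩, rfl⟩ := hκ
  have hrec : ∀ (l : ℕ) (ρ : RT l (l + 1)), Acc c g (cut g x0) l ρ → Rec c g (cut g x0) l ρ := by
    intro l ρ h
    by_contra h'
    exact hbad ⟨l, ρ, h, h'⟩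
  have hacc0 : ∀ l, Acc c g (cut g x0) l (tpx c g x0 l) := by
    intro l i j h1 h2
    refine ⟨x0, by simpa [cut] using h1, ?_, rfl⟩
    have : ¬ g j < x0 := by simpa [cut] using h2
    exact lt_of_le_of_ne (not_lt.1 this) (fun h => hx0 ⟨j, h.symm⟩)
  let T := Σ l : Fin (k + 1), RT (l : ℕ) ((l : ℕ) + 1)
  have hT : ∀ t : T, ∃ i', cut g x0 i' = true ∧ (Acc c g (cut g x0) t.1 t.2 →
      ∃ z, g i < z ∧ z < g i' ∧ tpx c g z t.1 = t.2) := by
    intro t
    by_cases h : Acc c g (cut g x0) t.1 t.2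
    · obtain ⟨i', h1, h2⟩ := hrec _ _ h i hi
      exact ⟨i', h1, fun _ => h2⟩
    · exact ⟨i, hi, fun h' => absurd h' h⟩
  choose f hf1 hf2 using hT
  have : Nonempty T := ⟨⟨0, tpx c g x0 0⟩⟩
  obtain ⟨t0, ht0⟩ := Finite.exists_max (fun t : T => g (f t))
  refine ⟨f t0, hf1 t0, ?_, ?_⟩
  · obtain ⟨z, hz1, hz2, _⟩ := hf2 ⟨0, tpx c g x0 0⟩ (hacc0 0)
    exact hz1.trans (hz2.trans_le (ht0 _))
  · intro l hl ρ hρ
    obtain ⟨z, hz1, hz2, hz3⟩ := hf2 ⟨⟨l, by omega⟩, ρ⟩ hρ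
    exact ⟨z, hz1, hz2.trans_le (ht0 _), hz3⟩

/-- the requirements can be satisfied at every level -/
theorem RE_exists (h0 : ∀ x, g 0 ≤ x) {κ : ℕ → Bool} (hκ : κ ∈ GoodCut c g) (k : ℕ) :
    ∃ e, RE c g κ k e := by
  classical
  have hκ' := hκ
  obtain ⟨x0, ⟨hx0, hbad⟩, rfl⟩ := hκ'
  have hlt : ∀ i, cut g x0 i = true → g i < x0 := fun i h => by simpa [cut] using h
  have hgt : ∀ i, cut g x0 i = false → x0 < g i := by
    intro i h
    have : ¬ g i < x0 := by simpa [cut] using h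
    exact lt_of_le_of_ne (not_lt.1 this) (fun h => hx0 ⟨i, h.symm⟩)
  have hc0 : cut g x0 0 = true := by
    simp only [cut, decide_eq_true_eq]
    exact lt_of_le_of_ne (h0 x0) (fun h => hx0 ⟨0, h⟩)
  -- starting index
  obtain ⟨i0, hi0, hi0'⟩ : ∃ i0, cut g x0 i0 = true ∧ ∀ i < k, cut g x0 i = true → g i ≤ g i0 := by
    let F : Finset ℕ := insert 0 ((Finset.range k).filter fun i => cut g x0 i = true)
    obtain ⟨i0, h1, h2⟩ := F.exists_max_image g ⟨0, by simp [F]⟩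
    refine ⟨i0, ?_, fun i hi hi' => h2 i (by simp [F, hi, hi'])⟩
    simp only [F, Finset.mem_insert, Finset.mem_filter, Finset.mem_range] at h1
    rcases h1 with rfl | h1
    · exact hc0
    · exact h1.2
  choose! st hst1 hst2 hst3 using fun i hi => good_step hκ k i hi
  let b : ℕ → ℕ := fun n => st^[n + 1] i0
  have hb0 : ∀ n, cut g x0 (st^[n] i0) = true := by
    intro n
    induction n with
    | zero => exact hi0
    | succ n ih => rw [Function.iterate_succ_apply']; exact hst1 _ ih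
  have hb : ∀ n, cut g x0 (b n) = true := fun n => hb0 _
  have hbs : ∀ n, b (n + 1) = st (b n) := fun n => Function.iterate_succ_apply' _ _ _
  have hmono : StrictMono fun n => g (b n) := by
    refine strictMono_nat_of_lt_succ fun n => ?_
    rw [hbs]
    exact hst2 _ (hb n)
  have hfirst : g i0 < g (b 0) := by
    have : b 0 = st i0 := rfl
    rw [this]; exact hst2 _ hi0
  let rk : ℕ → ℕ := fun s => ((Finset.range k).filter fun s' => qv s' < qv s).card
  have hrk : ∀ s < k, ∀ s' < k, qv s < qv s' → rk s < rk s' := by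
    intro s hs s' hs' h
    apply Finset.card_lt_card
    refine ⟨?_, ?_⟩
    · intro t ht
      simp only [Finset.mem_filter] at ht ⊢
      exact ⟨ht.1, ht.2.trans h⟩
    · intro hsub
      have : s ∈ (Finset.range k).filter fun s' => qv s' < qv s := hsub (by simp [hs, h])
      simp at this
  refine ⟨fun s => g (b (rk s)), ?_, ?_, ?_⟩
  · intro s hs i hi
    cases hi' : cut g x0 i with
    | true =>
      have h1 : g i < g (b (rk s)) := by
        refine ((hi0' i hi hi').trans_lt hfirst).trans_le ?_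
        exact hmono.monotone (Nat.zero_le _)
      exact ⟨h1.ne, by simp [h1]⟩
    | false =>
      have h1 : g (b (rk s)) < g i := (hlt _ (hb _)).trans (hgt i hi')
      exact ⟨h1.ne', by simp [h1.le]⟩
  · intro s hs s' hs' h
    exact hmono (hrk s hs s' hs' h)
  · intro s hs s' hs' h l hl ρ hρ
    obtain ⟨z, hz1, hz2, hz3⟩ := hst3 (b (rk s)) (hb _) l hl ρ hρ
    refine ⟨z, hz1, hz2.trans_le ?_, hz3⟩
    rw [← hbs]
    exact hmono.monotone (hrk s hs s' hs' h)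

end

end Pool.Agent.W227.FL
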