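import Pool.Agent.W227.FL.Defs

set_option autoImplicit false

namespace Pool.Agent.W227.FL

open Filter Topology

section
variable {A B C : Type} [LinearOrder A] [LinearOrder B] [LinearOrder C]
variable {cA : A → Bool} {cB : B → Bool} {cC : C → Bool}

theorem E.zero {q : ℕ} {R : Set (A × B)} (h : E cA cB q R) : E cA cB 0 R := by
  cases q with
  | zero => exact h
  | succ q => exact h.1

theorem E.mono {q : ℕ} {R R' : Set (A × B)} (hs : R ⊆ R') (h : E cA cB q R') : E cA cB q R := by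
  induction q generalizing R R' with
  | zero => exact fun x hx y hy => h x (hs hx) y (hs hy)
  | succ q ih =>
    refine ⟨fun x hx y hy => h.1 x (hs hx) y (hs hy), fun a => ?_, fun b => ?_⟩
    · obtain ⟨b, hb⟩ := h.2.1 a
      exact ⟨b, ih (Set.insert_subset_insert hs) hb⟩
    · obtain ⟨a, ha⟩ := h.2.2 b
      exact ⟨a, ih (Set.insert_subset_insert hs) ha⟩

theorem E.forth {q : ℕ} {R : Set (A × B)} (h : E cA cB (q + 1) R) (a : A) :
    ∃ b, E cA cB q (insert (a, b) R) := h.2.1 a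

theorem E.back {q : ℕ} {R : Set (A × B)} (h : E cA cB (q + 1) R) (b : B) :
    ∃ a, E cA cB q (insert (a, b) R) := h.2.2 b

theorem E.pred {q : ℕ} {R : Set (A × B)} (h : E cA cB (q + 1) R) : E cA cB q R := by
  induction q generalizing R with
  | zero => exact h.1
  | succ q ih =>
    refine ⟨h.1, fun a => ?_, fun b => ?_⟩
    · obtain ⟨b, hb⟩ := h.2.1 a
      exact ⟨b, ih hb⟩
    · obtain ⟨a, ha⟩ := h.2.2 b
      exact ⟨a, ih ha⟩

theorem E.anti {q q' : ℕ} {R : Set (A × B)} (hq : q ≤ q') (h : E cA cB q' R) :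
    E cA cB q R := by
  induction hq with
  | refl => exact h
  | step _ ih => exact ih h.pred

theorem E.symm {q : ℕ} {R : Set (A × B)} (h : E cA cB q R) :
    E cB cA q {p | (p.2, p.1) ∈ R} := by
  induction q generalizing R with
  | zero =>
    intro x hx y hy
    exact ⟨(h _ hx _ hy).1.symm, (h _ hx _ hy).2.symm⟩
  | succ q ih =>
    refine ⟨fun x hx y hy => ⟨(h.1 _ hx _ hy).1.symm, (h.1 _ hx _ hy).2.symm⟩, fun b => ?_,
      fun a => ?_⟩
    · obtain ⟨a, ha⟩ := h.2.2 b
      refine ⟨a, E.mono ?_ (ih ha)⟩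
      rintro ⟨x, y⟩ (hxy | hxy)
      · left; simp only [Prod.mk.injEq] at hxy ⊢; exact ⟨hxy.2, hxy.1⟩
      · right; exact hxy
    · obtain ⟨b, hb⟩ := h.2.1 a
      refine ⟨b, E.mono ?_ (ih hb)⟩
      rintro ⟨x, y⟩ (hxy | hxy)
      · left; simp only [Prod.mk.injEq] at hxy ⊢; exact ⟨hxy.2, hxy.1⟩
      · right; exact hxy

theorem E.trans {q : ℕ} {R : Set (A × B)} {R' : Set (B × C)} {R'' : Set (A × C)}
    (h : E cA cB q R) (h' : E cB cC q R')
    (hR : ∀ p ∈ R'', ∃ b, (p.1, b) ∈ R ∧ (b, p.2) ∈ R') : E cA cC q R'' := by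
  induction q generalizing R R' R'' with
  | zero =>
    intro x hx y hy
    obtain ⟨b, hb1, hb2⟩ := hR x hx
    obtain ⟨b', hb1', hb2'⟩ := hR y hy
    exact ⟨(h _ hb1 _ hb1').1.trans (h' _ hb2 _ hb2').1,
      (h _ hb1 _ hb1').2.trans (h' _ hb2 _ hb2').2⟩
  | succ q ih =>
    refine ⟨?_, fun a => ?_, fun d => ?_⟩
    · intro x hx y hy
      obtain ⟨b, hb1, hb2⟩ := hR x hx
      obtain ⟨b', hb1', hb2'⟩ := hR y hy
      exact ⟨(h.1 _ hb1 _ hb1').1.trans (h'.1 _ hb2 _ hb2').1,
        (h.1 _ hb1 _ hb1').2.trans (h'.1 _ hb2 _ hb2').2⟩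
    · obtain ⟨b, hb⟩ := h.2.1 a
      obtain ⟨d, hd⟩ := h'.2.1 b
      refine ⟨d, ih hb hd ?_⟩
      rintro p (rfl | hp)
      · exact ⟨b, Or.inl rfl, Or.inl rfl⟩
      · obtain ⟨b', h1, h2⟩ := hR p hp
        exact ⟨b', Or.inr h1, Or.inr h2⟩
    · obtain ⟨b, hb⟩ := h'.2.2 d
      obtain ⟨a, ha⟩ := h.2.2 b
      refine ⟨a, ih ha hb ?_⟩
      rintro p (rfl | hp)
      · exact ⟨b, Or.inl rfl, Or.inl rfl⟩
      · obtain ⟨b', h1, h2⟩ := hR p hp
        exact ⟨b', Or.inr h1, Or.inr h2⟩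

/-- identity relations are back-and-forth of every rank -/
theorem E_of_diag (q : ℕ) (R : Set (A × A)) (hR : ∀ p ∈ R, p.1 = p.2) : E cA cA q R := by
  induction q generalizing R with
  | zero =>
    intro x hx y hy
    rw [hR x hx, hR y hy]; exact ⟨Iff.rfl, rfl⟩
  | succ q ih =>
    refine ⟨?_, fun a => ⟨a, ih _ ?_⟩, fun a => ⟨a, ih _ ?_⟩⟩
    · intro x hx y hy
      rw [hR x hx, hR y hy]; exact ⟨Iff.rfl, rfl⟩
    · rintro p (rfl | hp)
      · rfl
      · exact hR p hp
    · rintro p (rfl | hp)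
      · rfl
      · exact hR p hp

theorem E.lt_iff {q : ℕ} {R : Set (A × B)} (h : E cA cB q R) {x y : A × B} (hx : x ∈ R)
    (hy : y ∈ R) : x.1 < y.1 ↔ x.2 < y.2 := (h.zero x hx y hy).1

theorem E.le_iff {q : ℕ} {R : Set (A × B)} (h : E cA cB q R) {x y : A × B} (hx : x ∈ R)
    (hy : y ∈ R) : x.1 ≤ y.1 ↔ x.2 ≤ y.2 := by
  rw [← not_lt, ← not_lt, h.lt_iff hy hx]

theorem E.eq_iff {q : ℕ} {R : Set (A × B)} (h : E cA cB q R) {x y : A × B} (hx : x ∈ R)
    (hy : y ∈ R) : x.1 = y.1 ↔ x.2 = y.2 := by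
  rw [le_antisymm_iff, le_antisymm_iff, h.le_iff hx hy, h.le_iff hy hx]

theorem E.col {q : ℕ} {R : Set (A × B)} (h : E cA cB q R) {x : A × B} (hx : x ∈ R) :
    cA x.1 = cB x.2 := (h.zero x hx x hx).2

/-- the composition lemma (Feferman-Vaught for ordered sums): glue two back-and-forth relations
at a common point -/
theorem E.glue {q : ℕ} {R1 R2 : Set (A × B)} {g : A × B} (hg1 : g ∈ R1) (hg2 : g ∈ R2)
    (hl : ∀ x ∈ R1, x.1 ≤ g.1) (hr : ∀ x ∈ R2, g.1 ≤ x.1)
    (h1 : E cA cB q R1) (h2 : E cA cB q R2) : E cA cB q (R1 ∪ R2) := by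
  induction q generalizing R1 R2 with
  | zero =>
    have key : ∀ x ∈ R1, ∀ y ∈ R2, (x.1 < y.1 ↔ x.2 < y.2) ∧ (y.1 < x.1 ↔ y.2 < x.2) := by
      intro x hx y hy
      have a1 := hl x hx
      have a2 := hr y hy
      have b1 := (h1.le_iff hx hg1).1 a1
      have b2 := (h2.le_iff hg2 hy).1 a2
      have e1 := h1.lt_iff hx hg1
      have e2 := h2.lt_iff hg2 hy
      constructor
      · constructor
        · intro h
          rcases lt_or_eq_of_le a1 with h' | h'
          · exact lt_of_lt_of_le (e1.1 h') b2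
          · rw [h'] at h
            exact lt_of_le_of_lt b1 (e2.1 h)
        · intro h
          rcases lt_or_eq_of_le b1 with h' | h'
          · exact lt_of_lt_of_le (e1.2 h') a2
          · rw [h'] at h
            exact lt_of_le_of_lt a1 (e2.2 h)
      · constructor
        · intro h
          exact absurd (a1.trans a2) (not_le.2 h)
        · intro h
          exact absurd (b1.trans b2) (not_le.2 h)
    rintro x (hx | hx) y (hy | hy)
    · exact h1 x hx y hy
    · exact ⟨(key x hx y hy).1, h1.col hx⟩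
    · exact ⟨(key y hy x hx).2, h2.col hx⟩
    · exact h2 x hx y hy
  | succ q ih =>
    have hz : E cA cB 0 (R1 ∪ R2) := by
      have := ih hg1 hg2 hl hr h1.pred h2.pred
      exact this.zero
    have hle1 : ∀ a ≤ g.1, ∀ b, E cA cB q (insert (a, b) R1) → E cA cB q (insert (a, b) (R1 ∪ R2)) := by
      intro a ha b hb
      rw [← Set.insert_union]
      refine ih (Set.mem_insert_of_mem _ hg1) hg2 ?_ hr hb h2.pred
      rintro x (rfl | hx)
      · exact ha
      · exact hl x hx
    have hle2 : ∀ a, g.1 ≤ a → ∀ b, E cA cB q (insert (a, b) R2) → E cA cB q (insert (a, b) (R1 ∪ R2)) := by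
      intro a ha b hb
      rw [← Set.union_insert]
      refine ih hg1 (Set.mem_insert_of_mem _ hg2) hl ?_ h1.pred hb
      rintro x (rfl | hx)
      · exact ha
      · exact hr x hx
    refine ⟨hz, fun a => ?_, fun b => ?_⟩
    · rcases le_total a g.1 with ha | ha
      · obtain ⟨b, hb⟩ := h1.2.1 a
        exact ⟨b, hle1 a ha b hb⟩
      · obtain ⟨b, hb⟩ := h2.2.1 a
        exact ⟨b, hle2 a ha b hb⟩
    · rcases le_total b g.2 with hb | hb
      · obtain ⟨a, ha⟩ := h1.2.2 b
        refine ⟨a, hle1 a ?_ b ha⟩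
        exact (ha.le_iff (Set.mem_insert _ _) (Set.mem_insert_of_mem _ hg1)).2 hb
      · obtain ⟨a, ha⟩ := h2.2.2 b
        refine ⟨a, hle2 a ?_ b ha⟩
        exact (ha.le_iff (Set.mem_insert_of_mem _ hg2) (Set.mem_insert _ _)).2 hb

/-- in a coloured linear order the back-and-forth relation of a finite set of pairs is determined
by its two-element subsets -/
theorem E.pairs {q : ℕ} {R : Set (A × B)} (hf : R.Finite)
    (h : ∀ x ∈ R, ∀ y ∈ R, E cA cB q {x, y}) (hne : R.Nonempty) : E cA cB q R := by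
  obtain ⟨n, hn⟩ : ∃ n, R.ncard = n := ⟨_, rfl⟩
  induction n using Nat.strong_induction_on generalizing R with
  | _ n ih =>
    obtain ⟨x, hx, hmax⟩ := Set.exists_max_image R (fun p => p.1) hf hne
    by_cases hne' : (R \ {x}).Nonempty
    · have hf' : (R \ {x}).Finite := hf.subset Set.diff_subset
      have hcard : (R \ {x}).ncard < n := by
        rw [← hn]; exact Set.ncard_diff_singleton_lt_of_mem hx hf
      have hE := ih _ hcard hf' (fun y hy z hz => h y hy.1 z hz.1) hne' rfl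
      obtain ⟨y, hy, hymax⟩ := Set.exists_max_image _ (fun p : A × B => p.1) hf' hne'
      have hR : R = (R \ {x}) ∪ {y, x} := by
        ext z
        constructor
        · intro hz
          by_cases hzx : z = x
          · right; right; exact hzx
          · left; exact ⟨hz, hzx⟩
        · rintro (hz | hz | hz)
          · exact hz.1
          · rw [hz]; exact hy.1
          · rw [hz]; exact hx
      rw [hR]
      refine E.glue (g := y) hy (by simp) hymax ?_ hE (h y hy.1 x hx)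
      rintro z (rfl | hz)
      · exact le_rfl
      · rw [hz]; exact hmax y hy.1
    · have hR : R = {x, x} := by
        ext z
        simp only [Set.mem_insert_iff, Set.mem_singleton_iff, or_self]
        constructor
        · intro hz
          by_contra hzx
          exact hne' ⟨z, hz, hzx⟩
        · rintro rfl; exact hx
      rw [hR]; exact h x hx x hx

theorem range_snoc {k : ℕ} (a : Fin k → A) (b : Fin k → B) (x : A) (y : B) :
    (Set.range fun i : Fin (k + 1) => ((Fin.snoc a x : Fin (k + 1) → A) i,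
      (Fin.snoc b y : Fin (k + 1) → B) i)) = insert (x, y) (Set.range fun i => (a i, b i)) := by
  ext p
  constructor
  · rintro ⟨i, rfl⟩
    refine Fin.lastCases ?_ (fun j => ?_) i
    · left; simp
    · right; exact ⟨j, by simp⟩
  · rintro (rfl | ⟨j, rfl⟩)
    · exact ⟨Fin.last k, by simp⟩
    · exact ⟨j.castSucc, by simp⟩

theorem rt_zero_eq_iff {k : ℕ} {a : Fin k → A} {b : Fin k → B} :
    ((fun i j => decide (a i < a j), fun i => cA (a i)) :
      (Fin k → Fin k → Bool) × (Fin k → Bool)) =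
      (fun i j => decide (b i < b j), fun i => cB (b i)) ↔
    E cA cB 0 (Set.range fun i => (a i, b i)) := by
  rw [Prod.mk.injEq]
  constructor
  · rintro ⟨h1, h2⟩ _ ⟨i, rfl⟩ _ ⟨j, rfl⟩
    exact ⟨by simpa using congrFun (congrFun h1 i) j, congrFun h2 i⟩
  · intro h
    refine ⟨?_, ?_⟩
    · funext i j
      have := (h _ ⟨i, rfl⟩ _ ⟨j, rfl⟩).1
      simpa using this
    · funext i
      exact (h _ ⟨i, rfl⟩ _ ⟨i, rfl⟩).2

theorem rt_eq_iff {q k : ℕ} {a : Fin k → A} {b : Fin k → B} :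
    rt cA q a = rt cB q b ↔ E cA cB q (Set.range fun i => (a i, b i)) := by
  induction q generalizing k with
  | zero => exact rt_zero_eq_iff
  | succ q ih =>
    constructor
    · intro h
      have h1 := congrArg Prod.fst h
      have h2 : {ρ | ∃ x : A, rt cA q (Fin.snoc a x : Fin (k + 1) → A) = ρ} =
        {ρ | ∃ y : B, rt cB q (Fin.snoc b y : Fin (k + 1) → B) = ρ} := congrArg Prod.snd h
      refine ⟨rt_zero_eq_iff.1 h1, fun x => ?_, fun y => ?_⟩
      · have : rt cA q (Fin.snoc a x : Fin (k + 1) → A) ∈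
            {ρ | ∃ x : A, rt cA q (Fin.snoc a x : Fin (k + 1) → A) = ρ} := ⟨x, rfl⟩
        rw [h2] at this
        obtain ⟨y, hy⟩ := this
        refine ⟨y, ?_⟩
        rw [← range_snoc]
        exact ih.1 hy.symm
      · have : rt cB q (Fin.snoc b y : Fin (k + 1) → B) ∈
            {ρ | ∃ y : B, rt cB q (Fin.snoc b y : Fin (k + 1) → B) = ρ} := ⟨y, rfl⟩
        rw [← h2] at this
        obtain ⟨x, hx⟩ := this
        refine ⟨x, ?_⟩
        rw [← range_snoc]
        exact ih.1 hx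
    · intro h
      refine Prod.ext (rt_zero_eq_iff.2 h.1) ?_
      show {ρ | ∃ x : A, rt cA q (Fin.snoc a x : Fin (k + 1) → A) = ρ} =
        {ρ | ∃ y : B, rt cB q (Fin.snoc b y : Fin (k + 1) → B) = ρ}
      ext ρ
      constructor
      · rintro ⟨x, rfl⟩
        obtain ⟨y, hy⟩ := h.forth x
        rw [← range_snoc] at hy
        exact ⟨y, (ih.2 hy).symm⟩
      · rintro ⟨y, rfl⟩
        obtain ⟨x, hx⟩ := h.back y
        rw [← range_snoc] at hx
        exact ⟨x, ih.2 hx⟩

theorem rt_snoc_eq_iff {q k : ℕ} {a : Fin k → A} {b : Fin k → B} {x : A} {y : B} :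
    rt cA q (Fin.snoc a x : Fin (k + 1) → A) = rt cB q (Fin.snoc b y : Fin (k + 1) → B) ↔
      E cA cB q (insert (x, y) (Set.range fun i => (a i, b i))) := by
  rw [rt_eq_iff, range_snoc]

/-- the type of a tuple determines the types of all tuples drawn from it, of lower rank -/
theorem rt_comp {q q' k k' : ℕ} {a : Fin k → A} {b : Fin k → B} (h : rt cA q a = rt cB q b)
    (hq : q' ≤ q) (f : Fin k' → Fin k) : rt cA q' (a ∘ f) = rt cB q' (b ∘ f) := by
  rw [rt_eq_iff] at h ⊢
  refine E.mono ?_ (h.anti hq)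
  rintro _ ⟨i, rfl⟩
  exact ⟨f i, rfl⟩

/-- the pairwise types determine the type of a tuple -/
theorem rt_eq_of_pairs {q k : ℕ} {a : Fin k → A} {b : Fin k → B}
    (h : ∀ i j, E cA cB q {(a i, b i), (a j, b j)}) (hk : 0 < k) : rt cA q a = rt cB q b := by
  rw [rt_eq_iff]
  refine E.pairs (Set.finite_range _) ?_ ⟨_, ⟨⟨0, hk⟩, rfl⟩⟩
  rintro _ ⟨i, rfl⟩ _ ⟨j, rfl⟩
  exact h i j

end

end Pool.Agent.W227.FL
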