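import Pool.Agent.W227.FL.Names

/-! Part F2: the blocks of the model and their separation. -/

set_option autoImplicit false

namespace Pool.Agent.W227.FL

open MeasureTheory

/-- all data for the construction of the model -/
structure FD (S : Type) [LinearOrder S] (c : S → Bool) (g : ℕ → S) where
  hmin : MinProp c
  hsat : SatProp c
  h0 : ∀ x, g 0 ≤ x
  h1 : ∀ x, x ≤ g 1
  e : (ℕ → Bool) → ℕ → S
  he : ∀ κ ∈ GoodCut c g, ∀ k, RE c g κ k (e κ)
  hem : ∀ k, Measurable fun κ : GoodCut c g => Tp c (ilv g (e κ)) k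
  r : (∀ k, RT k (k + 1)) → ℝ
  hr : Measurable r
  hri : Function.Injective r
  x : (∀ k, RT k (k + 1)) → S
  hx : ∀ p ∈ GoodTp c g, ∀ k, RX c g (r p) (e (cutOf p)) p k (x p)
  hxm : ∀ k, Measurable fun p : GoodTp c g => Tp c (scons (x p.1) (ilv g (e (cutOf p.1)))) k

namespace FD

variable {S : Type} [LinearOrder S] {c : S → Bool} {g : ℕ → S} (D : FD S c g)

/-- the sequence at a cut -/
def A1 (κ : ℕ → Bool) : ℕ → S := ilv g (D.e κ)

/-- the sequence at a type -/
def A2 (p : ∀ k, RT k (k + 1)) : ℕ → S := scons (D.x p) (D.A1 (cutOf p))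

theorem A1_even (κ : ℕ → Bool) (i : ℕ) : D.A1 κ (2 * i) = g i := ilv_even _ _ _
theorem A1_odd (κ : ℕ → Bool) (i : ℕ) : D.A1 κ (2 * i + 1) = D.e κ i := ilv_odd _ _ _
theorem A2_zero (p : ∀ k, RT k (k + 1)) : D.A2 p 0 = D.x p := rfl
theorem A2_succ (p : ∀ k, RT k (k + 1)) (i : ℕ) : D.A2 p (i + 1) = D.A1 (cutOf p) i := rfl

theorem range_g_sub (κ : ℕ → Bool) : Set.range g ⊆ Set.range (D.A1 κ) := by
  rintro _ ⟨i, rfl⟩
  exact ⟨2 * i, D.A1_even κ i⟩

theorem range_A1_sub (p : ∀ k, RT k (k + 1)) : Set.range (D.A1 (cutOf p)) ⊆ Set.range (D.A2 p) := by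
  rintro _ ⟨i, rfl⟩
  exact ⟨i + 1, rfl⟩

/-- the element of index `i` of a sequence lies in the block of `κ` unless it is in the range of `g` -/
def InB (g : ℕ → S) (κ : ℕ → Bool) (z : S) : Prop := ∀ i, g i ≠ z ∧ (g i < z ↔ κ i = true)

theorem e_inB {κ : ℕ → Bool} (hκ : κ ∈ GoodCut c g) (s : ℕ) : InB g κ (D.e κ s) := by
  intro i
  exact (D.he κ hκ (max s i + 1)).r1 s (by omega) i (by omega)

theorem e_lt {κ : ℕ → Bool} (hκ : κ ∈ GoodCut c g) {s s' : ℕ} (h : qv s < qv s') :
    D.e κ s < D.e κ s' :=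
  (D.he κ hκ (max s s' + 1)).r2 s (by omega) s' (by omega) h

theorem x_tpx {p : ∀ k, RT k (k + 1)} (hp : p ∈ GoodTp c g) :
    (fun k => tpx c g (D.x p) k) = p := by
  funext k
  exact (D.hx p hp (k + 1)).r1 k (by omega)

theorem x_cut {p : ∀ k, RT k (k + 1)} (hp : p ∈ GoodTp c g) : cut g (D.x p) = cutOf p := by
  rw [← cutOf_tpx (c := c), D.x_tpx hp]

theorem x_inB {p : ∀ k, RT k (k + 1)} (hp : p ∈ GoodTp c g) : InB g (cutOf p) (D.x p) := by
  have h1 := D.x_cut hp
  intro i
  refine ⟨?_, ?_⟩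
  · obtain ⟨y, ⟨hy, _⟩, rfl⟩ := id hp
    have h2 : tpx c g (D.x (fun k => tpx c g y k)) (i + 1) = tpx c g y (i + 1) :=
      congrFun (D.x_tpx hp) (i + 1)
    rw [tpx_eq_iff] at h2
    intro h3
    have := (h2.eq_iff (x := (g i, g i)) (Or.inr ⟨i, by omega, rfl⟩) (Or.inl rfl)).1 h3
    exact hy ⟨i, this⟩
  · rw [← h1]; simp [cut]

/-- elements definable over `g` and elements of the block of `κ` are definable over `g` or in the
block -/
theorem inB_of_dcl {κ : ℕ → Bool} {X : Set S} (hX : ∀ y ∈ X, y ∈ Set.range g ∨ InB g κ y)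
    (hgX : Set.range g ⊆ X)
    {z : S} (hz : z ∈ dcl c X) (hz' : z ∉ dcl c (Set.range g)) : InB g κ z := by
  by_contra hcon
  unfold InB at hcon
  push Not at hcon
  obtain ⟨i, hi⟩ := hcon
  have hne : g i ≠ z := fun h => hz' (h ▸ subset_dcl _ ⟨i, rfl⟩)
  have hi := hi hne
  rcases hi with ⟨h1, h2⟩ | ⟨h1, h2⟩
  · -- `g i < z`, `κ i = false`
    apply hz'
    refine dcl_mono ?_ (dcl_gt (hgX ⟨i, rfl⟩) hz h1.le)
    rintro y ⟨hy, hy'⟩
    rcases hX y hy with h | h
    · exact h
    · exfalso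
      have hlt : g i < y := lt_of_le_of_ne hy' (h i).1
      exact h2 ((h i).2.1 hlt)
  · apply hz'
    refine dcl_mono ?_ (dcl_lt (hgX ⟨i, rfl⟩) hz h1)
    rintro y ⟨hy, hy'⟩
    rcases hX y hy with h | h
    · exact h
    · exfalso
      exact absurd ((h i).2.2 h2) (not_lt.2 hy')

theorem A1_mem {κ : ℕ → Bool} (hκ : κ ∈ GoodCut c g) :
    ∀ y ∈ Set.range (D.A1 κ), y ∈ Set.range g ∨ InB g κ y := by
  rintro _ ⟨i, rfl⟩
  rcases Nat.even_or_odd' i with ⟨j, rfl | rfl⟩
  · left; rw [A1_even]; exact ⟨j, rfl⟩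
  · right; rw [A1_odd]; exact D.e_inB hκ j

theorem A2_mem {p : ∀ k, RT k (k + 1)} (hp : p ∈ GoodTp c g) :
    ∀ y ∈ Set.range (D.A2 p), y ∈ Set.range g ∨ InB g (cutOf p) y := by
  rintro _ ⟨i, rfl⟩
  cases i with
  | zero => right; exact D.x_inB hp
  | succ i => exact D.A1_mem (cutOf_good hp) _ ⟨i, rfl⟩

theorem inB1 {κ : ℕ → Bool} (hκ : κ ∈ GoodCut c g) {z : S} (hz : z ∈ dcl c (Set.range (D.A1 κ)))
    (hz' : z ∉ dcl c (Set.range g)) : InB g κ z :=
  inB_of_dcl (D.A1_mem hκ) (D.range_g_sub κ) hz hz'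

theorem inB2 {p : ∀ k, RT k (k + 1)} (hp : p ∈ GoodTp c g) {z : S}
    (hz : z ∈ dcl c (Set.range (D.A2 p)))
    (hz' : z ∉ dcl c (Set.range g)) : InB g (cutOf p) z :=
  inB_of_dcl (D.A2_mem hp) ((D.range_g_sub _).trans (D.range_A1_sub p)) hz hz'

/-- new elements of the block of a type are between the fillers on the two sides of `r p` -/
theorem lt_of_new {p : ∀ k, RT k (k + 1)} (hp : p ∈ GoodTp c g) {z : S}
    (hz : z ∈ dcl c (Set.range (D.A2 p)))
    (hz' : z ∉ dcl c (Set.range (D.A1 (cutOf p)))) (s : ℕ) (hs : (qv s : ℝ) < D.r p) :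
    D.e (cutOf p) s < z := by
  by_contra h
  have h := not_lt.1 h
  have hes : D.e (cutOf p) s ∈ Set.range (D.A1 (cutOf p)) := ⟨2 * s + 1, D.A1_odd _ _⟩
  apply hz'
  refine dcl_mono ?_ (dcl_lt (D.range_A1_sub p hes) hz h)
  rintro _ ⟨⟨i, rfl⟩, hy⟩
  cases i with
  | zero =>
    exfalso
    exact absurd ((D.hx p hp (s + 1)).r2 s (by omega) hs) (not_lt.2 hy)
  | succ i => exact ⟨i, rfl⟩

theorem gt_of_new {p : ∀ k, RT k (k + 1)} (hp : p ∈ GoodTp c g) {z : S}
    (hz : z ∈ dcl c (Set.range (D.A2 p)))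
    (hz' : z ∉ dcl c (Set.range (D.A1 (cutOf p)))) (s : ℕ) (hs : D.r p < (qv s : ℝ)) :
    z < D.e (cutOf p) s := by
  by_contra h
  have h := not_lt.1 h
  have hes : D.e (cutOf p) s ∈ Set.range (D.A1 (cutOf p)) := ⟨2 * s + 1, D.A1_odd _ _⟩
  apply hz'
  refine dcl_mono ?_ (dcl_gt (D.range_A1_sub p hes) hz h)
  rintro _ ⟨⟨i, rfl⟩, hy⟩
  cases i with
  | zero =>
    exfalso
    exact absurd ((D.hx p hp (s + 1)).r3 s (by omega) hs) (not_lt.2 hy)
  | succ i => exact ⟨i, rfl⟩

/-- the index type -/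
abbrev Ix (c : S → Bool) (g : ℕ → S) : Type := Unit ⊕ (GoodCut c g ⊕ GoodTp c g)

/-- the sequence of an index -/
def seq : Ix c g → ℕ → S
  | Sum.inl _ => g
  | Sum.inr (Sum.inl κ) => D.A1 κ
  | Sum.inr (Sum.inr p) => D.A2 p

/-- the level of an index -/
def lev : Ix c g → ℕ
  | Sum.inl _ => 0
  | Sum.inr (Sum.inl _) => 1
  | Sum.inr (Sum.inr _) => 2

/-- the cut of an index -/
def kap : Ix c g → ℕ → Bool
  | Sum.inl _ => fun _ => false
  | Sum.inr (Sum.inl κ) => κ
  | Sum.inr (Sum.inr p) => cutOf p.1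

/-- the real number of an index -/
def ri : Ix c g → ℝ
  | Sum.inl _ => 0
  | Sum.inr (Sum.inl _) => 0
  | Sum.inr (Sum.inr p) => D.r p

/-- the sequence of the parent (level 1 and 2) -/
def pseq : Ix c g → ℕ → S
  | Sum.inl _ => g
  | Sum.inr (Sum.inl _) => g
  | Sum.inr (Sum.inr p) => D.A1 (cutOf p.1)

theorem measurable_lev : Measurable (lev (c := c) (g := g)) := by
  refine measurable_fun_sum measurable_const (measurable_fun_sum measurable_const measurable_const)

theorem measurable_kap : Measurable (kap (c := c) (g := g)) := by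
  refine measurable_fun_sum measurable_const (measurable_fun_sum measurable_subtype_coe ?_)
  exact measurable_cutOf.comp measurable_subtype_coe

theorem measurable_ri : Measurable D.ri := by
  refine measurable_fun_sum measurable_const (measurable_fun_sum measurable_const ?_)
  exact D.hr.comp measurable_subtype_coe

theorem measurable_Tp_seq (k : ℕ) : Measurable fun i => Tp c (D.seq i) k := by
  refine measurable_fun_sum (show Measurable (fun _ : Unit => Tp c g k) from measurable_const)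
    (measurable_fun_sum ?_ ?_)
  · exact D.hem k
  · exact D.hxm k

/-- elements of the model: definable over one of the sequences -/
def MS : Set S := {z | ∃ i, z ∈ dcl c (Set.range (D.seq i))}

/-- the condition for a code -/
def Valid (i : Ix c g) (n : ℕ) : Prop :=
  ∃ z, IsVal c (D.seq i) n z ∧ (∀ n' < n, ¬ IsVal c (D.seq i) n' z) ∧
    (lev i ≠ 0 → z ∉ dcl c (Set.range (D.pseq i)))

/-- codes -/
def Md : Type := {u : Ix c g × ℕ // D.Valid u.1 u.2}

instance : MeasurableSpace D.Md := inferInstanceAs (MeasurableSpace {u : Ix c g × ℕ // D.Valid u.1 u.2})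

/-- the value of a code -/
noncomputable def val (u : D.Md) : S := u.2.choose

theorem val_isVal (u : D.Md) : IsVal c (D.seq u.1.1) u.1.2 (D.val u) := u.2.choose_spec.1
theorem val_least (u : D.Md) : ∀ n' < u.1.2, ¬ IsVal c (D.seq u.1.1) n' (D.val u) :=
  u.2.choose_spec.2.1
theorem val_new (u : D.Md) : lev u.1.1 ≠ 0 → D.val u ∉ dcl c (Set.range (D.pseq u.1.1)) :=
  u.2.choose_spec.2.2

theorem val_dcl (u : D.Md) : D.val u ∈ dcl c (Set.range (D.seq u.1.1)) :=
  mem_dcl_range.2 ⟨_, D.val_isVal u⟩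

theorem range_g_pseq (i : Ix c g) : Set.range g ⊆ Set.range (D.pseq i) := by
  rcases i with _ | _ | p
  · exact subset_rfl
  · exact subset_rfl
  · exact D.range_g_sub _

theorem range_pseq_seq (i : Ix c g) : Set.range (D.pseq i) ⊆ Set.range (D.seq i) := by
  rcases i with _ | κ | p
  · exact subset_rfl
  · exact D.range_g_sub _
  · exact D.range_A1_sub _

theorem val_inB (u : D.Md) (h : lev u.1.1 ≠ 0) : InB g (kap u.1.1) (D.val u) := by
  have h1 := D.val_dcl u
  have h2 := D.val_new u h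
  have h3 : D.val u ∉ dcl c (Set.range g) := fun h' => h2 (dcl_mono (D.range_g_pseq _) h')
  obtain ⟨⟨i, n⟩, hu⟩ := u
  rcases i with _ | κ | p
  · exact absurd rfl h
  · exact D.inB1 κ.2 h1 h3
  · exact D.inB2 p.2 h1 h3

/-- home lemma: every element of the model has a code -/
theorem exists_code {i : Ix c g} {z : S} (hz : z ∈ dcl c (Set.range (D.seq i))) :
    ∃ u : D.Md, D.val u = z := by
  classical
  have key : ∀ i : Ix c g, z ∈ dcl c (Set.range (D.seq i)) →
      (lev i ≠ 0 → z ∉ dcl c (Set.range (D.pseq i))) → ∃ u : D.Md, D.val u = z := by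
    intro i hz hn
    have hex := mem_dcl_range.1 hz
    have hv : D.Valid i (Nat.find hex) :=
      ⟨z, Nat.find_spec hex, fun n' hn' => Nat.find_min hex hn', hn⟩
    refine ⟨⟨(i, Nat.find hex), hv⟩, ?_⟩
    exact (D.val_isVal ⟨(i, Nat.find hex), hv⟩).unique (Nat.find_spec hex)
  by_cases h0 : z ∈ dcl c (Set.range g)
  · exact key (Sum.inl ()) h0 (fun h => absurd rfl h)
  have key1 : ∀ κ : GoodCut c g, z ∈ dcl c (Set.range (D.A1 κ)) → ∃ u : D.Md, D.val u = z :=
    fun κ h => key (Sum.inr (Sum.inl κ)) h (fun _ => h0)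
  rcases i with _ | κ | p
  · exact absurd hz h0
  · exact key1 κ hz
  · by_cases h1 : z ∈ dcl c (Set.range (D.A1 (cutOf p.1)))
    · exact key1 ⟨cutOf p.1, cutOf_good p.2⟩ h1
    · exact key (Sum.inr (Sum.inr p)) hz (fun _ => h1)

/-- separation by an element of `g` -/
theorem sep_g {u u' : D.Md} (h : lev u.1.1 ≠ 0) (h' : lev u'.1.1 ≠ 0) {j : ℕ}
    (hj : kap u.1.1 j = false) (hj' : kap u'.1.1 j = true) : D.val u < g j ∧ g j < D.val u' := by
  have h1 := D.val_inB u h j
  have h2 := D.val_inB u' h' j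
  constructor
  · have : ¬ g j < D.val u := by rw [h1.2, hj]; simp
    exact lt_of_le_of_ne (not_lt.1 this) (Ne.symm h1.1)
  · exact h2.2.2 hj'

/-- separation by a filler -/
theorem sep_e {u u' : D.Md} (h : lev u.1.1 = 2) (h' : lev u'.1.1 = 2)
    (hk : kap u.1.1 = kap u'.1.1) {s : ℕ} (hs : D.ri u.1.1 < (qv s : ℝ))
    (hs' : (qv s : ℝ) < D.ri u'.1.1) :
    D.val u < D.e (kap u.1.1) s ∧ D.e (kap u.1.1) s < D.val u' := by
  have h1 := D.val_dcl u
  have h2 := D.val_new u (by omega)
  have h3 := D.val_dcl u'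
  have h4 := D.val_new u' (by omega)
  constructor
  · obtain ⟨⟨i, n⟩, hu⟩ := u
    rcases i with _ | κ | p
    · exact absurd h (by simp [lev])
    · exact absurd h (by simp [lev])
    · exact D.gt_of_new p.2 h1 h2 s hs
  · rw [hk]
    obtain ⟨⟨i, n⟩, hu⟩ := u'
    rcases i with _ | κ | p
    · exact absurd h' (by simp [lev])
    · exact absurd h' (by simp [lev])
    · exact D.lt_of_new p.2 h3 h4 s hs'

theorem eq_of_kap {i i' : Ix c g} (h : lev i = 1) (h' : lev i' = 1) (hk : kap i = kap i') :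
    i = i' := by
  rcases i with _ | κ | p
  · exact absurd h (by simp [lev])
  · rcases i' with _ | κ' | p'
    · exact absurd h' (by simp [lev])
    · congr 2; exact Subtype.ext hk
    · exact absurd h' (by simp [lev])
  · exact absurd h (by simp [lev])

theorem eq_of_ri {i i' : Ix c g} (h : lev i = 2) (h' : lev i' = 2) (hk : D.ri i = D.ri i') :
    i = i' := by
  rcases i with _ | κ | p
  · exact absurd h (by simp [lev])
  · exact absurd h (by simp [lev])
  · rcases i' with _ | κ' | p'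
    · exact absurd h' (by simp [lev])
    · exact absurd h' (by simp [lev])
    · congr 2; exact Subtype.ext (D.hri hk)

theorem val_injective : Function.Injective D.val := by
  have key : ∀ u u' : D.Md, D.val u = D.val u' → lev u.1.1 ≤ lev u'.1.1 → u.1.1 = u'.1.1 := by
    intro u u' h hl
    have hlev : ∀ i : Ix c g, lev i = 0 ∨ lev i = 1 ∨ lev i = 2 := by
      rintro (_ | _ | _) <;> simp [lev]
    by_cases h0' : lev u'.1.1 = 0
    · have h0 : lev u.1.1 = 0 := by omega
      generalize u.1.1 = i at h0 ⊢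
      generalize u'.1.1 = i' at h0' ⊢
      rcases i with _ | _ | _ <;> rcases i' with _ | _ | _ <;> simp [lev] at h0 h0' ⊢
    by_cases h0 : lev u.1.1 = 0
    · exfalso
      refine D.val_new u' h0' ?_
      rw [← h]
      have h1 := D.val_dcl u
      refine dcl_mono (D.range_g_pseq _) ?_
      generalize u.1.1 = i at h0 h1
      rcases i with _ | _ | _
      · exact h1
      · simp [lev] at h0
      · simp [lev] at h0
    -- same cut
    have hk : kap u.1.1 = kap u'.1.1 := by
      funext j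
      have h1 := (D.val_inB u h0 j).2
      have h2 := (D.val_inB u' h0' j).2
      rw [h] at h1
      have := h1.symm.trans h2
      cases hh : kap u.1.1 j <;> cases hh' : kap u'.1.1 j <;> simp_all
    rcases hlev u'.1.1 with h' | h' | h'
    · omega
    · exact eq_of_kap (by omega) h' hk
    · by_cases h2 : lev u.1.1 = 2
      · by_contra hne
        have hne' : D.ri u.1.1 ≠ D.ri u'.1.1 := fun h3 => hne (D.eq_of_ri h2 h' h3)
        rcases lt_or_gt_of_ne hne' with h3 | h3
        · obtain ⟨q, hq1, hq2⟩ := exists_rat_btwn h3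
          obtain ⟨s, rfl⟩ := qv_surj q
          obtain ⟨h4, h5⟩ := D.sep_e h2 h' hk hq1 hq2
          exact absurd (h ▸ h4) (not_lt.2 h5.le)
        · obtain ⟨q, hq1, hq2⟩ := exists_rat_btwn h3
          obtain ⟨s, rfl⟩ := qv_surj q
          obtain ⟨h4, h5⟩ := D.sep_e h' h2 hk.symm hq1 hq2
          exact absurd (h ▸ h4) (not_lt.2 h5.le)
      · exfalso
        have h1 : lev u.1.1 = 1 := by have := hlev u.1.1; omega
        refine D.val_new u' h0' ?_
        rw [← h]
        have h3 := D.val_dcl u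
        generalize u.1.1 = i at h1 h3 hk
        generalize u'.1.1 = i' at h' hk ⊢
        rcases i with _ | κ | _
        · simp [lev] at h1
        · rcases i' with _ | _ | p'
          · simp [lev] at h'
          · simp [lev] at h'
          · have : (κ : ℕ → Bool) = cutOf p'.1 := hk
            show D.val u ∈ dcl c (Set.range (D.A1 (cutOf p'.1)))
            rw [← this]
            exact h3
        · simp [lev] at h1
  intro u u' h
  have hi : u.1.1 = u'.1.1 := by
    rcases le_total (lev u.1.1) (lev u'.1.1) with hl | hl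
    · exact key u u' h hl
    · exact (key u' u h.symm hl).symm
  have hn : u.1.2 = u'.1.2 := by
    by_contra hne
    rcases lt_or_gt_of_ne hne with h' | h'
    · refine D.val_least u' _ h' ?_
      rw [← h, ← hi]; exact D.val_isVal u
    · refine D.val_least u _ h' ?_
      rw [h, hi]; exact D.val_isVal u'
  exact Subtype.ext (Prod.ext hi hn)

end FD

end Pool.Agent.W227.FL
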