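import Pool.Agent.W227.FL.Model

/-! Part F4: measurability in the model. -/

set_option autoImplicit false

namespace Pool.Agent.W227.FL

open MeasureTheory

namespace FD

variable {S : Type} [LinearOrder S] {c : S → Bool} {g : ℕ → S} (D : FD S c g)

theorem PRg_sub {i i1 : Ix c g} (h : lev i = lev i1) (k : ℕ) :
    PR g g k ⊆ PR (D.seq i) (D.seq i1) (2 * k + 2) := by
  rintro _ ⟨j, hj, rfl⟩
  rcases i with _ | κ | p <;> rcases i1 with _ | κ1 | p1 <;> simp [lev] at h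
  · exact ⟨j, by omega, rfl⟩
  · exact ⟨2 * j, by omega, by
      show (g j, g j) = (D.A1 κ (2 * j), D.A1 κ1 (2 * j))
      rw [A1_even, A1_even]⟩
  · exact ⟨2 * j + 1, by omega, by
      show (g j, g j) = (D.A1 (cutOf p.1) (2 * j), D.A1 (cutOf p1.1) (2 * j))
      rw [A1_even, A1_even]⟩

theorem PRa_sub {i i1 : Ix c g} (h : lev i = lev i1) (h0 : lev i ≠ 0) (k : ℕ) :
    PR (D.A1 (kap i)) (D.A1 (kap i1)) k ⊆ PR (D.seq i) (D.seq i1) (2 * k + 2) := by
  rintro _ ⟨j, hj, rfl⟩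
  rcases i with _ | κ | p <;> rcases i1 with _ | κ1 | p1 <;> simp [lev] at h h0
  · exact ⟨j, by omega, rfl⟩
  · exact ⟨j + 1, by omega, rfl⟩

theorem PRp_sub {i i1 : Ix c g} (h : lev i = lev i1) (k : ℕ) :
    PR (D.pseq i) (D.pseq i1) k ⊆ PR (D.seq i) (D.seq i1) (2 * k + 2) := by
  rintro _ ⟨j, hj, rfl⟩
  rcases i with _ | κ | p <;> rcases i1 with _ | κ1 | p1 <;> simp [lev] at h
  · exact ⟨j, by omega, rfl⟩
  · exact ⟨2 * j, by omega, by
      show (g j, g j) = (D.A1 κ (2 * j), D.A1 κ1 (2 * j))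
      rw [A1_even, A1_even]⟩
  · exact ⟨j + 1, by omega, rfl⟩

/-- the set of codes is measurable -/
theorem measurableSet_valid : MeasurableSet {u : Ix c g × ℕ | D.Valid u.1 u.2} := by
  have hset : {u : Ix c g × ℕ | D.Valid u.1 u.2} = ⋃ n : ℕ,
      ((fun u : Ix c g × ℕ => u.1) ⁻¹' {i | D.Valid i n}) ∩ ((fun u : Ix c g × ℕ => u.2) ⁻¹' {n}) := by
    ext ⟨i, n⟩
    simp
  rw [hset]
  refine MeasurableSet.iUnion fun n => (measurable_fst ?_).inter
    (measurable_snd (measurableSet_singleton n))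
  have h1 : ∀ n', MeasurableSet {i : Ix c g | Same c (D.seq i) n (D.seq i) n'} := by
    intro n'
    let K := (dec n).1 + (dec n').1 + 2
    refine measurableSet_of_factors (f := fun i : Ix c g => (lev i, Tp c (D.seq i) K))
      (measurable_lev.prodMk (D.measurable_Tp_seq K)) _ ?_
    intro i i1 h hs
    have h2 := congrArg Prod.snd h
    simp only [Tp_eq_iff] at h2
    exact hs.transfer (q := (dec n).1 + (dec n').1) h2 (PR_mono (by omega)) (PR_mono (by omega))
      (by omega) (by omega)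
  have h2 : ∀ n', MeasurableSet {i : Ix c g | Same c (D.seq i) n (D.pseq i) n'} := by
    intro n'
    let K := (dec n).1 + 2 * (dec n').1 + 2
    refine measurableSet_of_factors (f := fun i : Ix c g => (lev i, Tp c (D.seq i) K))
      (measurable_lev.prodMk (D.measurable_Tp_seq K)) _ ?_
    intro i i1 h hs
    have h2 := congrArg Prod.snd h
    have h3 := congrArg Prod.fst h
    simp only [Tp_eq_iff] at h2
    exact hs.transfer (q := (dec n).1 + 2 * (dec n').1) h2 (PR_mono (by omega))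
      ((D.PRp_sub h3 _).trans (PR_mono (by omega)))
      (by omega) (by omega)
  have hV : {i : Ix c g | D.Valid i n} = {i | Same c (D.seq i) n (D.seq i) n} ∩
      (⋂ n' : ℕ, {i | n' < n → ¬ Same c (D.seq i) n (D.seq i) n'}) ∩
      ({i | lev i = 0} ∪ ⋂ n' : ℕ, {i | Same c (D.seq i) n (D.pseq i) n'}ᶜ) := by
    ext i
    simp only [Set.mem_inter_iff, Set.mem_iInter, Set.mem_union, Set.mem_compl_iff]
    constructor
    · rintro ⟨z, hz1, hz2, hz3⟩
      refine ⟨⟨⟨z, hz1, hz1⟩, ?_⟩, ?_⟩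
      · rintro n' hn' ⟨z', h1, h2⟩
        have := h1.unique hz1
        rw [this] at h2
        exact hz2 n' hn' h2
      · by_cases h0 : lev i = 0
        · exact Or.inl h0
        · right
          rintro n' ⟨z', h1, h2⟩
          have := h1.unique hz1
          rw [this] at h2
          exact hz3 h0 (mem_dcl_range.2 ⟨n', h2⟩)
    · rintro ⟨⟨⟨z, hz1, _⟩, hz2⟩, hz3⟩
      refine ⟨z, hz1, fun n' hn' h => hz2 n' hn' ⟨z, hz1, h⟩, fun h0 h => ?_⟩
      obtain ⟨n', hn'⟩ := mem_dcl_range.1 h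
      rcases hz3 with h3 | h3
      · exact h0 h3
      · exact h3 n' ⟨z, hz1, hn'⟩
  rw [hV]
  refine ((h1 n).inter (MeasurableSet.iInter fun n' => ?_)).inter
    ((measurable_lev (measurableSet_singleton 0)).union (MeasurableSet.iInter fun n' => (h2 n').compl))
  by_cases hn : n' < n
  · simp only [hn, true_imp_iff]
    exact (h1 n').compl
  · simp only [hn, false_imp_iff]
    exact MeasurableSet.univ

/-- the index and the name of a code are measurable -/
theorem measurable_ix : Measurable fun u : D.Md => u.1.1 := measurable_fst.comp measurable_subtype_coe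
theorem measurable_nm : Measurable fun u : D.Md => u.1.2 := measurable_snd.comp measurable_subtype_coe

/-- comparable case -/
theorem cmp_case {i i1 i' i1' : Ix c g} {n n' : ℕ} {z z1 z' z1' : S} {q K : ℕ}
    (hz : IsVal c (D.seq i) n z) (hz1 : IsVal c (D.seq i1) n z1)
    (hz' : IsVal c (D.seq i') n' z') (hz1' : IsVal c (D.seq i1') n' z1')
    (hK : q + 2 * (dec n).1 + 2 * (dec n').1 + 5 ≤ K)
    (hsub : PR (D.seq i) (D.seq i1) (dec n).1 ⊆ PR (D.seq i') (D.seq i1') (2 * (dec n).1 + 2))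
    (hT : Tp c (D.seq i') K = Tp c (D.seq i1') K) : E c c q {(z, z1), (z', z1')} := by
  rw [Tp_eq_iff] at hT
  have h1 : E c c (q + (dec n).1 + (dec n').1 + 1 + 2) (PR (D.seq i') (D.seq i1') K) :=
    hT.anti (by omega)
  have h2 := h1.add (n := n) (hsub.trans (PR_mono (by omega))) (by omega) hz hz1
  have h3 : E c c (q + (dec n).1 + (dec n').1 + 2)
      (insert (z, z1) (PR (D.seq i') (D.seq i1') K)) := h2.anti (by omega)
  have h4 := h3.add (n := n') ((PR_mono (by omega)).trans (Set.subset_insert _ _)) (by omega) hz' hz1'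
  refine (h4.anti (by omega)).mono ?_
  rintro p (rfl | hp)
  · exact Or.inr (Or.inl rfl)
  · exact Or.inl hp

/-- one side of the separated case -/
theorem sep_case {i i1 : Ix c g} {n : ℕ} {z z1 w w1 : S} {q K L : ℕ}
    (hz : IsVal c (D.seq i) n z) (hz1 : IsVal c (D.seq i1) n z1)
    (hK : q + 2 * (dec n).1 + L + 5 ≤ K)
    (hw : (w, w1) ∈ PR (D.seq i) (D.seq i1) L)
    (hT : Tp c (D.seq i) K = Tp c (D.seq i1) K) : E c c q {(z, z1), (w, w1)} := by
  rw [Tp_eq_iff] at hT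
  have h1 : E c c (q + (dec n).1 + 2) (PR (D.seq i) (D.seq i1) K) := hT.anti (by omega)
  have h2 := h1.add (n := n) (PR_mono (by omega)) (by omega) hz hz1
  refine (h2.anti (by omega)).mono ?_
  rintro p (rfl | hp)
  · exact Or.inl rfl
  · right
    rw [hp]
    exact PR_mono (by omega) hw

theorem glue_sep {q : ℕ} {z z1 z' z1' w w1 : S} (h1 : z < w) (h2 : w < z')
    (hE : E c c q {(z, z1), (w, w1)}) (hE' : E c c q {(z', z1'), (w, w1)}) :
    E c c q {(z, z1), (z', z1')} := by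
  refine (E.glue (g := (w, w1)) (by simp) (by simp) ?_ ?_ hE hE').mono ?_
  · rintro p (rfl | hp)
    · exact h1.le
    · rw [hp]
  · rintro p (rfl | hp)
    · exact h2.le
    · rw [hp]
  · rintro p (rfl | hp)
    · exact Or.inl (Or.inl rfl)
    · exact Or.inr (Or.inl hp)

/-- the pieces of the square of the model -/
def W (a j : ℕ) : Set (D.Md × D.Md) :=
  {w | match a with
    | 0 => lev w.1.1.1 = 0
    | 1 => lev w.2.1.1 = 0
    | 2 => lev w.1.1.1 = 1 ∧ lev w.2.1.1 ≠ 0 ∧ kap w.1.1.1 = kap w.2.1.1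
    | 3 => lev w.2.1.1 = 1 ∧ lev w.1.1.1 ≠ 0 ∧ kap w.1.1.1 = kap w.2.1.1
    | 4 => lev w.1.1.1 = 2 ∧ lev w.2.1.1 = 2 ∧ D.ri w.1.1.1 = D.ri w.2.1.1
    | 5 => (lev w.1.1.1 ≠ 0 ∧ lev w.2.1.1 ≠ 0) ∧ kap w.1.1.1 j = false ∧ kap w.2.1.1 j = true
    | 6 => (lev w.1.1.1 ≠ 0 ∧ lev w.2.1.1 ≠ 0) ∧ kap w.1.1.1 j = true ∧ kap w.2.1.1 j = false
    | 7 => (lev w.1.1.1 = 2 ∧ lev w.2.1.1 = 2 ∧ kap w.1.1.1 = kap w.2.1.1) ∧
        D.ri w.1.1.1 < (qv j : ℝ) ∧ (qv j : ℝ) < D.ri w.2.1.1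
    | _ => (lev w.1.1.1 = 2 ∧ lev w.2.1.1 = 2 ∧ kap w.1.1.1 = kap w.2.1.1) ∧
        D.ri w.2.1.1 < (qv j : ℝ) ∧ (qv j : ℝ) < D.ri w.1.1.1}

theorem lev_cases (i : Ix c g) : lev i = 0 ∨ lev i = 1 ∨ lev i = 2 := by
  rcases i with _ | _ | _ <;> simp [lev]

theorem W_cover (w : D.Md × D.Md) : ∃ a j, w ∈ D.W a j := by
  by_cases h0 : lev w.1.1.1 = 0
  · exact ⟨0, 0, h0⟩
  by_cases h0' : lev w.2.1.1 = 0
  · exact ⟨1, 0, h0'⟩
  by_cases hk : kap w.1.1.1 = kap w.2.1.1
  · by_cases h1 : lev w.1.1.1 = 1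
    · exact ⟨2, 0, h1, h0', hk⟩
    by_cases h1' : lev w.2.1.1 = 1
    · exact ⟨3, 0, h1', h0, hk⟩
    have h2 : lev w.1.1.1 = 2 := by rcases lev_cases w.1.1.1 with h | h | h <;> simp_all
    have h2' : lev w.2.1.1 = 2 := by rcases lev_cases w.2.1.1 with h | h | h <;> simp_all
    rcases lt_trichotomy (D.ri w.1.1.1) (D.ri w.2.1.1) with h3 | h3 | h3
    · obtain ⟨q, hq1, hq2⟩ := exists_rat_btwn h3
      obtain ⟨s, rfl⟩ := qv_surj q
      exact ⟨7, s, ⟨h2, h2', hk⟩, hq1, hq2⟩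
    · exact ⟨4, 0, h2, h2', h3⟩
    · obtain ⟨q, hq1, hq2⟩ := exists_rat_btwn h3
      obtain ⟨s, rfl⟩ := qv_surj q
      exact ⟨8, s, ⟨h2, h2', hk⟩, hq1, hq2⟩
  · obtain ⟨j, hj⟩ : ∃ j, kap w.1.1.1 j ≠ kap w.2.1.1 j := by
      by_contra hcon
      push Not at hcon
      exact hk (funext hcon)
    cases hh : kap w.1.1.1 j with
    | false =>
      have hh' : kap w.2.1.1 j = true := by
        cases h5 : kap w.2.1.1 j with
        | false => exact absurd (hh.trans h5.symm) hj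
        | true => rfl
      exact ⟨5, j, ⟨h0, h0'⟩, hh, hh'⟩
    | true =>
      have hh' : kap w.2.1.1 j = false := by
        cases h5 : kap w.2.1.1 j with
        | true => exact absurd (hh.trans h5.symm) hj
        | false => rfl
      exact ⟨6, j, ⟨h0, h0'⟩, hh, hh'⟩

theorem measurableSet_W (a j : ℕ) : MeasurableSet (D.W a j) := by
  have m1 : Measurable fun w : D.Md × D.Md => lev w.1.1.1 :=
    measurable_lev.comp (D.measurable_ix.comp measurable_fst)
  have m2 : Measurable fun w : D.Md × D.Md => lev w.2.1.1 :=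
    measurable_lev.comp (D.measurable_ix.comp measurable_snd)
  have k1 : Measurable fun w : D.Md × D.Md => kap w.1.1.1 :=
    measurable_kap.comp (D.measurable_ix.comp measurable_fst)
  have k2 : Measurable fun w : D.Md × D.Md => kap w.2.1.1 :=
    measurable_kap.comp (D.measurable_ix.comp measurable_snd)
  have r1 : Measurable fun w : D.Md × D.Md => D.ri w.1.1.1 :=
    D.measurable_ri.comp (D.measurable_ix.comp measurable_fst)
  have r2 : Measurable fun w : D.Md × D.Md => D.ri w.2.1.1 :=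
    D.measurable_ri.comp (D.measurable_ix.comp measurable_snd)
  have l1 : ∀ t, MeasurableSet {w : D.Md × D.Md | lev w.1.1.1 = t} := fun t =>
    m1 (measurableSet_singleton t)
  have l2 : ∀ t, MeasurableSet {w : D.Md × D.Md | lev w.2.1.1 = t} := fun t =>
    m2 (measurableSet_singleton t)
  have kk : MeasurableSet {w : D.Md × D.Md | kap w.1.1.1 = kap w.2.1.1} := measurableSet_eq_fun k1 k2
  have kj1 : ∀ t, MeasurableSet {w : D.Md × D.Md | kap w.1.1.1 j = t} := fun t =>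
    ((measurable_pi_apply j).comp k1) (measurableSet_singleton t)
  have kj2 : ∀ t, MeasurableSet {w : D.Md × D.Md | kap w.2.1.1 j = t} := fun t =>
    ((measurable_pi_apply j).comp k2) (measurableSet_singleton t)
  unfold W
  rcases a with _ | _ | _ | _ | _ | _ | _ | _ | a
  · exact l1 0
  · exact l2 0
  · exact (l1 1).inter ((l2 0).compl.inter kk)
  · exact (l2 1).inter ((l1 0).compl.inter kk)
  · exact (l1 2).inter ((l2 2).inter (measurableSet_eq_fun r1 r2))
  · exact ((l1 0).compl.inter (l2 0).compl).inter ((kj1 false).inter (kj2 true))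
  · exact ((l1 0).compl.inter (l2 0).compl).inter ((kj1 true).inter (kj2 false))
  · exact ((l1 2).inter ((l2 2).inter kk)).inter
      ((measurableSet_lt r1 measurable_const).inter (measurableSet_lt measurable_const r2))
  · exact ((l1 2).inter ((l2 2).inter kk)).inter
      ((measurableSet_lt r2 measurable_const).inter (measurableSet_lt measurable_const r1))

theorem pair_swap {q : ℕ} {z z1 z' z1' : S} (h : E c c q {(z, z1), (z', z1')}) :
    E c c q {(z', z1'), (z, z1)} := by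
  rw [Set.pair_comm]; exact h

/-- on each piece, the type of a pair is determined by finite data -/
theorem W_local {a j q n n' K : ℕ} (hK : q + 2 * (dec n).1 + 2 * (dec n').1 + 4 * j + 20 ≤ K)
    {w v : D.Md × D.Md} (hw : w ∈ D.W a j) (hv : v ∈ D.W a j)
    (hn : w.1.1.2 = n) (hn' : w.2.1.2 = n') (hm : v.1.1.2 = n) (hm' : v.2.1.2 = n')
    (hl : lev w.1.1.1 = lev v.1.1.1) (hl' : lev w.2.1.1 = lev v.2.1.1)
    (hT : Tp c (D.seq w.1.1.1) K = Tp c (D.seq v.1.1.1) K)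
    (hT' : Tp c (D.seq w.2.1.1) K = Tp c (D.seq v.2.1.1) K) :
    E c c q {(D.val w.1, D.val v.1), (D.val w.2, D.val v.2)} := by
  have v1 : IsVal c (D.seq w.1.1.1) n (D.val w.1) := hn ▸ D.val_isVal w.1
  have v2 : IsVal c (D.seq w.2.1.1) n' (D.val w.2) := hn' ▸ D.val_isVal w.2
  have v3 : IsVal c (D.seq v.1.1.1) n (D.val v.1) := hm ▸ D.val_isVal v.1
  have v4 : IsVal c (D.seq v.2.1.1) n' (D.val v.2) := hm' ▸ D.val_isVal v.2
  have seq0 : ∀ i : Ix c g, lev i = 0 → D.seq i = g := by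
    rintro (_ | _ | _) h
    · rfl
    · simp [lev] at h
    · simp [lev] at h
  have seq1 : ∀ i : Ix c g, lev i = 1 → D.seq i = D.A1 (kap i) := by
    rintro (_ | _ | _) h
    · simp [lev] at h
    · rfl
    · simp [lev] at h
  rcases a with _ | _ | _ | _ | _ | _ | _ | _ | a
  · -- first of level 0
    have h0 : lev w.1.1.1 = 0 := hw
    refine D.cmp_case v1 v3 v2 v4 (by omega) ?_ hT'
    rw [seq0 _ h0, seq0 _ (hl ▸ h0)]
    exact D.PRg_sub hl' _
  · have h0 : lev w.2.1.1 = 0 := hw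
    refine pair_swap (D.cmp_case v2 v4 v1 v3 (by omega) ?_ hT)
    rw [seq0 _ h0, seq0 _ (hl' ▸ h0)]
    exact D.PRg_sub hl _
  · obtain ⟨h1, h2, h3⟩ := hw
    obtain ⟨h1', h2', h3'⟩ := hv
    refine D.cmp_case v1 v3 v2 v4 (by omega) ?_ hT'
    rw [seq1 _ h1, seq1 _ h1', h3, h3']
    exact D.PRa_sub hl' h2 _
  · obtain ⟨h1, h2, h3⟩ := hw
    obtain ⟨h1', h2', h3'⟩ := hv
    refine pair_swap (D.cmp_case v2 v4 v1 v3 (by omega) ?_ hT)
    rw [seq1 _ h1, seq1 _ h1', ← h3, ← h3']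
    exact D.PRa_sub hl h2 _
  · obtain ⟨h1, h2, h3⟩ := hw
    obtain ⟨h1', h2', h3'⟩ := hv
    have e1 := D.eq_of_ri h1 h2 h3
    have e2 := D.eq_of_ri h1' h2' h3'
    refine D.cmp_case v1 v3 v2 v4 (by omega) ?_ hT'
    rw [e1, e2]
    exact PR_mono (by omega)
  · obtain ⟨⟨h1, h2⟩, h3, h4⟩ := hw
    obtain ⟨s1, s2⟩ := D.sep_g h1 h2 h3 h4
    have hg : (g j, g j) ∈ PR g g (j + 1) := ⟨j, by omega, rfl⟩
    exact glue_sep s1 s2
      (D.sep_case (L := 2 * (j + 1) + 2) v1 v3 (by omega) (D.PRg_sub hl _ hg) hT)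
      (D.sep_case (L := 2 * (j + 1) + 2) v2 v4 (by omega) (D.PRg_sub hl' _ hg) hT')
  · obtain ⟨⟨h1, h2⟩, h3, h4⟩ := hw
    obtain ⟨s1, s2⟩ := D.sep_g h2 h1 h4 h3
    have hg : (g j, g j) ∈ PR g g (j + 1) := ⟨j, by omega, rfl⟩
    exact pair_swap (glue_sep s1 s2
      (D.sep_case (L := 2 * (j + 1) + 2) v2 v4 (by omega) (D.PRg_sub hl' _ hg) hT')
      (D.sep_case (L := 2 * (j + 1) + 2) v1 v3 (by omega) (D.PRg_sub hl _ hg) hT))
  · obtain ⟨⟨h1, h2, h3⟩, h4, h5⟩ := hw
    obtain ⟨⟨h1', h2', h3'⟩, _, _⟩ := hv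
    obtain ⟨s1, s2⟩ := D.sep_e h1 h2 h3 h4 h5
    have he : ∀ κ κ1, (D.e κ j, D.e κ1 j) ∈ PR (D.A1 κ) (D.A1 κ1) (2 * j + 2) := fun κ κ1 =>
      ⟨2 * j + 1, by omega, by rw [A1_odd, A1_odd]⟩
    refine glue_sep (w := D.e (kap w.1.1.1) j) (w1 := D.e (kap v.1.1.1) j) s1 s2
      (D.sep_case (L := 2 * (2 * j + 2) + 2) v1 v3 (by omega) (D.PRa_sub hl (by omega) _ (he _ _)) hT)
      (D.sep_case (L := 2 * (2 * j + 2) + 2) v2 v4 (by omega) ?_ hT')
    rw [h3, h3']
    exact D.PRa_sub hl' (by omega) _ (he _ _)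
  · obtain ⟨⟨h1, h2, h3⟩, h4, h5⟩ := hw
    obtain ⟨⟨h1', h2', h3'⟩, _, _⟩ := hv
    obtain ⟨s1, s2⟩ := D.sep_e h2 h1 h3.symm h4 h5
    have he : ∀ κ κ1, (D.e κ j, D.e κ1 j) ∈ PR (D.A1 κ) (D.A1 κ1) (2 * j + 2) := fun κ κ1 =>
      ⟨2 * j + 1, by omega, by rw [A1_odd, A1_odd]⟩
    refine pair_swap (glue_sep (w := D.e (kap w.2.1.1) j) (w1 := D.e (kap v.2.1.1) j) s1 s2
      (D.sep_case (L := 2 * (2 * j + 2) + 2) v2 v4 (by omega) (D.PRa_sub hl' (by omega) _ (he _ _)) hT')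
      (D.sep_case (L := 2 * (2 * j + 2) + 2) v1 v3 (by omega) ?_ hT))
    rw [← h3, ← h3']
    exact D.PRa_sub hl (by omega) _ (he _ _)

/-- the type of a pair is measurable -/
theorem measurable_pair (q : ℕ) :
    Measurable fun w : D.Md × D.Md => rt c q (![D.val w.1, D.val w.2] : Fin 2 → S) := by
  classical
  refine measurable_to_countable' fun ρ => ?_
  have hset : (fun w : D.Md × D.Md => rt c q (![D.val w.1, D.val w.2] : Fin 2 → S)) ⁻¹' {ρ} =
      ⋃ a : ℕ, ⋃ j : ℕ, ⋃ n : ℕ, ⋃ n' : ℕ, {w | w ∈ D.W a j ∧ w.1.1.2 = n ∧ w.2.1.2 = n' ∧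
        rt c q (![D.val w.1, D.val w.2] : Fin 2 → S) = ρ} := by
    ext w
    simp only [Set.mem_preimage, Set.mem_singleton_iff, Set.mem_iUnion]
    constructor
    · intro h
      obtain ⟨a, j, hw⟩ := D.W_cover w
      exact ⟨a, j, _, _, hw, rfl, rfl, h⟩
    · rintro ⟨a, j, n, n', _, _, _, h⟩
      exact h
  rw [hset]
  refine MeasurableSet.iUnion fun a => MeasurableSet.iUnion fun j => MeasurableSet.iUnion fun n =>
    MeasurableSet.iUnion fun n' => ?_
  let K := q + 2 * (dec n).1 + 2 * (dec n').1 + 4 * j + 20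
  have m1 : Measurable fun w : D.Md × D.Md => w.1.1.1 := D.measurable_ix.comp measurable_fst
  have m2 : Measurable fun w : D.Md × D.Md => w.2.1.1 := D.measurable_ix.comp measurable_snd
  have n1 : Measurable fun w : D.Md × D.Md => w.1.1.2 := D.measurable_nm.comp measurable_fst
  have n2 : Measurable fun w : D.Md × D.Md => w.2.1.2 := D.measurable_nm.comp measurable_snd
  have hW : Measurable fun w : D.Md × D.Md => decide (w ∈ D.W a j) := by
    refine measurable_to_bool ?_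
    have : (fun w : D.Md × D.Md => decide (w ∈ D.W a j)) ⁻¹' {true} = D.W a j := by
      ext w; simp
    rw [this]; exact D.measurableSet_W a j
  refine measurableSet_of_factors (f := fun w : D.Md × D.Md =>
    ((decide (w ∈ D.W a j), (w.1.1.2, w.2.1.2)), ((lev w.1.1.1, lev w.2.1.1),
      (Tp c (D.seq w.1.1.1) K, Tp c (D.seq w.2.1.1) K))))
    ((hW.prodMk (n1.prodMk n2)).prodMk (((measurable_lev.comp m1).prodMk (measurable_lev.comp m2)).prodMk
      (((D.measurable_Tp_seq K).comp m1).prodMk ((D.measurable_Tp_seq K).comp m2)))) _ ?_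
  rintro w v h ⟨h1, h2, h3, h4⟩
  simp only [Prod.mk.injEq, decide_eq_decide] at h
  obtain ⟨⟨e1, e2, e3⟩, ⟨e4, e5⟩, e6, e7⟩ := h
  refine ⟨e1.1 h1, e2 ▸ h2, e3 ▸ h3, ?_⟩
  rw [← h4, eq_comm, rt_eq_iff]
  have := D.W_local (a := a) (j := j) (q := q) (n := n) (n' := n') (K := K) le_rfl h1 (e1.1 h1) h2 h3
    (e2 ▸ h2) (e3 ▸ h3) e4 e5 e6 e7
  refine this.mono ?_
  rintro _ ⟨i, rfl⟩
  fin_cases i
  · exact Or.inl rfl
  · exact Or.inr rfl

/-- the type of a tuple is measurable -/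
theorem measurable_tuple (q k : ℕ) (ρ : RT q k) :
    MeasurableSet {v : Fin k → D.Md | rt c q (D.val ∘ v) = ρ} := by
  have hm : Measurable fun (v : Fin k → D.Md) (i j : Fin k) =>
      rt c q (![D.val (v i), D.val (v j)] : Fin 2 → S) := by
    refine measurable_pi_lambda _ fun i => measurable_pi_lambda _ fun j => ?_
    have h2 : Measurable fun v : Fin k → D.Md => (v i, v j) :=
      (measurable_pi_apply i).prodMk (measurable_pi_apply j)
    exact (D.measurable_pair q).comp h2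
  refine measurableSet_of_factors hm _ ?_
  intro v v' h hv
  rcases Nat.eq_zero_or_pos k with rfl | hk
  · rw [show v' = v from Subsingleton.elim _ _]; exact hv
  · rw [← hv, eq_comm]
    refine rt_eq_of_pairs (fun i j => ?_) hk
    have this : rt c q (![D.val (v i), D.val (v j)] : Fin 2 → S) =
        rt c q (![D.val (v' i), D.val (v' j)] : Fin 2 → S) := congrFun (congrFun h i) j
    rw [rt_eq_iff] at this
    refine this.mono ?_
    rintro p (rfl | hp)
    · exact ⟨0, rfl⟩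
    · exact ⟨1, hp.symm⟩

end FD

end Pool.Agent.W227.FL
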