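import Pool.Agent.W12.FLBranch

/-! Part D: measurable choice of infinite branches (proved by helper12). -/

set_option autoImplicit false

namespace Pool.Agent.W227.FL

/-- Measurable choice of a point in a decreasing intersection of nonempty sets depending on
finitely many coordinates, in a product of finite sets. -/
theorem exists_measurable_branch {Z : Type} [MeasurableSpace Z] (T : ℕ → Type)
    [∀ k, Finite (T k)] [∀ k, MeasurableSpace (T k)] [∀ k, DiscreteMeasurableSpace (T k)]
    (P : ℕ → Z → (∀ k, T k) → Prop)
    (hloc : ∀ k z ω ω', (∀ j < k, ω j = ω' j) → P k z ω → P k z ω')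
    (hmono : ∀ k z ω, P (k + 1) z ω → P k z ω)
    (hmeas : ∀ k ω, MeasurableSet {z | P k z ω})
    (hne : ∀ k z, ∃ ω, P k z ω) :
    ∃ b : Z → ∀ k, T k, (∀ k, Measurable fun z => b z k) ∧ ∀ z k, P k z (b z) :=
  Pool.Agent.W12.FLBranch.exists_measurable_branch T P hloc hmono hmeas hne

end Pool.Agent.W227.FL
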