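import Pool.Agent.W227.FL.Basic

/-! Part C: definable closure: Tarski-Vaught property and separation. -/

set_option autoImplicit false

namespace Pool.Agent.W227.FL

section
variable {S : Type} [LinearOrder S] {c : S → Bool}

theorem diag_mono {F G : Set S} (h : F ⊆ G) : diag F ⊆ diag G := fun _ hp => ⟨h hp.1, hp.2⟩

theorem mem_diag {F : Set S} {x : S} (hx : x ∈ F) : (x, x) ∈ diag F := ⟨hx, rfl⟩

theorem diag_range {k : ℕ} (a : Fin k → S) : (Set.range fun i => (a i, a i)) = diag (Set.range a) := by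
  ext ⟨x, y⟩
  constructor
  · rintro ⟨i, hi⟩
    simp only [Prod.mk.injEq] at hi
    exact ⟨⟨i, hi.1⟩, by rw [← hi.1, ← hi.2]⟩
  · rintro ⟨⟨i, hi⟩, h⟩
    exact ⟨i, by simp only [Prod.mk.injEq]; simp only at hi h; exact ⟨hi, by rw [hi, h]⟩⟩

theorem diag_insert (F : Set S) (x : S) : insert (x, x) (diag F) = diag (insert x F) := by
  ext ⟨y, z⟩
  constructor
  · rintro (h | h)
    · simp only [Prod.mk.injEq] at h
      exact ⟨Or.inl h.1, by simp only; rw [h.1, h.2]⟩
    · exact ⟨Or.inr h.1, h.2⟩
  · rintro ⟨h | h, h'⟩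
    · left; simp only at h h'; rw [h', h]
    · right; exact ⟨h, h'⟩

/-- the definition of `dcl` is monotone in the rank and the finite set -/
theorem E_def_mono {F G : Set S} (hFG : F ⊆ G) {q r : ℕ} (hqr : q ≤ r) {z : S}
    (h : ∀ z', E c c q (insert (z, z') (diag F)) → z' = z) :
    ∀ z', E c c r (insert (z, z') (diag G)) → z' = z := by
  intro z' hz'
  exact h z' ((hz'.anti hqr).mono (Set.insert_subset_insert (diag_mono hFG)))

theorem subset_dcl (X : Set S) : X ⊆ dcl c X := by
  intro x hx
  refine ⟨{x}, by simpa using hx, Set.finite_singleton x, 0, fun z' h => ?_⟩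
  have h1 : (x, x) ∈ insert (x, z') (diag {x}) := Or.inr (mem_diag rfl)
  have h2 : (x, z') ∈ insert (x, z') (diag {x}) := Or.inl rfl
  exact ((h.eq_iff h2 h1).1 rfl)

theorem dcl_mono {X Y : Set S} (h : X ⊆ Y) : dcl c X ⊆ dcl c Y := by
  rintro z ⟨F, hF, hf, q, hq⟩
  exact ⟨F, hF.trans h, hf, q, hq⟩

/-- finitely many elements of the definable closure have a common finite set of parameters and a
common rank -/
theorem dcl_common {X : Set S} {G : Set S} (hG : G ⊆ dcl c X) (hf : G.Finite) :
    ∃ F : Set S, F ⊆ X ∧ F.Finite ∧ ∃ q : ℕ, ∀ z ∈ G, ∀ z',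
      E c c q (insert (z, z') (diag F)) → z' = z := by
  induction G, hf using Set.Finite.induction_on with
  | empty => exact ⟨∅, Set.empty_subset _, Set.finite_empty, 0, by simp⟩
  | @insert a s ha hs ih =>
    obtain ⟨F, hF, hFf, q, hq⟩ := ih (fun x hx => hG (Or.inr hx))
    obtain ⟨F', hF', hFf', q', hq'⟩ := hG (Or.inl rfl : a ∈ insert a s)
    refine ⟨F ∪ F', Set.union_subset hF hF', hFf.union hFf', max q q', ?_⟩
    rintro z (rfl | hz)
    · exact E_def_mono Set.subset_union_right (le_max_right _ _) hq'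
    · exact E_def_mono Set.subset_union_left (le_max_left _ _) (hq z hz)

/-- least elements, in the `E` form -/
theorem exists_min (hmin : MinProp c) (q : ℕ) (G : Set S) (hG : G.Finite) (b : S) :
    ∃ z, E c c q (insert (b, z) (diag G)) ∧ ∀ z', E c c q (insert (b, z') (diag G)) → z ≤ z' := by
  obtain ⟨k, f, hf⟩ : ∃ (k : ℕ) (f : Fin k → S), Set.range f = G := by
    obtain ⟨n, f, hf⟩ := hG.fin_param
    exact ⟨n, f, hf.2⟩
  have key : ∀ z, rt c q (Fin.snoc f z : Fin (k + 1) → S) = rt c q (Fin.snoc f b : Fin (k + 1) → S) ↔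
      E c c q (insert (b, z) (diag G)) := by
    intro z
    rw [eq_comm, rt_snoc_eq_iff, diag_range, hf]
  obtain ⟨z, hz, hz'⟩ := hmin q k f (rt c q (Fin.snoc f b : Fin (k + 1) → S)) ⟨b, rfl⟩
  exact ⟨z, (key z).1 hz, fun z' h => hz' z' ((key z').2 h)⟩

/-- Tarski-Vaught property of the definable closure -/
theorem dcl_tv (hmin : MinProp c) {X G : Set S} (hG : G ⊆ dcl c X) (hf : G.Finite) (b : S)
    (q : ℕ) : ∃ z ∈ dcl c X, E c c q (insert (b, z) (diag G)) := by
  obtain ⟨z, hz, hzmin⟩ := exists_min hmin q G hf b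
  refine ⟨z, ?_, hz⟩
  obtain ⟨F, hFX, hFf, q0, hq0⟩ := dcl_common hG hf
  refine ⟨F, hFX, hFf, (max q q0 + 2) + hf.toFinset.card, ?_⟩
  intro z' hz'
  -- add the elements of `G` one by one
  have key : ∀ (T : Finset S) (n : ℕ), (T : Set S) ⊆ G → ∀ R : Set (S × S),
      diag F ⊆ R → E c c (max q q0 + n + T.card) R →
      E c c (max q q0 + n) (R ∪ diag (T : Set S)) := by
    intro T
    induction T using Finset.induction_on with
    | empty =>
      intro n _ R _ h
      have : diag ((∅ : Finset S) : Set S) = ∅ := by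
        ext p; simp [diag]
      rw [this, Set.union_empty]
      simpa using h
    | @insert a s ha ih =>
      intro n hsub R hFR h
      rw [Finset.card_insert_of_notMem ha] at h
      have h' : E c c (max q q0 + n + s.card + 1) R := by
        rw [add_assoc]; rw [show max q q0 + n + (s.card + 1) = max q q0 + n + (s.card + 1) from rfl]
          at h
        exact h
      obtain ⟨a', ha'⟩ := h'.forth a
      have haG : a ∈ G := hsub (by simp)
      have : a' = a := by
        refine hq0 a haG a' ((ha'.anti ?_).mono (Set.insert_subset_insert hFR))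
        have := le_max_right q q0
        omega
      rw [this] at ha'
      have h3 := ih n (fun x hx => hsub (by simp only [Finset.coe_insert]; exact Or.inr hx))
        (insert (a, a) R) (hFR.trans (Set.subset_insert _ _)) ha'
      refine h3.mono ?_
      rw [Finset.coe_insert, ← diag_insert]
      rintro p (hp | hp | hp)
      · exact Or.inl (Or.inr hp)
      · exact Or.inl (Or.inl hp)
      · exact Or.inr hp
  have hzz : E c c (max q q0 + 2) (insert (z, z') (diag F) ∪ diag G) := by
    have := key hf.toFinset 2 (by simp) (insert (z, z') (diag F)) (Set.subset_insert _ _) hz'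
    simpa using this
  -- `z'` has the same `q`-type over `G` as `b`
  have hbz' : ∀ {w w' : S}, E c c q (insert (b, w) (diag G)) → E c c q (insert (w, w') (diag G)) →
      E c c q (insert (b, w') (diag G)) := by
    intro w w' h1 h2
    refine h1.trans h2 ?_
    rintro p (rfl | hp)
    · exact ⟨w, Or.inl rfl, Or.inl rfl⟩
    · refine ⟨p.1, Or.inr ?_, Or.inr hp⟩
      exact mem_diag hp.1
  have h1 : E c c q (insert (b, z') (diag G)) := by
    refine hbz' hz ((hzz.anti (by have := le_max_left q q0; omega)).mono ?_)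
    rintro p (rfl | hp)
    · exact Or.inl (Or.inl rfl)
    · exact Or.inr hp
  have hle := hzmin z' h1
  rcases lt_or_eq_of_le hle with hlt | heq
  · -- pull back `z`
    exfalso
    obtain ⟨w, hw⟩ := E.back (show E c c (max q q0 + 1 + 1) _ from hzz) z
    have e1 : (z, z') ∈ insert (w, z) (insert (z, z') (diag F) ∪ diag G) := Or.inr (Or.inl (Or.inl rfl))
    have e2 : (w, z) ∈ insert (w, z) (insert (z, z') (diag F) ∪ diag G) := Or.inl rfl
    have hwz : w < z := (hw.lt_iff e2 e1).2 hlt
    have h2 : E c c q (insert (w, z) (diag G)) := by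
      refine (hw.anti (by have := le_max_left q q0; omega)).mono ?_
      rintro p (rfl | hp)
      · exact Or.inl rfl
      · exact Or.inr (Or.inr hp)
    have h3 : E c c q (insert (b, w) (diag G)) := by
      refine hz.trans h2.symm ?_
      rintro p (rfl | hp)
      · exact ⟨z, Or.inl rfl, Or.inl rfl⟩
      · refine ⟨p.1, Or.inr ?_, Or.inr ?_⟩
        · exact mem_diag hp.1
        · exact ⟨by rw [hp.2]; exact hp.1, by rw [hp.2]⟩
    exact absurd (hzmin w h3) (not_le.2 hwz)
  · exact heq.symm

/-- separation: an element of the definable closure above a parameter `w` is definable over the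
parameters above `w` -/
theorem dcl_gt {X : Set S} {w z : S} (hw : w ∈ X) (hz : z ∈ dcl c X) (hwz : w ≤ z) :
    z ∈ dcl c (X ∩ Set.Ici w) := by
  obtain ⟨F, hF, hf, q, hq⟩ := hz
  refine ⟨insert w (F ∩ Set.Ici w), ?_, (hf.inter_of_left _).insert w, q, fun z' h => ?_⟩
  · rintro x (rfl | hx)
    · exact ⟨hw, le_rfl⟩
    · exact ⟨hF hx.1, hx.2⟩
  · apply hq
    have hg : (w, w) ∈ insert (z, z') (diag (insert w (F ∩ Set.Ici w))) :=
      Or.inr (mem_diag (Or.inl rfl))
    have h1 : E c c q (diag (insert w (F ∩ Set.Iic w))) :=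
      E_of_diag q _ (fun p hp => hp.2.symm)
    have := E.glue (g := (w, w)) (mem_diag (Or.inl rfl)) hg ?_ ?_ h1 h
    · refine this.mono ?_
      rintro p (rfl | hp)
      · exact Or.inr (Or.inl rfl)
      · rcases le_total p.1 w with h' | h'
        · exact Or.inl ⟨Or.inr ⟨hp.1, h'⟩, hp.2⟩
        · exact Or.inr (Or.inr ⟨Or.inr ⟨hp.1, h'⟩, hp.2⟩)
    · rintro p ⟨hp | hp, _⟩
      · exact le_of_eq hp
      · exact hp.2
    · rintro p (rfl | ⟨hp | hp, _⟩)
      · exact hwz
      · exact le_of_eq hp.symm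
      · exact hp.2

theorem dcl_lt {X : Set S} {w z : S} (hw : w ∈ X) (hz : z ∈ dcl c X) (hwz : z ≤ w) :
    z ∈ dcl c (X ∩ Set.Iic w) := by
  obtain ⟨F, hF, hf, q, hq⟩ := hz
  refine ⟨insert w (F ∩ Set.Iic w), ?_, (hf.inter_of_left _).insert w, q, fun z' h => ?_⟩
  · rintro x (rfl | hx)
    · exact ⟨hw, le_rfl⟩
    · exact ⟨hF hx.1, hx.2⟩
  · apply hq
    have hg : (w, w) ∈ insert (z, z') (diag (insert w (F ∩ Set.Iic w))) :=
      Or.inr (mem_diag (Or.inl rfl))
    have h1 : E c c q (diag (insert w (F ∩ Set.Ici w))) :=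
      E_of_diag q _ (fun p hp => hp.2.symm)
    have := E.glue (g := (w, w)) hg (mem_diag (Or.inl rfl)) ?_ ?_ h h1
    · refine this.mono ?_
      rintro p (rfl | hp)
      · exact Or.inl (Or.inl rfl)
      · rcases le_total p.1 w with h' | h'
        · exact Or.inl (Or.inr ⟨Or.inr ⟨hp.1, h'⟩, hp.2⟩)
        · exact Or.inr ⟨Or.inr ⟨hp.1, h'⟩, hp.2⟩
    · rintro p (rfl | ⟨hp | hp, _⟩)
      · exact hwz
      · exact le_of_eq hp
      · exact hp.2
    · rintro p ⟨hp | hp, _⟩
      · exact le_of_eq hp.symm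
      · exact hp.2

end

end Pool.Agent.W227.FL
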