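import Mathlib

/-!
MP_44611a_co (S08439): modeling limits of coloured linear orders.  Definitions.

`RT q k` is the (finite) set of rank `q` Hintikka types of `k`-tuples in coloured linear orders,
`rt c q a` the rank `q` type of the tuple `a`, `E` the back-and-forth relation between two coloured
linear orders given by a set of pairs.
-/

set_option autoImplicit false

namespace Pool.Agent.W227.FL

open Filter Topology

/-- Rank `q` types of `k`-tuples. Atomic part: order pattern and colours. -/
def RT : ℕ → ℕ → Type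
  | 0, k => (Fin k → Fin k → Bool) × (Fin k → Bool)
  | q + 1, k => ((Fin k → Fin k → Bool) × (Fin k → Bool)) × Set (RT q (k + 1))

section
variable {A B : Type} [LinearOrder A] [LinearOrder B]

/-- The rank `q` type of a tuple. -/
noncomputable def rt (c : A → Bool) : (q : ℕ) → {k : ℕ} → (Fin k → A) → RT q k
  | 0, _, a => (fun i j => decide (a i < a j), fun i => c (a i))
  | q + 1, _, a => ((fun i j => decide (a i < a j), fun i => c (a i)),
      {ρ | ∃ b : A, rt c q (Fin.snoc a b : Fin (_ + 1) → A) = ρ})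

/-- The back-and-forth relation of rank `q` for a set of pairs. -/
def E (cA : A → Bool) (cB : B → Bool) : ℕ → Set (A × B) → Prop
  | 0, R => ∀ x ∈ R, ∀ y ∈ R, (x.1 < y.1 ↔ x.2 < y.2) ∧ cA x.1 = cB x.2
  | q + 1, R => (∀ x ∈ R, ∀ y ∈ R, (x.1 < y.1 ↔ x.2 < y.2) ∧ cA x.1 = cB x.2) ∧
      (∀ a, ∃ b, E cA cB q (insert (a, b) R)) ∧ (∀ b, ∃ a, E cA cB q (insert (a, b) R))

/-- The diagonal over a set. -/
def diag (F : Set A) : Set (A × A) := {p | p.1 ∈ F ∧ p.2 = p.1}

/-- Definable closure in the back-and-forth sense. -/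
def dcl (c : A → Bool) (X : Set A) : Set A :=
  {z | ∃ F : Set A, F ⊆ X ∧ F.Finite ∧ ∃ q : ℕ, ∀ z', E c c q (insert (z, z') (diag F)) → z' = z}

/-- The type of a sequence: its `k`-th coordinate is the rank `k` type of the first `k` entries. -/
noncomputable def Tp (c : A → Bool) (a : ℕ → A) (k : ℕ) : RT k k :=
  rt c k (fun i : Fin k => a i)

/-- The type of an element over a sequence of parameters. -/
noncomputable def tpx (c : A → Bool) (g : ℕ → A) (x : A) (k : ℕ) : RT k (k + 1) :=
  rt c k (Fin.snoc (fun i : Fin k => g i) x : Fin (k + 1) → A)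

end

/-- interleaving of two sequences: even entries from `g`, odd entries from `e` -/
def ilv {A : Type} (g e : ℕ → A) (n : ℕ) : A := if n % 2 = 0 then g (n / 2) else e (n / 2)

/-- put an element in front of a sequence -/
def scons {A : Type} (x : A) (g : ℕ → A) : ℕ → A
  | 0 => x
  | n + 1 => g n

section
variable {S : Type} [LinearOrder S]

/-- every nonempty definable set has a least element -/
def MinProp (c : S → Bool) : Prop :=
  ∀ (q k : ℕ) (f : Fin k → S) (ρ : RT q (k + 1)),
    (∃ z, rt c q (Fin.snoc f z : Fin (k + 1) → S) = ρ) →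
    ∃ z, rt c q (Fin.snoc f z : Fin (k + 1) → S) = ρ ∧
      ∀ z', rt c q (Fin.snoc f z' : Fin (k + 1) → S) = ρ → z ≤ z'

/-- countable saturation (for countably many conditions on a sequence `a`, with a parameter
sequence `h`) -/
def SatProp (c : S → Bool) : Prop :=
  ∀ (h : ℕ → S) (K : ℕ → ℕ) (P : ∀ j : ℕ, Set (RT (K j) (K j))),
    (∀ n : ℕ, ∃ a : ℕ → S, ∀ j ≤ n, Tp c (ilv h a) (K j) ∈ P j) →
    ∃ a : ℕ → S, ∀ j, Tp c (ilv h a) (K j) ∈ P j

/-- the level `k` type `ρ` (over `g 0, ..., g (k-1)`) accumulates at the cut `κ` -/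
def Acc (c : S → Bool) (g : ℕ → S) (κ : ℕ → Bool) (k : ℕ) (ρ : RT k (k + 1)) : Prop :=
  ∀ i j, κ i = true → κ j = false → ∃ z, g i < z ∧ z < g j ∧ tpx c g z k = ρ

/-- the level `k` type `ρ` recurs at the cut `κ` from the left -/
def Rec (c : S → Bool) (g : ℕ → S) (κ : ℕ → Bool) (k : ℕ) (ρ : RT k (k + 1)) : Prop :=
  ∀ i, κ i = true → ∃ i', κ i' = true ∧ ∃ z, g i < z ∧ z < g i' ∧ tpx c g z k = ρ

/-- the cut of an element over the sequence `g` -/
noncomputable def cut (g : ℕ → S) (x : S) : ℕ → Bool := fun i => decide (g i < x)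

/-- bad cuts: some type accumulates but does not recur from the left -/
def Bad (c : S → Bool) (g : ℕ → S) : Set (ℕ → Bool) :=
  {κ | ∃ (k : ℕ) (ρ : RT k (k + 1)), Acc c g κ k ρ ∧ ¬ Rec c g κ k ρ}

/-- good points: not in the sequence `g`, with a good cut -/
def GoodPt (c : S → Bool) (g : ℕ → S) : Set S := {x | x ∉ Set.range g ∧ cut g x ∉ Bad c g}

/-- the cuts of good points -/
def GoodCut (c : S → Bool) (g : ℕ → S) : Set (ℕ → Bool) := cut g '' GoodPt c g

/-- the types (over `g`) of good points -/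
def GoodTp (c : S → Bool) (g : ℕ → S) : Set (∀ k, RT k (k + 1)) :=
  (fun x => tpx c g x) '' GoodPt c g

end

instance RT.finite : ∀ q k : ℕ, Finite (RT q k)
  | 0, k => by unfold RT; infer_instance
  | q + 1, k => by
      have := RT.finite q (k + 1)
      unfold RT; infer_instance

instance (q k : ℕ) : MeasurableSpace (RT q k) := ⊤
instance (q k : ℕ) : DiscreteMeasurableSpace (RT q k) := ⟨fun _ => trivial⟩
instance (q k : ℕ) : TopologicalSpace (RT q k) := ⊥
instance (q k : ℕ) : DiscreteTopology (RT q k) := ⟨rfl⟩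

end Pool.Agent.W227.FL
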