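import Pool.Agent.W227.FL.Sel
import Pool.Agent.W227.FL.Branch

/-! Part E: measurable selection of the fillers `e κ` and of the realisations `x p`. -/

set_option autoImplicit false

namespace Pool.Agent.W227.FL

open MeasureTheory

section
variable {S : Type} [LinearOrder S] {c : S → Bool} {g : ℕ → S}

/-- sets determined by a measurable map into a finite space are measurable -/
theorem measurableSet_of_factors {Z F : Type} [MeasurableSpace Z] [MeasurableSpace F] [Countable F]
    [MeasurableSingletonClass F] {f : Z → F} (hf : Measurable f) (P : Z → Prop)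
    (h : ∀ z z', f z = f z' → P z → P z') : MeasurableSet {z | P z} := by
  have : {z | P z} = f ⁻¹' (f '' {z | P z}) := by
    ext z
    constructor
    · intro hz; exact ⟨z, hz, rfl⟩
    · rintro ⟨z', hz', he⟩
      exact h z' z he hz'
  rw [this]
  exact hf (Set.Countable.measurableSet (Set.to_countable _))

theorem measurableSet_acc (l : ℕ) (ρ : RT l (l + 1)) :
    MeasurableSet {κ : ℕ → Bool | Acc c g κ l ρ} := by
  have : {κ : ℕ → Bool | Acc c g κ l ρ} = ⋂ i : ℕ, ⋂ j : ℕ, {κ : ℕ → Bool | κ i = true → κ j = false →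
      ∃ z, g i < z ∧ z < g j ∧ tpx c g z l = ρ} := by
    ext κ
    simp only [Set.mem_iInter]
    rfl
  rw [this]
  refine MeasurableSet.iInter fun i => MeasurableSet.iInter fun j => ?_
  refine measurableSet_of_factors (f := fun κ : ℕ → Bool => (κ i, κ j))
    ((measurable_pi_apply i).prodMk (measurable_pi_apply j)) _ ?_
  intro κ κ' h hκ h1 h2
  simp only [Prod.mk.injEq] at h
  exact hκ (by rw [h.1]; exact h1) (by rw [h.2]; exact h2)

/-- E1: measurable selection of the fillers -/
theorem exists_filler (hsat : SatProp c) (h0 : ∀ x, g 0 ≤ x) :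
    ∃ e : (ℕ → Bool) → ℕ → S, (∀ κ ∈ GoodCut c g, ∀ k, RE c g κ k (e κ)) ∧
      ∀ k, Measurable fun κ : GoodCut c g => Tp c (ilv g (e κ)) k := by
  classical
  obtain ⟨b, hb1, hb2⟩ := exists_measurable_branch (Z := GoodCut c g) (fun k => RT k k)
    (fun k κ ω => ∃ e : ℕ → S, (∀ j < k, Tp c (ilv g e) j = ω j) ∧ RE c g κ k e) (by
      rintro k κ ω ω' h ⟨e, h1, h2⟩
      exact ⟨e, fun j hj => (h1 j hj).trans (h j hj), h2⟩) (by
      rintro k κ ω ⟨e, h1, h2⟩
      exact ⟨e, fun j hj => h1 j (by omega), h2.mono (by omega)⟩) (by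
      intro k ω
      let F : Type := (Fin k → Bool) × (∀ l : Fin k, RT (l : ℕ) ((l : ℕ) + 1) → Bool)
      let f : GoodCut c g → F := fun κ => (fun i => κ.1 i, fun l ρ => decide (Acc c g κ.1 l ρ))
      have hf : Measurable f := by
        refine Measurable.prodMk ?_ ?_
        · exact measurable_pi_lambda _ fun i => (measurable_pi_apply _).comp measurable_subtype_coe
        · refine measurable_pi_lambda _ fun l => measurable_pi_lambda _ fun ρ => ?_
          refine measurable_to_bool ?_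
          have : (fun κ : GoodCut c g => decide (Acc c g κ.1 l ρ)) ⁻¹' {true} =
              Subtype.val ⁻¹' {κ : ℕ → Bool | Acc c g κ l ρ} := by
            ext κ; simp
          rw [this]
          exact measurable_subtype_coe (measurableSet_acc _ _)
      refine measurableSet_of_factors hf _ ?_
      rintro κ κ' h ⟨e, h1, h2⟩
      refine ⟨e, h1, ?_⟩
      have h3 : ∀ i < k, κ.1 i = κ'.1 i := fun i hi => congrFun (congrArg Prod.fst h) ⟨i, hi⟩
      have h4 : ∀ l < k, ∀ ρ : RT l (l + 1), (Acc c g κ.1 l ρ ↔ Acc c g κ'.1 l ρ) := by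
        intro l hl ρ
        have := congrFun (congrFun (congrArg Prod.snd h) ⟨l, hl⟩) ρ
        simpa [f] using this
      refine ⟨fun s hs i hi => ?_, h2.r2, fun s hs s' hs' hq l hl ρ hρ => ?_⟩
      · rw [← h3 i hi]; exact h2.r1 s hs i hi
      · exact h2.r3 s hs s' hs' hq l hl ρ ((h4 l hl ρ).2 hρ)) (by
      intro k κ
      obtain ⟨e, he⟩ := RE_exists h0 κ.2 k
      exact ⟨fun j => Tp c (ilv g e) j, e, fun j _ => rfl, he⟩)
  have hex : ∀ κ : GoodCut c g, ∃ e : ℕ → S, ∀ j, Tp c (ilv g e) j = b κ j ∧ RE c g κ j e := by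
    intro κ
    refine hsat.loc g (fun j => 2 * j + 2) _ ?_ ?_
    · rintro j a a' h ⟨h1, h2⟩
      refine ⟨?_, RE.loc h h2⟩
      rw [← h1]
      exact (Tp_mono (by omega) h).symm
    · intro n
      obtain ⟨e, h1, h2⟩ := hb2 κ (n + 1)
      exact ⟨e, fun j hj => ⟨h1 j (by omega), h2.mono (by omega)⟩⟩
  choose e he using hex
  refine ⟨fun κ => if h : κ ∈ GoodCut c g then e ⟨κ, h⟩ else g, ?_, ?_⟩
  · intro κ hκ k
    simp only [hκ, dif_pos]
    exact (he ⟨κ, hκ⟩ k).2
  · intro k
    have : (fun κ : GoodCut c g => Tp c (ilv g (if h : (κ : ℕ → Bool) ∈ GoodCut c g then e ⟨κ, h⟩ else g)) k) =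
        fun κ => b κ k := by
      funext κ
      simp only [κ.2, dif_pos]
      exact (he κ k).1
    rw [this]
    exact hb1 k

/-- the cut of a type -/
def cutOf (p : ∀ k, RT k (k + 1)) (i : ℕ) : Bool :=
  (show ((Fin (i + 2) → Fin (i + 2) → Bool) × (Fin (i + 2) → Bool)) × Set (RT i (i + 3)) from
    p (i + 1)).1.1 ⟨i, by omega⟩ (Fin.last (i + 1))

theorem cutOf_tpx (x : S) : cutOf (fun k => tpx c g x k) = cut g x := by
  funext i
  unfold cutOf tpx cut
  show decide ((Fin.snoc (fun i : Fin (i + 1) => g i) x : Fin (i + 2) → S) ⟨i, _⟩ <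
    (Fin.snoc (fun i : Fin (i + 1) => g i) x : Fin (i + 2) → S) (Fin.last (i + 1))) = _
  have h1 : (Fin.snoc (fun i : Fin (i + 1) => g i) x : Fin (i + 2) → S) ⟨i, by omega⟩ = g i := by
    have : (⟨i, by omega⟩ : Fin (i + 2)) = Fin.castSucc (⟨i, by omega⟩ : Fin (i + 1)) := rfl
    rw [this, Fin.snoc_castSucc]
  rw [h1, Fin.snoc_last]

theorem measurable_cutOf : Measurable cutOf := by
  refine measurable_pi_lambda _ fun i => ?_
  exact (measurable_from_top (f := fun ρ : RT (i + 1) (i + 2) =>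
    (show ((Fin (i + 2) → Fin (i + 2) → Bool) × (Fin (i + 2) → Bool)) × Set (RT i (i + 3)) from
    ρ).1.1 ⟨i, by omega⟩ (Fin.last (i + 1)))).comp (measurable_pi_apply (i + 1))

theorem cutOf_good {p : ∀ k, RT k (k + 1)} (hp : p ∈ GoodTp c g) : cutOf p ∈ GoodCut c g := by
  obtain ⟨x, hx, rfl⟩ := hp
  exact ⟨x, hx, (cutOf_tpx x).symm⟩

/-- the requirements for the realisation `x` of the type `p` up to level `k` -/
structure RX (c : S → Bool) (g : ℕ → S) (r : ℝ) (e : ℕ → S) (p : ∀ k, RT k (k + 1)) (k : ℕ) (x : S) :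
    Prop where
  r1 : ∀ j < k, tpx c g x j = p j
  r2 : ∀ s < k, (qv s : ℝ) < r → e s < x
  r3 : ∀ s < k, r < (qv s : ℝ) → x < e s

theorem RX.mono {r : ℝ} {e : ℕ → S} {p : ∀ k, RT k (k + 1)} {k k' : ℕ} {x : S} (h : k ≤ k')
    (hx : RX c g r e p k' x) : RX c g r e p k x where
  r1 j hj := hx.r1 j (by omega)
  r2 s hs := hx.r2 s (by omega)
  r3 s hs := hx.r3 s (by omega)

/-- transfer of `RX` along a back-and-forth relation -/
theorem RX.transfer {r r' : ℝ} {e e' : ℕ → S} {p p' : ∀ k, RT k (k + 1)} {k : ℕ} {x x' : S}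
    (hx : RX c g r e p k x) (hp : ∀ j < k, p j = p' j)
    (hr1 : ∀ s < k, ((qv s : ℝ) < r ↔ (qv s : ℝ) < r'))
    (hr2 : ∀ s < k, (r < (qv s : ℝ) ↔ r' < (qv s : ℝ)))
    (hE : E c c (2 * k) (insert (x, x') (PR (ilv g e) (ilv g e') (2 * k)))) :
    RX c g r' e' p' k x' := by
  have he : ∀ s < k, (e s, e' s) ∈ insert (x, x') (PR (ilv g e) (ilv g e') (2 * k)) := by
    intro s hs
    exact Or.inr ⟨2 * s + 1, by omega, by rw [ilv_odd, ilv_odd]⟩
  refine ⟨fun j hj => ?_, fun s hs h => ?_, fun s hs h => ?_⟩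
  · rw [← hp j hj, ← hx.r1 j hj, eq_comm, tpx_eq_iff]
    refine (hE.anti (by omega)).mono ?_
    rintro q (rfl | ⟨i, hi, rfl⟩)
    · exact Or.inl rfl
    · exact Or.inr ⟨2 * i, by omega, by rw [ilv_even, ilv_even]⟩
  · exact (hE.lt_iff (he s hs) (Or.inl rfl)).1 (hx.r2 s hs ((hr1 s hs).2 h))
  · exact (hE.lt_iff (Or.inl rfl) (he s hs)).1 (hx.r3 s hs ((hr2 s hs).2 h))

theorem RX_exists {e : (ℕ → Bool) → ℕ → S} (he : ∀ κ ∈ GoodCut c g, ∀ k, RE c g κ k (e κ))
    {p : ∀ k, RT k (k + 1)} (hp : p ∈ GoodTp c g) (r : ℝ) (k : ℕ) :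
    ∃ x, RX c g r (e (cutOf p)) p k x := by
  classical
  obtain ⟨x0, hx0, rfl⟩ := hp
  have hcut : cutOf (fun k => tpx c g x0 k) = cut g x0 := cutOf_tpx x0
  rw [hcut]
  have hgood : cut g x0 ∈ GoodCut c g := ⟨x0, hx0, rfl⟩
  have hacc : Acc c g (cut g x0) k (tpx c g x0 k) := by
    intro i j h1 h2
    refine ⟨x0, by simpa [cut] using h1, ?_, rfl⟩
    have : ¬ g j < x0 := by simpa [cut] using h2
    exact lt_of_le_of_ne (not_lt.1 this) (fun h => hx0.1 ⟨j, h.symm⟩)
  obtain ⟨q1, hq1⟩ := exists_rat_lt r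
  obtain ⟨q2, hq2⟩ := exists_rat_gt r
  obtain ⟨s1, rfl⟩ := qv_surj q1
  obtain ⟨s2, rfl⟩ := qv_surj q2
  obtain ⟨a, ha, ha'⟩ := (insert s1 ((Finset.range k).filter fun s => (qv s : ℝ) < r)).exists_max_image
    qv ⟨s1, by simp⟩
  obtain ⟨b, hb, hb'⟩ := (insert s2 ((Finset.range k).filter fun s => r < (qv s : ℝ))).exists_min_image
    qv ⟨s2, by simp⟩
  have har : (qv a : ℝ) < r := by
    simp only [Finset.mem_insert, Finset.mem_filter, Finset.mem_range] at ha
    rcases ha with rfl | ha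
    · exact hq1
    · exact ha.2
  have hbr : r < (qv b : ℝ) := by
    simp only [Finset.mem_insert, Finset.mem_filter, Finset.mem_range] at hb
    rcases hb with rfl | hb
    · exact hq2
    · exact hb.2
  have hab : qv a < qv b := by exact_mod_cast har.trans hbr
  have hR := he _ hgood (max (max a b) k + 1)
  obtain ⟨z, hz1, hz2, hz3⟩ := hR.r3 a (by omega) b (by omega) hab k (by omega) _ hacc
  have hele : ∀ s s', s < max (max a b) k + 1 → s' < max (max a b) k + 1 → qv s ≤ qv s' →
      e (cut g x0) s ≤ e (cut g x0) s' := by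
    intro s s' hs hs' h
    rcases lt_or_eq_of_le h with h | h
    · exact (hR.r2 s hs s' hs' h).le
    · rw [qv_inj h]
  refine ⟨z, fun j hj => tpx_mono hj.le hz3, fun s hs h => ?_, fun s hs h => ?_⟩
  · exact (hele s a (by omega) (by omega) (ha' s (by simp [hs, h]))).trans_lt hz1
  · exact hz2.trans_le (hele b s (by omega) (by omega) (hb' s (by simp [hs, h])))

/-- `Tp` of a sequence with an element in front, in terms of back-and-forth -/
theorem Tp_scons_of_E {h h' : ℕ → S} {x x' : S} {q K k : ℕ} (hk : k ≤ q) (hk' : k ≤ K)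
    (hE : E c c q (insert (x, x') (PR h h' K))) : Tp c (scons x h) k = Tp c (scons x' h') k := by
  rw [Tp_eq_iff]
  refine (hE.anti hk).mono ?_
  rintro p ⟨i, hi, rfl⟩
  cases i with
  | zero => exact Or.inl rfl
  | succ i => exact Or.inr ⟨i, by omega, rfl⟩

theorem measurable_Tp_cutOf {e : (ℕ → Bool) → ℕ → S}
    (hem : ∀ k, Measurable fun κ : GoodCut c g => Tp c (ilv g (e κ)) k) (k : ℕ) :
    Measurable fun p : GoodTp c g => Tp c (ilv g (e (cutOf p.1))) k := by
  have h1 : Measurable fun p : GoodTp c g => (⟨cutOf p.1, cutOf_good p.2⟩ : GoodCut c g) :=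
    (measurable_cutOf.comp measurable_subtype_coe).subtype_mk
  exact (hem k).comp h1

/-- E2: measurable selection of realisations of the good types -/
theorem exists_points (hsat : SatProp c) {e : (ℕ → Bool) → ℕ → S}
    (he : ∀ κ ∈ GoodCut c g, ∀ k, RE c g κ k (e κ))
    (hem : ∀ k, Measurable fun κ : GoodCut c g => Tp c (ilv g (e κ)) k)
    (r : (∀ k, RT k (k + 1)) → ℝ) (hr : Measurable r) :
    ∃ x : (∀ k, RT k (k + 1)) → S, (∀ p ∈ GoodTp c g, ∀ k, RX c g (r p) (e (cutOf p)) p k (x p)) ∧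
      ∀ k, Measurable fun p : GoodTp c g => Tp c (scons (x p.1) (ilv g (e (cutOf p.1)))) k := by
  classical
  obtain ⟨b, hb1, hb2⟩ := exists_measurable_branch (Z := GoodTp c g) (fun k => RT k k)
    (fun k p ω => ∃ x : S, (∀ j < k, Tp c (scons x (ilv g (e (cutOf p.1)))) j = ω j) ∧
      RX c g (r p.1) (e (cutOf p.1)) p.1 k x) (by
      rintro k p ω ω' h ⟨x, h1, h2⟩
      exact ⟨x, fun j hj => (h1 j hj).trans (h j hj), h2⟩) (by
      rintro k p ω ⟨x, h1, h2⟩
      exact ⟨x, fun j hj => h1 j (by omega), h2.mono (by omega)⟩) (by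
      intro k ω
      let F : Type := RT (2 * k + 2) (2 * k + 2) × (∀ j : Fin k, RT (j : ℕ) ((j : ℕ) + 1)) ×
        (Fin k → Bool × Bool)
      let f : GoodTp c g → F := fun p => (Tp c (ilv g (e (cutOf p.1))) (2 * k + 2),
        fun j => p.1 j, fun s => (decide ((qv s : ℝ) < r p.1), decide (r p.1 < (qv s : ℝ))))
      have hrm : Measurable fun p : GoodTp c g => r p.1 := hr.comp measurable_subtype_coe
      have hf : Measurable f := by
        refine Measurable.prodMk (measurable_Tp_cutOf hem _) (Measurable.prodMk ?_ ?_)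
        · exact measurable_pi_lambda _ fun i => (measurable_pi_apply _).comp measurable_subtype_coe
        · refine measurable_pi_lambda _ fun s => Measurable.prodMk ?_ ?_
          · refine measurable_to_bool ?_
            have : (fun p : GoodTp c g => decide ((qv s : ℝ) < r p.1)) ⁻¹' {true} =
                {p : GoodTp c g | (qv s : ℝ) < r p.1} := by
              ext p; simp
            rw [this]
            exact measurableSet_lt measurable_const hrm
          · refine measurable_to_bool ?_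
            have : (fun p : GoodTp c g => decide (r p.1 < (qv s : ℝ))) ⁻¹' {true} =
                {p : GoodTp c g | r p.1 < (qv s : ℝ)} := by
              ext p; simp
            rw [this]
            exact measurableSet_lt hrm measurable_const
      refine measurableSet_of_factors hf _ ?_
      rintro p p' h ⟨x, h1, h2⟩
      have h3 : Tp c (ilv g (e (cutOf p.1))) (2 * k + 2) = Tp c (ilv g (e (cutOf p'.1))) (2 * k + 2) :=
        congrArg Prod.fst h
      have h4 : ∀ j < k, p.1 j = p'.1 j := fun j hj =>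
        congrFun (congrArg (fun t : F => t.2.1) h) ⟨j, hj⟩
      have h5 : ∀ s < k, ((qv s : ℝ) < r p.1 ↔ (qv s : ℝ) < r p'.1) := fun s hs => by
        have := congrArg Prod.fst (congrFun (congrArg (fun t : F => t.2.2) h) ⟨s, hs⟩)
        simpa [f] using this
      have h6 : ∀ s < k, (r p.1 < (qv s : ℝ) ↔ r p'.1 < (qv s : ℝ)) := fun s hs => by
        have := congrArg Prod.snd (congrFun (congrArg (fun t : F => t.2.2) h) ⟨s, hs⟩)
        simpa [f] using this
      rw [Tp_eq_iff] at h3
      obtain ⟨x', hx'⟩ := E.forth (show E c c (2 * k + 1 + 1) _ from h3) x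
      refine ⟨x', fun j hj => ?_, ?_⟩
      · rw [← h1 j hj]
        exact (Tp_scons_of_E (by omega) (by omega) hx').symm
      · exact h2.transfer h4 h5 h6
          ((hx'.anti (by omega)).mono (Set.insert_subset_insert (PR_mono (by omega))))) (by
      intro k p
      obtain ⟨x, hx⟩ := RX_exists he p.2 (r p.1) k
      exact ⟨fun j => Tp c (scons x (ilv g (e (cutOf p.1)))) j, x, fun j _ => rfl, hx⟩)
  have hex : ∀ p : GoodTp c g, ∃ x : S, ∀ j, Tp c (scons x (ilv g (e (cutOf p.1)))) j = b p j ∧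
      RX c g (r p.1) (e (cutOf p.1)) p.1 j x := by
    intro p
    refine hsat.one (ilv g (e (cutOf p.1))) (fun j => 2 * j + 2) _ ?_ ?_
    · rintro j x x' h ⟨h1, h2⟩
      rw [tpx_eq_iff] at h
      refine ⟨?_, ?_⟩
      · rw [← h1]
        exact (Tp_scons_of_E (by omega) (by omega) h).symm
      · exact h2.transfer (fun _ _ => rfl) (fun _ _ => Iff.rfl) (fun _ _ => Iff.rfl)
          ((h.anti (by omega)).mono (Set.insert_subset_insert (PR_mono (by omega))))
    · intro n
      obtain ⟨x, h1, h2⟩ := hb2 p (n + 1)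
      exact ⟨x, fun j hj => ⟨h1 j (by omega), h2.mono (by omega)⟩⟩
  choose x hx using hex
  refine ⟨fun p => if h : p ∈ GoodTp c g then x ⟨p, h⟩ else g 0, ?_, ?_⟩
  · intro p hp k
    simp only [hp, dif_pos]
    exact (hx ⟨p, hp⟩ k).2
  · intro k
    have : (fun p : GoodTp c g => Tp c (scons (if h : (p : ∀ k, RT k (k + 1)) ∈ GoodTp c g
        then x ⟨p, h⟩ else g 0) (ilv g (e (cutOf p.1)))) k) = fun p => b p k := by
      funext p
      simp only [p.2, dif_pos]
      exact (hx p k).1
    rw [this]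
    exact hb1 k

end

end Pool.Agent.W227.FL
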