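import Mathlib

set_option autoImplicit false

namespace Pool.Agent.W227.FL

open MeasureTheory

/-- the Borel sigma-algebra of a sum -/
theorem borelSpace_sum {α β : Type} [TopologicalSpace α] [TopologicalSpace β] [MeasurableSpace α]
    [MeasurableSpace β] [BorelSpace α] [BorelSpace β] : BorelSpace (α ⊕ β) := by
  constructor
  apply le_antisymm
  · intro s hs
    have hs' : MeasurableSet (Sum.inl ⁻¹' s) ∧ MeasurableSet (Sum.inr ⁻¹' s) := by
      exact measurableSet_sum_iff.1 hs
    letI : MeasurableSpace (α ⊕ β) := borel _
    haveI : BorelSpace (α ⊕ β) := ⟨rfl⟩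
    have e1 : MeasurableEmbedding (Sum.inl : α → α ⊕ β) :=
      Topology.IsOpenEmbedding.inl.measurableEmbedding
    have e2 : MeasurableEmbedding (Sum.inr : β → α ⊕ β) :=
      Topology.IsOpenEmbedding.inr.measurableEmbedding
    have : s = Sum.inl '' (Sum.inl ⁻¹' s) ∪ Sum.inr '' (Sum.inr ⁻¹' s) := by
      ext x
      rcases x with x | x <;> simp
    rw [this]
    exact (e1.measurableSet_image.2 hs'.1).union (e2.measurableSet_image.2 hs'.2)
  · rw [borel, MeasurableSpace.generateFrom_le_iff]
    intro s hs
    refine measurableSet_sum_iff.2 ⟨?_, ?_⟩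
    · exact (hs.preimage continuous_inl).measurableSet
    · exact (hs.preimage continuous_inr).measurableSet

theorem standardBorel_sum {α β : Type} [MeasurableSpace α] [MeasurableSpace β]
    [StandardBorelSpace α] [StandardBorelSpace β] : StandardBorelSpace (α ⊕ β) := by
  letI := upgradeStandardBorel α
  letI := upgradeStandardBorel β
  have := borelSpace_sum (α := α) (β := β)
  infer_instance

end Pool.Agent.W227.FL
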