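import Pool.Agent.W227.FL.Blocks
import Pool.Agent.W227.FL.SumSB

/-! Part F3: the standard Borel elementary submodel. -/

set_option autoImplicit false

namespace Pool.Agent.W227.FL

open MeasureTheory

namespace FD

variable {S : Type} [LinearOrder S] {c : S → Bool} {g : ℕ → S} (D : FD S c g)

theorem range_g_seq (i : Ix c g) : Set.range g ⊆ Set.range (D.seq i) :=
  (D.range_g_pseq i).trans (D.range_pseq_seq i)

/-- two elements of the model are in a common hull or separated by an element of both hulls -/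
theorem common_or_sep (u u' : D.Md) (h : D.val u < D.val u') :
    (∃ i, D.val u ∈ dcl c (Set.range (D.seq i)) ∧ D.val u' ∈ dcl c (Set.range (D.seq i))) ∨
    ∃ w, w ∈ dcl c (Set.range (D.seq u.1.1)) ∧ w ∈ dcl c (Set.range (D.seq u'.1.1)) ∧
      D.val u < w ∧ w < D.val u' := by
  have hlev : ∀ i : Ix c g, lev i = 0 ∨ lev i = 1 ∨ lev i = 2 := by
    rintro (_ | _ | _) <;> simp [lev]
  have hz : ∀ v : D.Md, lev v.1.1 = 0 → D.val v ∈ dcl c (Set.range g) := by
    intro v hv
    have h1 := D.val_dcl v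
    generalize v.1.1 = i at hv h1
    rcases i with _ | _ | _
    · exact h1
    · simp [lev] at hv
    · simp [lev] at hv
  have hone : ∀ v v' : D.Md, lev v.1.1 = 1 → lev v'.1.1 = 2 → kap v.1.1 = kap v'.1.1 →
      D.val v ∈ dcl c (Set.range (D.seq v'.1.1)) := by
    intro v v' hv hv' hk
    refine dcl_mono (D.range_pseq_seq _) ?_
    have h1 := D.val_dcl v
    generalize v.1.1 = i at hv h1 hk
    generalize v'.1.1 = i' at hv' hk ⊢
    rcases i with _ | κ | _
    · simp [lev] at hv
    · rcases i' with _ | _ | p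
      · simp [lev] at hv'
      · simp [lev] at hv'
      · have hk : (κ : ℕ → Bool) = cutOf p.1 := hk
        show D.val v ∈ dcl c (Set.range (D.A1 (cutOf p.1)))
        rw [← hk]; exact h1
    · simp [lev] at hv
  by_cases h0 : lev u.1.1 = 0
  · exact Or.inl ⟨u'.1.1, dcl_mono (D.range_g_seq _) (hz u h0), D.val_dcl u'⟩
  by_cases h0' : lev u'.1.1 = 0
  · exact Or.inl ⟨u.1.1, D.val_dcl u, dcl_mono (D.range_g_seq _) (hz u' h0')⟩
  by_cases hk : kap u.1.1 = kap u'.1.1
  · rcases hlev u.1.1 with h1 | h1 | h1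
    · exact absurd h1 h0
    · rcases hlev u'.1.1 with h1' | h1' | h1'
      · exact absurd h1' h0'
      · have := eq_of_kap h1 h1' hk
        exact Or.inl ⟨u'.1.1, this ▸ D.val_dcl u, D.val_dcl u'⟩
      · exact Or.inl ⟨u'.1.1, hone u u' h1 h1' hk, D.val_dcl u'⟩
    · rcases hlev u'.1.1 with h1' | h1' | h1'
      · exact absurd h1' h0'
      · exact Or.inl ⟨u.1.1, D.val_dcl u, hone u' u h1' h1 hk.symm⟩
      · rcases lt_trichotomy (D.ri u.1.1) (D.ri u'.1.1) with h3 | h3 | h3
        · right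
          obtain ⟨q, hq1, hq2⟩ := exists_rat_btwn h3
          obtain ⟨s, rfl⟩ := qv_surj q
          obtain ⟨h4, h5⟩ := D.sep_e h1 h1' hk hq1 hq2
          have hmem : ∀ i : Ix c g, lev i = 2 → D.e (kap i) s ∈ dcl c (Set.range (D.seq i)) := by
            intro i hi
            apply subset_dcl
            rcases i with _ | _ | p
            · simp [lev] at hi
            · simp [lev] at hi
            · exact D.range_A1_sub p.1 ⟨2 * s + 1, D.A1_odd _ _⟩
          exact ⟨_, hmem _ h1, by rw [hk]; exact hmem _ h1', h4, h5⟩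
        · have := D.eq_of_ri h1 h1' h3
          exact Or.inl ⟨u'.1.1, this ▸ D.val_dcl u, D.val_dcl u'⟩
        · exfalso
          obtain ⟨q, hq1, hq2⟩ := exists_rat_btwn h3
          obtain ⟨s, rfl⟩ := qv_surj q
          obtain ⟨h4, h5⟩ := D.sep_e h1' h1 hk.symm hq1 hq2
          exact absurd h (not_lt.2 (h4.trans h5).le)
  · obtain ⟨j, hj⟩ : ∃ j, kap u.1.1 j ≠ kap u'.1.1 j := by
      by_contra hcon
      push Not at hcon
      exact hk (funext hcon)
    have hgm : ∀ i : Ix c g, g j ∈ dcl c (Set.range (D.seq i)) := fun i =>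
      subset_dcl _ (D.range_g_seq i ⟨j, rfl⟩)
    cases hh : kap u.1.1 j with
    | false =>
      have hh' : kap u'.1.1 j = true := by
        cases h5 : kap u'.1.1 j with
        | false => exact absurd (hh.trans h5.symm) hj
        | true => rfl
      obtain ⟨h4, h5⟩ := D.sep_g h0 h0' hh hh'
      exact Or.inr ⟨g j, hgm _, hgm _, h4, h5⟩
    | true =>
      have hh' : kap u'.1.1 j = false := by
        cases h5 : kap u'.1.1 j with
        | true => exact absurd (hh.trans h5.symm) hj
        | false => rfl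
      exfalso
      obtain ⟨h4, h5⟩ := D.sep_g h0' h0 hh' hh
      exact absurd h (not_lt.2 (h4.trans h5).le)

/-- Tarski-Vaught property over two elements -/
theorem tv_pair (u u' : D.Md) (b : S) (q : ℕ) (h1 : D.val u < b) (h2 : b < D.val u') :
    ∃ w : D.Md, E c c q (insert (b, D.val w) (diag {D.val u, D.val u'})) := by
  have hfin : ∀ x y : S, ({x, y} : Set S).Finite := fun x y => (Set.finite_singleton y).insert x
  rcases D.common_or_sep u u' (h1.trans h2) with ⟨i, hi, hi'⟩ | ⟨w, hw, hw', huw, hwu⟩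
  · obtain ⟨z, hz, hE⟩ := dcl_tv D.hmin (X := Set.range (D.seq i)) (G := {D.val u, D.val u'})
      (by rintro x (rfl | rfl); exacts [hi, hi']) (hfin _ _) b q
    obtain ⟨w, rfl⟩ := D.exists_code hz
    exact ⟨w, hE⟩
  · rcases lt_trichotomy b w with hbw | hbw | hbw
    · obtain ⟨z, hz, hE⟩ := dcl_tv D.hmin (X := Set.range (D.seq u.1.1)) (G := {D.val u, w})
        (by rintro x (rfl | rfl); exacts [D.val_dcl u, hw]) (hfin _ _) b q
      obtain ⟨v, rfl⟩ := D.exists_code hz
      refine ⟨v, ?_⟩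
      have hD : E c c q (diag ({w, D.val u'} : Set S)) := E_of_diag q _ (fun p hp => hp.2.symm)
      refine (E.glue (g := (w, w)) (Or.inr (mem_diag (by simp))) (mem_diag (by simp)) ?_ ?_ hE hD).mono ?_
      · rintro p (rfl | ⟨hp | hp, _⟩)
        · exact hbw.le
        · rw [hp]; exact huw.le
        · exact le_of_eq hp
      · rintro p ⟨hp | hp, _⟩
        · exact le_of_eq hp.symm
        · rw [hp]; exact hwu.le
      · rintro p (rfl | ⟨hp | hp, hp'⟩)
        · exact Or.inl (Or.inl rfl)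
        · exact Or.inl (Or.inr ⟨Or.inl hp, hp'⟩)
        · exact Or.inr ⟨Or.inr hp, hp'⟩
    · obtain ⟨v, hv⟩ := D.exists_code hw
      refine ⟨v, E_of_diag q _ ?_⟩
      rintro p (rfl | hp)
      · simp only; rw [hv, hbw]
      · exact hp.2.symm
    · obtain ⟨z, hz, hE⟩ := dcl_tv D.hmin (X := Set.range (D.seq u'.1.1)) (G := {w, D.val u'})
        (by rintro x (rfl | rfl); exacts [hw', D.val_dcl u']) (hfin _ _) b q
      obtain ⟨v, rfl⟩ := D.exists_code hz
      refine ⟨v, ?_⟩
      have hD : E c c q (diag ({D.val u, w} : Set S)) := E_of_diag q _ (fun p hp => hp.2.symm)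
      refine (E.glue (g := (w, w)) (mem_diag (by simp)) (Or.inr (mem_diag (by simp))) ?_ ?_ hD hE).mono ?_
      · rintro p ⟨hp | hp, _⟩
        · rw [hp]; exact huw.le
        · exact le_of_eq hp
      · rintro p (rfl | ⟨hp | hp, _⟩)
        · exact hbw.le
        · exact le_of_eq hp.symm
        · rw [hp]; exact hwu.le
      · rintro p (rfl | ⟨hp | hp, hp'⟩)
        · exact Or.inr (Or.inl rfl)
        · exact Or.inl ⟨Or.inl hp, hp'⟩
        · exact Or.inr (Or.inr ⟨Or.inr hp, hp'⟩)

theorem exists_code_g (j : ℕ) : ∃ u : D.Md, D.val u = g j :=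
  D.exists_code (i := Sum.inl ()) (subset_dcl _ ⟨j, rfl⟩)

/-- Tarski-Vaught property of the model -/
theorem tv (q k : ℕ) (v : Fin k → D.Md) (b : S) : ∃ z : D.Md,
    rt c q (Fin.snoc (D.val ∘ v) (D.val z) : Fin (k + 1) → S) =
      rt c q (Fin.snoc (D.val ∘ v) b : Fin (k + 1) → S) := by
  classical
  have key : ∃ z : D.Md, E c c q (insert (b, D.val z) (diag (Set.range (D.val ∘ v)))) := by
    obtain ⟨u0, hu0⟩ := D.exists_code_g 0
    obtain ⟨u1, hu1⟩ := D.exists_code_g 1
    by_cases hb : ∃ z : D.Md, D.val z = b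
    · obtain ⟨z, hz⟩ := hb
      refine ⟨z, E_of_diag q _ ?_⟩
      rintro p (rfl | hp)
      · exact hz.symm
      · exact hp.2.symm
    let G : Finset D.Md := insert u0 (insert u1 (Finset.univ.image v))
    have hne : ∀ w : D.Md, D.val w ≠ b := fun w hw => hb ⟨w, hw⟩
    have h0b : D.val u0 < b := by
      rw [hu0]; exact lt_of_le_of_ne (D.h0 b) (hu0 ▸ hne u0)
    have hb1 : b < D.val u1 := by
      rw [hu1]; exact lt_of_le_of_ne (D.h1 b) (hu1 ▸ (hne u1).symm)
    obtain ⟨u, hu, hu'⟩ := (G.filter fun w => D.val w < b).exists_max_image D.val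
      ⟨u0, by simp [G, h0b]⟩
    obtain ⟨w, hw, hw'⟩ := (G.filter fun w => b < D.val w).exists_min_image D.val
      ⟨u1, by simp [G, hb1]⟩
    rw [Finset.mem_filter] at hu hw
    obtain ⟨z, hz⟩ := D.tv_pair u w b q hu.2 hw.2
    refine ⟨z, ?_⟩
    have hzu : D.val u < D.val z :=
      (hz.lt_iff (x := (D.val u, D.val u)) (Or.inr (mem_diag (by simp))) (Or.inl rfl)).1 hu.2
    have hD : ∀ X : Set S, E c c q (diag X) := fun X => E_of_diag q _ (fun p hp => hp.2.symm)
    have h1 := E.glue (g := (D.val u, D.val u)) (R1 := diag (insert (D.val u) (Set.range (D.val ∘ v) ∩ Set.Iic (D.val u))))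
      (mem_diag (Or.inl rfl)) (Or.inr (mem_diag (by simp))) ?_ ?_ (hD _) hz
    · have h2 := E.glue (g := (D.val w, D.val w)) (R2 := diag (insert (D.val w) (Set.range (D.val ∘ v) ∩ Set.Ici (D.val w))))
        (Or.inr (Or.inr (mem_diag (by simp)))) (mem_diag (Or.inl rfl)) ?_ ?_ h1 (hD _)
      · refine h2.mono ?_
        rintro p (rfl | ⟨⟨i, hi⟩, hp⟩)
        · exact Or.inl (Or.inr (Or.inl rfl))
        · have hiG : v i ∈ G := by simp [G]
          simp only [Function.comp] at hi
          rcases lt_or_gt_of_ne (hne (v i)) with h3 | h3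
          · left; left
            refine ⟨Or.inr ⟨⟨i, hi⟩, ?_⟩, hp⟩
            rw [← hi]
            exact hu' (v i) (by simp [hiG, h3])
          · right
            refine ⟨Or.inr ⟨⟨i, hi⟩, ?_⟩, hp⟩
            rw [← hi]
            exact hw' (v i) (by simp [hiG, h3])
      · rintro p (⟨hp | hp, _⟩ | rfl | ⟨hp | hp, _⟩)
        · rw [hp]; exact (hu.2.trans hw.2).le
        · exact hp.2.trans (hu.2.trans hw.2).le
        · exact hw.2.le
        · rw [hp]; exact (hu.2.trans hw.2).le
        · exact le_of_eq hp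
      · rintro p ⟨hp | hp, _⟩
        · exact le_of_eq hp.symm
        · exact hp.2
    · rintro p ⟨hp | hp, _⟩
      · exact le_of_eq hp
      · exact hp.2
    · rintro p (rfl | ⟨hp | hp, _⟩)
      · exact hu.2.le
      · exact le_of_eq hp.symm
      · rw [hp]; exact (hu.2.trans hw.2).le
  obtain ⟨z, hz⟩ := key
  refine ⟨z, ?_⟩
  rw [eq_comm, rt_snoc_eq_iff]
  refine hz.mono (Set.insert_subset_insert ?_)
  rintro _ ⟨i, rfl⟩
  exact mem_diag ⟨i, rfl⟩

end FD

end Pool.Agent.W227.FL
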