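import Pool.Agent.W227.FL.Fill
import Pool.Agent.W227.FL.Dcl

/-! Part F1: names of definable elements, locality. -/

set_option autoImplicit false

namespace Pool.Agent.W227.FL

open MeasureTheory

section
variable {S : Type} [LinearOrder S] {c : S → Bool} {g : ℕ → S}

/-- names -/
abbrev Nm : Type := Σ k : ℕ, RT k (k + 1)

instance : Nonempty Nm := ⟨⟨0, (fun _ _ => true, fun _ => true)⟩⟩

/-- an enumeration of the names -/
noncomputable def dec : ℕ → Nm := (exists_surjective_nat Nm).choose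

theorem dec_surj : Function.Surjective dec := (exists_surjective_nat Nm).choose_spec

/-- `z` is the unique element with name number `n` over the sequence `a` -/
def IsVal (c : S → Bool) (a : ℕ → S) (n : ℕ) (z : S) : Prop :=
  tpx c a z (dec n).1 = (dec n).2 ∧ ∀ z', tpx c a z' (dec n).1 = (dec n).2 → z' = z

theorem IsVal.unique {a : ℕ → S} {n : ℕ} {z z' : S} (h : IsVal c a n z) (h' : IsVal c a n z') :
    z = z' := (h.2 z' h'.1).symm

theorem mem_dcl_range {a : ℕ → S} {z : S} :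
    z ∈ dcl c (Set.range a) ↔ ∃ n, IsVal c a n z := by
  constructor
  · rintro ⟨F, hF, hf, q, hq⟩
    obtain ⟨K, hqK, hFK⟩ : ∃ K, q ≤ K ∧ ∀ y ∈ F, ∃ i < K, a i = y := by
      choose! f hf1 using fun y (hy : y ∈ F) => hF hy
      obtain ⟨B, hB⟩ := (hf.image f).bddAbove
      refine ⟨max q (B + 1), le_max_left _ _, fun y hy => ⟨f y, ?_, hf1 y hy⟩⟩
      have := hB ⟨y, hy, rfl⟩
      omega
    obtain ⟨n, hn⟩ := dec_surj ⟨K, tpx c a z K⟩
    refine ⟨n, ?_⟩
    unfold IsVal
    rw [hn]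
    refine ⟨rfl, fun z' hz' => ?_⟩
    apply hq
    have h1 := tpx_eq_iff.1 hz'.symm
    refine (h1.anti hqK).mono (Set.insert_subset_insert ?_)
    rintro ⟨y, y'⟩ ⟨hy, hy'⟩
    obtain ⟨i, hi, hi'⟩ := hFK y hy
    exact ⟨i, hi, by simp only at hy'; rw [hi', hy']⟩
  · rintro ⟨n, h1, h2⟩
    refine ⟨a '' {i | i < (dec n).1}, ?_, (Set.finite_lt_nat _).image _, (dec n).1, fun z' hz' => ?_⟩
    · rintro _ ⟨i, _, rfl⟩; exact ⟨i, rfl⟩
    · apply h2
      rw [← h1, eq_comm, tpx_eq_iff]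
      refine hz'.mono (Set.insert_subset_insert ?_)
      rintro p ⟨i, hi, rfl⟩
      exact ⟨⟨i, hi, rfl⟩, rfl⟩

/-- transfer of `IsVal` along a back-and-forth relation -/
theorem IsVal.transfer {q : ℕ} {R : Set (S × S)} (hE : E c c (q + 1) R) {a a' : ℕ → S} {z z' : S}
    {n : ℕ} (hz : (z, z') ∈ R) (hR : PR a a' (dec n).1 ⊆ R) (hq : (dec n).1 ≤ q)
    (h : IsVal c a n z) : IsVal c a' n z' := by
  have key : ∀ {w w' : S}, E c c q (insert (w, w') R) → tpx c a w (dec n).1 = tpx c a' w' (dec n).1 := by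
    intro w w' h
    rw [tpx_eq_iff]
    exact (h.anti hq).mono (Set.insert_subset_insert hR)
  constructor
  · rw [← h.1]
    refine (key (hE.pred.mono ?_)).symm
    rintro p (rfl | hp)
    · exact hz
    · exact hp
  · intro w' hw'
    obtain ⟨w, hw⟩ := hE.back w'
    have h1 : tpx c a w (dec n).1 = (dec n).2 := (key hw).trans hw'
    have h2 := h.2 w h1
    have h3 := hw.eq_iff (Or.inl rfl) (Or.inr hz)
    exact h3.1 h2

/-- definable elements can be added to a back-and-forth relation -/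
theorem E.add {q : ℕ} {R : Set (S × S)} (hE : E c c (q + 2) R) {a a' : ℕ → S} {n : ℕ}
    (hR : PR a a' (dec n).1 ⊆ R) (hq : (dec n).1 ≤ q) {z z' : S}
    (h : IsVal c a n z) (h' : IsVal c a' n z') : E c c (q + 1) (insert (z, z') R) := by
  obtain ⟨w, hw⟩ := E.forth (show E c c (q + 1 + 1) _ from hE) z
  have := h.transfer hw (Or.inl rfl) (hR.trans (Set.subset_insert _ _)) hq
  rw [h'.unique this]
  exact hw

theorem E.exists_add {q : ℕ} {R : Set (S × S)} (hE : E c c (q + 2) R) {a a' : ℕ → S} {n : ℕ}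
    (hR : PR a a' (dec n).1 ⊆ R) (hq : (dec n).1 ≤ q) {z : S} (h : IsVal c a n z) :
    ∃ z', IsVal c a' n z' ∧ E c c (q + 1) (insert (z, z') R) := by
  obtain ⟨w, hw⟩ := E.forth (show E c c (q + 1 + 1) _ from hE) z
  exact ⟨w, h.transfer hw (Or.inl rfl) (hR.trans (Set.subset_insert _ _)) hq, hw⟩

/-- `z` has name `n` over `a` and name `n'` over the subsequence `b` -/
def Same (c : S → Bool) (a : ℕ → S) (n : ℕ) (b : ℕ → S) (n' : ℕ) : Prop :=
  ∃ z, IsVal c a n z ∧ IsVal c b n' z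

theorem Same.transfer {q : ℕ} {R : Set (S × S)} (hE : E c c (q + 2) R) {a a' b b' : ℕ → S}
    {n n' : ℕ} (hR : PR a a' (dec n).1 ⊆ R) (hR' : PR b b' (dec n').1 ⊆ R) (hq : (dec n).1 ≤ q)
    (hq' : (dec n').1 ≤ q) (h : Same c a n b n') : Same c a' n b' n' := by
  obtain ⟨z, h1, h2⟩ := h
  obtain ⟨z', h3, h4⟩ := hE.exists_add hR hq h1
  exact ⟨z', h3, h2.transfer h4 (Or.inl rfl) (hR'.trans (Set.subset_insert _ _)) hq'⟩

/-- the set of good cuts is measurable -/
theorem measurableSet_goodCut (hsat : SatProp c) : MeasurableSet (GoodCut c g) := by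
  have : GoodCut c g = (⋂ k : ℕ, {κ : ℕ → Bool | ∃ x, ∀ i ≤ k, g i ≠ x ∧ (g i < x ↔ κ i = true)}) ∩
      (Bad c g)ᶜ := by
    ext κ
    simp only [Set.mem_inter_iff, Set.mem_iInter, Set.mem_compl_iff]
    constructor
    · rintro ⟨x, ⟨hx, hb⟩, rfl⟩
      exact ⟨fun k => ⟨x, fun i _ => ⟨fun h => hx ⟨i, h⟩, by simp [cut]⟩⟩, hb⟩
    · rintro ⟨h1, h2⟩
      obtain ⟨x, hx⟩ := hsat.one g (fun j => j + 1) (fun i x => g i ≠ x ∧ (g i < x ↔ κ i = true)) (by
        rintro j x x' h ⟨h1, h2⟩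
        rw [tpx_eq_iff] at h
        have e1 : (g j, g j) ∈ insert (x, x') (PR g g (j + 1)) := Or.inr ⟨j, by omega, rfl⟩
        have e2 : (x, x') ∈ insert (x, x') (PR g g (j + 1)) := Or.inl rfl
        exact ⟨fun h' => h1 ((h.eq_iff e1 e2).2 h'), by rw [← h2]; exact (h.lt_iff e1 e2).symm⟩) h1
      have hc : cut g x = κ := by
        funext i
        have := (hx i).2
        unfold cut
        cases hk : κ i with
        | true => simpa [hk] using this
        | false => simpa [hk] using this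
      refine ⟨x, ⟨?_, ?_⟩, hc⟩
      · rintro ⟨i, hi⟩
        exact (hx i).1 hi
      · rw [hc]; exact h2
  rw [this]
  refine MeasurableSet.inter (MeasurableSet.iInter fun k => ?_)
    ((bad_countable c g).measurableSet.compl)
  refine measurableSet_of_factors (f := fun (κ : ℕ → Bool) (i : Fin (k + 1)) => κ i)
    (measurable_pi_lambda _ fun i => measurable_pi_apply _) _ ?_
  rintro κ κ' h ⟨x, hx⟩
  refine ⟨x, fun i hi => ?_⟩
  have := congrFun h ⟨i, by omega⟩
  simp only at this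
  rw [← this]
  exact hx i hi

/-- the set of good types is measurable -/
theorem measurableSet_goodTp (hsat : SatProp c) : MeasurableSet (GoodTp c g) := by
  have : GoodTp c g = (⋂ k : ℕ, {p : ∀ k, RT k (k + 1) | ∃ x, ∀ j ≤ k, tpx c g x j = p j ∧ g j ≠ x}) ∩
      (cutOf ⁻¹' (Bad c g)ᶜ) := by
    ext p
    simp only [Set.mem_inter_iff, Set.mem_iInter, Set.mem_preimage, Set.mem_compl_iff]
    constructor
    · rintro ⟨x, ⟨hx, hb⟩, rfl⟩
      refine ⟨fun k => ⟨x, fun j _ => ⟨rfl, fun h => hx ⟨j, h⟩⟩⟩, ?_⟩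
      rw [cutOf_tpx]; exact hb
    · rintro ⟨h1, h2⟩
      obtain ⟨x, hx⟩ := hsat.one g (fun j => j + 1) (fun j x => tpx c g x j = p j ∧ g j ≠ x) (by
        rintro j x x' h ⟨h1, h2⟩
        refine ⟨?_, ?_⟩
        · rw [← h1]; exact (tpx_mono (by omega) h).symm
        · rw [tpx_eq_iff] at h
          have e1 : (g j, g j) ∈ insert (x, x') (PR g g (j + 1)) := Or.inr ⟨j, by omega, rfl⟩
          have e2 : (x, x') ∈ insert (x, x') (PR g g (j + 1)) := Or.inl rfl
          exact fun h' => h2 ((h.eq_iff e1 e2).2 h')) h1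
      have hp : (fun k => tpx c g x k) = p := funext fun k => (hx k).1
      refine ⟨x, ⟨?_, ?_⟩, hp⟩
      · rintro ⟨i, hi⟩
        exact (hx i).2 hi
      · rw [← cutOf_tpx (c := c) (g := g), hp]; exact h2
  rw [this]
  refine MeasurableSet.inter (MeasurableSet.iInter fun k => ?_)
    (measurable_cutOf (bad_countable c g).measurableSet.compl)
  refine measurableSet_of_factors
    (f := fun (p : ∀ k, RT k (k + 1)) (i : Fin (k + 1)) => p (i : ℕ))
    (measurable_pi_lambda _ fun i => measurable_pi_apply _) _ ?_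
  rintro p p' h ⟨x, hx⟩
  refine ⟨x, fun i hi => ?_⟩
  have := congrFun h ⟨i, by omega⟩
  simp only at this
  rw [← this]
  exact hx i hi

end

end Pool.Agent.W227.FL
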