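import Pool.Agent.W227.FL.Basic

/-! Part B: the ultraproduct of finite coloured chains `Fin (m n)`: definitions. -/

set_option autoImplicit false

namespace Pool.Agent.W227.FL

open Filter Topology

/-- the ultraproduct -/
def Star (U : Ultrafilter ℕ) (m : ℕ → ℕ) : Type := (U : Filter ℕ).Product fun n => Fin (m n)

variable {U : Ultrafilter ℕ} {m : ℕ → ℕ}

/-- the class of a sequence -/
def mk (x : ∀ n, Fin (m n)) : Star U m := Quotient.mk'' x

theorem mk_surj (z : Star U m) : ∃ x : ∀ n, Fin (m n), (mk x : Star U m) = z := by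
  induction z using Quotient.inductionOn' with
  | h x => exact ⟨x, rfl⟩

theorem mk_eq {x y : ∀ n, Fin (m n)} : (mk x : Star U m) = mk y ↔ ∀ᶠ n in (U : Filter ℕ), x n = y n :=
  Quotient.eq''

/-- the order on the ultraproduct -/
def Star.le (a b : Star U m) : Prop :=
  Quotient.liftOn₂' a b (fun x y => ∀ᶠ n in (U : Filter ℕ), x n ≤ y n) (by
    intro x y x' y' hx hy
    have hx' : ∀ᶠ n in (U : Filter ℕ), x n = x' n := hx
    have hy' : ∀ᶠ n in (U : Filter ℕ), y n = y' n := hy
    refine propext ⟨fun h => ?_, fun h => ?_⟩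
    · filter_upwards [h, hx', hy'] with n h1 h2 h3
      rw [← h2, ← h3]; exact h1
    · filter_upwards [h, hx', hy'] with n h1 h2 h3
      rw [h2, h3]; exact h1)

theorem Star.mk_le' {x y : ∀ n, Fin (m n)} :
    Star.le (mk x : Star U m) (mk y) ↔ ∀ᶠ n in (U : Filter ℕ), x n ≤ y n := Iff.rfl

noncomputable instance : LinearOrder (Star U m) where
  le := Star.le
  le_refl a := by
    obtain ⟨x, rfl⟩ := mk_surj a
    exact Star.mk_le'.2 (Eventually.of_forall fun n => le_rfl)
  le_trans a b d hab hbd := by
    obtain ⟨x, rfl⟩ := mk_surj a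
    obtain ⟨y, rfl⟩ := mk_surj b
    obtain ⟨z, rfl⟩ := mk_surj d
    rw [Star.mk_le'] at *
    filter_upwards [hab, hbd] with n h1 h2 using h1.trans h2
  le_antisymm a b hab hba := by
    obtain ⟨x, rfl⟩ := mk_surj a
    obtain ⟨y, rfl⟩ := mk_surj b
    rw [Star.mk_le'] at *
    rw [mk_eq]
    filter_upwards [hab, hba] with n h1 h2 using le_antisymm h1 h2
  le_total a b := by
    obtain ⟨x, rfl⟩ := mk_surj a
    obtain ⟨y, rfl⟩ := mk_surj b
    rw [Star.mk_le', Star.mk_le', ← Ultrafilter.eventually_or]
    exact Eventually.of_forall fun n => le_total _ _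
  toDecidableLE := Classical.decRel _

theorem mk_le {x y : ∀ n, Fin (m n)} : (mk x : Star U m) ≤ mk y ↔ ∀ᶠ n in (U : Filter ℕ), x n ≤ y n :=
  Iff.rfl

theorem mk_lt {x y : ∀ n, Fin (m n)} : (mk x : Star U m) < mk y ↔ ∀ᶠ n in (U : Filter ℕ), x n < y n := by
  rw [← not_le, mk_le, ← Ultrafilter.eventually_not]
  simp only [not_le]

/-- the colour on the ultraproduct, as a proposition -/
def cstarP (c : ∀ n, Fin (m n) → Bool) (a : Star U m) : Prop :=
  Quotient.liftOn' a (fun x => ∀ᶠ n in (U : Filter ℕ), c n (x n) = true) (by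
    intro x x' hx
    have hx' : ∀ᶠ n in (U : Filter ℕ), x n = x' n := hx
    refine propext ⟨fun h => ?_, fun h => ?_⟩
    · filter_upwards [h, hx'] with n h1 h2
      rw [← h2]; exact h1
    · filter_upwards [h, hx'] with n h1 h2
      rw [h2]; exact h1)

open Classical in
/-- the colour on the ultraproduct -/
noncomputable def cstar (c : ∀ n, Fin (m n) → Bool) (a : Star U m) : Bool := decide (cstarP c a)

theorem cstar_mk (c : ∀ n, Fin (m n) → Bool) (x : ∀ n, Fin (m n)) :
    cstar c (mk x : Star U m) = true ↔ ∀ᶠ n in (U : Filter ℕ), c n (x n) = true := by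
  classical
  unfold cstar
  rw [@decide_eq_true_iff _ (_)]
  exact Iff.rfl

/-- the colour of `mk x` is the colour of `x n` for almost all `n` -/
theorem cstar_mk' (c : ∀ n, Fin (m n) → Bool) (x : ∀ n, Fin (m n)) :
    ∀ᶠ n in (U : Filter ℕ), cstar c (mk x : Star U m) = c n (x n) := by
  rcases h : cstar c (mk x : Star U m) with _ | _
  · have h' : ¬ ∀ᶠ n in (U : Filter ℕ), c n (x n) = true := by
      rw [← cstar_mk, h]; simp
    rw [← Ultrafilter.eventually_not] at h'
    filter_upwards [h'] with n hn
    cases hc : c n (x n) with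
    | false => rfl
    | true => exact absurd hc hn
  · have h' := (cstar_mk c x).1 h
    filter_upwards [h'] with n hn using hn.symm

/-- Los' theorem for rank types -/
theorem rt_mk (hm : ∀ n, 0 < m n) (c : ∀ n, Fin (m n) → Bool) (q : ℕ) {k : ℕ} (x : Fin k → ∀ n, Fin (m n)) :
    ∀ᶠ n in (U : Filter ℕ), rt (cstar c) q (fun i => (mk (x i) : Star U m)) =
      rt (c n) q (fun i => x i n) := by
  have hat : ∀ {k : ℕ} (x : Fin k → ∀ n, Fin (m n)), ∀ᶠ n in (U : Filter ℕ),
      (((fun i j => decide ((mk (x i) : Star U m) < mk (x j)), fun i => cstar c (mk (x i) : Star U m)) :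
        (Fin k → Fin k → Bool) × (Fin k → Bool))) =
      (fun i j => decide (x i n < x j n), fun i => c n (x i n)) := by
    intro k x
    have h1 : ∀ᶠ n in (U : Filter ℕ), ∀ i j, ((mk (x i) : Star U m) < mk (x j) ↔ x i n < x j n) := by
      rw [eventually_all]; intro i
      rw [eventually_all]; intro j
      by_cases h : (mk (x i) : Star U m) < mk (x j)
      · filter_upwards [mk_lt.1 h] with n hn
        exact ⟨fun _ => hn, fun _ => h⟩
      · have h' : ¬ ∀ᶠ n in (U : Filter ℕ), x i n < x j n := fun h2 => h (mk_lt.2 h2)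
        rw [← Ultrafilter.eventually_not] at h'
        filter_upwards [h'] with n hn
        exact ⟨fun h2 => absurd h2 h, fun h2 => absurd h2 hn⟩
    have h2 : ∀ᶠ n in (U : Filter ℕ), ∀ i, cstar c (mk (x i) : Star U m) = c n (x i n) := by
      rw [eventually_all]; intro i
      exact cstar_mk' c (x i)
    filter_upwards [h1, h2] with n h1 h2
    refine Prod.ext ?_ ?_
    · funext i j
      simp only [h1 i j]
    · funext i
      exact h2 i
  induction q generalizing k with
  | zero => exact hat x
  | succ q ih =>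
    have h2 : ∀ᶠ n in (U : Filter ℕ), ∀ ρ : RT q (k + 1),
        (∃ b : Star U m, rt (cstar c) q (Fin.snoc (fun i => (mk (x i) : Star U m)) b : Fin (k + 1) → Star U m) = ρ) ↔
        (∃ b : Fin (m n), rt (c n) q (Fin.snoc (fun i => x i n) b : Fin (k + 1) → Fin (m n)) = ρ) := by
      rw [eventually_all]; intro ρ
      have key : (∃ b : Star U m, rt (cstar c) q (Fin.snoc (fun i => (mk (x i) : Star U m)) b : Fin (k + 1) → Star U m) = ρ) ↔
        ∀ᶠ n in (U : Filter ℕ), ∃ b : Fin (m n), rt (c n) q (Fin.snoc (fun i => x i n) b : Fin (k + 1) → Fin (m n)) = ρ := by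
        constructor
        · rintro ⟨b, hb⟩
          obtain ⟨y, rfl⟩ := mk_surj b
          have := ih (Fin.snoc x y : Fin (k + 1) → ∀ n, Fin (m n))
          filter_upwards [this] with n hn
          refine ⟨y n, ?_⟩
          have e1 : (fun i : Fin (k + 1) => (mk ((Fin.snoc x y : Fin (k + 1) → ∀ n, Fin (m n)) i) : Star U m)) =
            (Fin.snoc (fun i => (mk (x i) : Star U m)) (mk y) : Fin (k + 1) → Star U m) := by
            funext i
            refine Fin.lastCases ?_ (fun j => ?_) i <;> simp
          have e2 : (fun i : Fin (k + 1) => (Fin.snoc x y : Fin (k + 1) → ∀ n, Fin (m n)) i n) =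
            (Fin.snoc (fun i => x i n) (y n) : Fin (k + 1) → Fin (m n)) := by
            funext i
            refine Fin.lastCases ?_ (fun j => ?_) i <;> simp
          rw [e1, e2, hb] at hn
          exact hn.symm
        · intro h
          classical
          let y : ∀ n, Fin (m n) := fun n =>
              if hn : ∃ b : Fin (m n), rt (c n) q (Fin.snoc (fun i => x i n) b : Fin (k + 1) → Fin (m n)) = ρ
              then hn.choose else ⟨0, hm n⟩
          refine ⟨mk y, ?_⟩
          have := ih (Fin.snoc x y : Fin (k + 1) → ∀ n, Fin (m n))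
          obtain ⟨n, hn, hn'⟩ := (this.and h).exists
          have e1 : (fun i : Fin (k + 1) => (mk ((Fin.snoc x y : Fin (k + 1) → ∀ n, Fin (m n)) i) : Star U m)) =
            (Fin.snoc (fun i => (mk (x i) : Star U m)) (mk y) : Fin (k + 1) → Star U m) := by
            funext i
            refine Fin.lastCases ?_ (fun j => ?_) i <;> simp
          have e2 : (fun i : Fin (k + 1) => (Fin.snoc x y : Fin (k + 1) → ∀ n, Fin (m n)) i n) =
            (Fin.snoc (fun i => x i n) (y n) : Fin (k + 1) → Fin (m n)) := by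
            funext i
            refine Fin.lastCases ?_ (fun j => ?_) i <;> simp
          rw [e1, e2] at hn
          rw [hn]
          have : y n = hn'.choose := by simp only [y]; rw [dif_pos hn']
          rw [this]
          exact hn'.choose_spec
      by_cases h : (∃ b : Star U m, rt (cstar c) q (Fin.snoc (fun i => (mk (x i) : Star U m)) b : Fin (k + 1) → Star U m) = ρ)
      · filter_upwards [key.1 h] with n hn
        exact ⟨fun _ => hn, fun _ => h⟩
      · have h' : ¬ ∀ᶠ n in (U : Filter ℕ), ∃ b : Fin (m n), rt (c n) q (Fin.snoc (fun i => x i n) b : Fin (k + 1) → Fin (m n)) = ρ :=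
          fun h2 => h (key.2 h2)
        rw [← Ultrafilter.eventually_not] at h'
        filter_upwards [h'] with n hn
        exact ⟨fun h2 => absurd h2 h, fun h2 => absurd h2 hn⟩
    filter_upwards [hat x, h2] with n h1 h2
    refine Prod.ext h1 ?_
    show {ρ | _} = {ρ | _}
    ext ρ
    exact h2 ρ

end Pool.Agent.W227.FL
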