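import Pool.Agent.W227.FL.Borel

/-! Part F5: the measurable family of realisations, and the existence of the model. -/

set_option autoImplicit false

namespace Pool.Agent.W227.FL

open MeasureTheory

namespace FD

variable {S : Type} [LinearOrder S] {c : S → Bool} {g : ℕ → S} (D : FD S c g)

/-- the index of level `l` of a type -/
def Il (l : ℕ) (p : GoodTp c g) : Ix c g :=
  match l with
  | 0 => Sum.inl ()
  | 1 => Sum.inr (Sum.inl ⟨cutOf p.1, cutOf_good p.2⟩)
  | _ => Sum.inr (Sum.inr p)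

theorem measurable_Il (l : ℕ) : Measurable (Il (c := c) (g := g) l) := by
  rcases l with _ | _ | l
  · exact measurable_const
  · exact measurable_inr.comp (measurable_inl.comp
      ((measurable_cutOf.comp measurable_subtype_coe).subtype_mk))
  · exact measurable_inr.comp measurable_inr

theorem PRI_sub (l : ℕ) (p p1 : GoodTp c g) (k : ℕ) :
    PR (D.seq (Il l p)) (D.seq (Il l p1)) k ⊆ PR (D.A2 p.1) (D.A2 p1.1) (2 * k + 2) := by
  rcases l with _ | _ | l
  · exact D.PRg_sub (i := Sum.inr (Sum.inr p)) (i1 := Sum.inr (Sum.inr p1)) rfl k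
  · exact D.PRa_sub (i := Sum.inr (Sum.inr p)) (i1 := Sum.inr (Sum.inr p1)) rfl (by simp [lev]) k
  · exact PR_mono (by omega)

/-- the set of types for which the chosen realisation has a given name at a given level -/
def Q (l n : ℕ) : Set (GoodTp c g) := {p | IsVal c (D.seq (Il l p)) n (D.x p.1)}

theorem measurableSet_Q (l n : ℕ) : MeasurableSet (D.Q l n) := by
  let K := 2 * (dec n).1 + 5
  refine measurableSet_of_factors (f := fun p : GoodTp c g => Tp c (D.A2 p.1) K) (D.hxm K) _ ?_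
  intro p p1 h hp
  rw [Tp_eq_iff] at h
  refine IsVal.transfer (q := (dec n).1) (R := PR (D.A2 p.1) (D.A2 p1.1) K) (h.anti (by omega))
    ⟨0, by omega, rfl⟩ ((D.PRI_sub l p p1 _).trans (PR_mono (by omega))) le_rfl hp

/-- the realisation of `p` has home level `l` and name `n` -/
def Hm (l n : ℕ) : Set (GoodTp c g) :=
  {p | p ∈ D.Q l n ∧ (∀ n', n' < n → p ∉ D.Q l n') ∧
    (lev (Il l p) ≠ 0 → ∀ n', ¬ IsVal c (D.pseq (Il l p)) n' (D.x p.1))}

theorem measurableSet_Hm (l n : ℕ) (hl : l < 3) : MeasurableSet (D.Hm l n) := by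
  have hps : ∀ p : GoodTp c g, D.pseq (Il 1 p) = D.seq (Il 0 p) := fun p => rfl
  have hps2 : ∀ p : GoodTp c g, D.pseq (Il 2 p) = D.seq (Il 1 p) := fun p => rfl
  have h1 : MeasurableSet {p : GoodTp c g | lev (Il l p) ≠ 0 →
      ∀ n', ¬ IsVal c (D.pseq (Il l p)) n' (D.x p.1)} := by
    have hl' : l = 0 ∨ l = 1 ∨ l = 2 := by omega
    rcases hl' with rfl | rfl | rfl
    · have : {p : GoodTp c g | lev (Il 0 p) ≠ 0 →
        ∀ n', ¬ IsVal c (D.pseq (Il 0 p)) n' (D.x p.1)} = Set.univ := by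
        ext p; simp [Il, lev]
      rw [this]; exact MeasurableSet.univ
    · have : {p : GoodTp c g | lev (Il 1 p) ≠ 0 →
        ∀ n', ¬ IsVal c (D.pseq (Il 1 p)) n' (D.x p.1)} = ⋂ n', (D.Q 0 n')ᶜ := by
        ext p
        simp only [hps, Set.mem_iInter]
        exact ⟨fun h n' => h (by simp [Il, lev]) n', fun h _ n' => h n'⟩
      rw [this]; exact MeasurableSet.iInter fun n' => (D.measurableSet_Q 0 n').compl
    · have : {p : GoodTp c g | lev (Il 2 p) ≠ 0 →
        ∀ n', ¬ IsVal c (D.pseq (Il 2 p)) n' (D.x p.1)} = ⋂ n', (D.Q 1 n')ᶜ := by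
        ext p
        simp only [hps2, Set.mem_iInter]
        exact ⟨fun h n' => h (by simp [Il, lev]) n', fun h _ n' => h n'⟩
      rw [this]; exact MeasurableSet.iInter fun n' => (D.measurableSet_Q 1 n').compl
  have h2 : MeasurableSet {p : GoodTp c g | ∀ n', n' < n → p ∉ D.Q l n'} := by
    have : {p : GoodTp c g | ∀ n', n' < n → p ∉ D.Q l n'} = ⋂ n' : Fin n, (D.Q l n')ᶜ := by
      ext p
      simp only [Set.mem_iInter]
      exact ⟨fun h n' => h n' n'.2, fun h n' hn' => h ⟨n', hn'⟩⟩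
    rw [this]; exact MeasurableSet.iInter fun n' => (D.measurableSet_Q l n').compl
  exact (D.measurableSet_Q l n).inter (h2.inter h1)

theorem Hm_cover (p : GoodTp c g) : ∃ l < 3, ∃ n, p ∈ D.Hm l n := by
  classical
  have key : ∀ l, (∃ n, p ∈ D.Q l n) → (lev (Il l p) ≠ 0 → ∀ n', ¬ IsVal c (D.pseq (Il l p)) n' (D.x p.1)) →
      ∃ n, p ∈ D.Hm l n := by
    intro l hex hn
    exact ⟨Nat.find hex, Nat.find_spec hex, fun n' hn' => Nat.find_min hex hn', hn⟩
  by_cases h0 : ∃ n, p ∈ D.Q 0 n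
  · exact ⟨0, by omega, key 0 h0 (fun h => absurd rfl h)⟩
  by_cases h1 : ∃ n, p ∈ D.Q 1 n
  · exact ⟨1, by omega, key 1 h1 (fun _ n' hn' => h0 ⟨n', hn'⟩)⟩
  · refine ⟨2, by omega, key 2 ?_ (fun _ n' hn' => h1 ⟨n', hn'⟩)⟩
    have : D.x p.1 ∈ dcl c (Set.range (D.A2 p.1)) := subset_dcl _ ⟨0, rfl⟩
    exact mem_dcl_range.1 this

theorem Hm_valid {l n : ℕ} {p : GoodTp c g} (h : p ∈ D.Hm l n) : D.Valid (Il l p) n := by
  refine ⟨D.x p.1, h.1, h.2.1, fun h0 hd => ?_⟩
  obtain ⟨n', hn'⟩ := mem_dcl_range.1 hd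
  exact h.2.2 h0 n' hn'

theorem exists_xi (p : GoodTp c g) : ∃ u : D.Md, D.val u = D.x p.1 :=
  D.exists_code (i := Sum.inr (Sum.inr p)) (subset_dcl _ ⟨0, rfl⟩)

/-- the code of the realisation of `p` -/
noncomputable def xi (p : GoodTp c g) : D.Md := (D.exists_xi p).choose

theorem val_xi (p : GoodTp c g) : D.val (D.xi p) = D.x p.1 := (D.exists_xi p).choose_spec

theorem xi_eq {l n : ℕ} {p : GoodTp c g} (h : p ∈ D.Hm l n) : (D.xi p).1 = (Il l p, n) := by
  have : D.xi p = ⟨(Il l p, n), D.Hm_valid h⟩ := by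
    apply D.val_injective
    rw [D.val_xi]
    exact ((D.val_isVal ⟨(Il l p, n), D.Hm_valid h⟩).unique h.1).symm
  rw [this]

theorem measurable_xi : Measurable D.xi := by
  have h1 : Measurable fun p : GoodTp c g => (D.xi p).1 := by
    intro B hB
    have : (fun p : GoodTp c g => (D.xi p).1) ⁻¹' B = ⋃ l : Fin 3, ⋃ n : ℕ,
        D.Hm l n ∩ (fun p => (Il (l : ℕ) p, n)) ⁻¹' B := by
      ext p
      simp only [Set.mem_preimage, Set.mem_iUnion, Set.mem_inter_iff]
      constructor
      · intro h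
        obtain ⟨l, hl, n, hp⟩ := D.Hm_cover p
        exact ⟨⟨l, hl⟩, n, hp, by rw [← D.xi_eq hp]; exact h⟩
      · rintro ⟨l, n, hp, h⟩
        rw [D.xi_eq hp]; exact h
    rw [this]
    refine MeasurableSet.iUnion fun l => MeasurableSet.iUnion fun n => ?_
    exact (D.measurableSet_Hm l n l.2).inter (((measurable_Il l).prodMk measurable_const) hB)
  exact h1.subtype_mk

theorem standardBorel_Md : StandardBorelSpace D.Md := by
  have i1 : StandardBorelSpace (GoodCut c g) := (measurableSet_goodCut D.hsat).standardBorel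
  have i2 : StandardBorelSpace (GoodTp c g) := (measurableSet_goodTp D.hsat).standardBorel
  have i3 : StandardBorelSpace (GoodCut c g ⊕ GoodTp c g) := standardBorel_sum
  have i4 : StandardBorelSpace (Ix c g) := standardBorel_sum
  exact D.measurableSet_valid.standardBorel

end FD

open FD in
/-- There is a standard Borel elementary substructure containing a measurable family of
realisations of the good types. -/
theorem exists_model {S : Type} [LinearOrder S] {c : S → Bool} {g : ℕ → S}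
    (hmin : MinProp c) (hsat : SatProp c) (h0 : ∀ x, g 0 ≤ x) (h1 : ∀ x, x ≤ g 1) :
    ∃ (M : Type) (_ : MeasurableSpace M) (_ : StandardBorelSpace M) (val : M → S),
      Function.Injective val ∧
      (∀ (q k : ℕ) (ρ : RT q k), MeasurableSet {v : Fin k → M | rt c q (val ∘ v) = ρ}) ∧
      (∀ (q k : ℕ) (v : Fin k → M) (b : S), ∃ z : M,
        rt c q (Fin.snoc (val ∘ v) (val z) : Fin (k + 1) → S) =
          rt c q (Fin.snoc (val ∘ v) b : Fin (k + 1) → S)) ∧
      ∃ ξ : (∀ k, RT k (k + 1)) → M, Measurable ξ ∧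
        ∀ p ∈ GoodTp c g, (fun k => tpx c g (val (ξ p)) k) = p := by
  classical
  obtain ⟨e, he, hem⟩ := exists_filler (c := c) (g := g) hsat h0
  have hemb := measurableEmbedding_embeddingReal (∀ k, RT k (k + 1))
  obtain ⟨x, hx, hxm⟩ := exists_points hsat he hem _ hemb.measurable
  let D : FD S c g := ⟨hmin, hsat, h0, h1, e, he, hem, _, hemb.measurable, hemb.injective, x, hx, hxm⟩
  obtain ⟨u0, _⟩ := D.exists_code_g 0
  refine ⟨D.Md, inferInstance, D.standardBorel_Md, D.val, D.val_injective, D.measurable_tuple, D.tv,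
    fun p => if h : p ∈ GoodTp c g then D.xi ⟨p, h⟩ else u0, ?_, ?_⟩
  · exact Measurable.dite D.measurable_xi measurable_const (measurableSet_goodTp hsat)
  · intro p hp
    simp only [hp, dif_pos, D.val_xi]
    exact D.x_tpx hp

end Pool.Agent.W227.FL
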